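import Mathlib

set_option autoImplicit false

namespace Pool.Agent.Work.MP_f2148a_nt

open Finset

/-- Elementary inequality: `k + 1 ≤ C * 2 ^ (ε k)`. -/
theorem succ_le_const_mul_rpow (ε : ℝ) (hε : 0 < ε) (k : ℕ) :
    ((k : ℝ) + 1) ≤ (1 + 1 / (ε * Real.log 2)) * (2 : ℝ) ^ (ε * k) := by
  have hlog : 0 < Real.log 2 := Real.log_pos (by norm_num)
  have hpos : 0 < ε * Real.log 2 := mul_pos hε hlog
  have h1 : (2 : ℝ) ^ (ε * k) = Real.exp (ε * k * Real.log 2) := by
    rw [Real.rpow_def_of_pos (by norm_num : (0:ℝ) < 2)]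
    ring_nf
  have h2 : 1 + ε * k * Real.log 2 ≤ Real.exp (ε * k * Real.log 2) := by
    have := Real.add_one_le_exp (ε * k * Real.log 2)
    linarith
  have hk : (0 : ℝ) ≤ k := Nat.cast_nonneg k
  rw [h1]
  have h3 : 1 ≤ Real.exp (ε * k * Real.log 2) := by
    apply Real.one_le_exp
    positivity
  have h4 : (k : ℝ) ≤ 1 / (ε * Real.log 2) * Real.exp (ε * k * Real.log 2) := by
    rw [one_div, inv_mul_eq_div, le_div_iff₀ hpos]
    nlinarith
  nlinarith

/-- The divisor bound `d(n) ≤ A n^ε`. -/
theorem exists_card_divisors_le (ε : ℝ) (hε : 0 < ε) :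
    ∃ A : ℝ, 1 ≤ A ∧ ∀ n : ℕ, 1 ≤ n → ((n.divisors.card : ℕ) : ℝ) ≤ A * (n : ℝ) ^ ε := by
  obtain ⟨P, hP⟩ : ∃ P : ℕ, ∀ p : ℕ, P ≤ p → (2 : ℝ) ≤ (p : ℝ) ^ ε := by
    have := (tendsto_rpow_atTop hε).comp (tendsto_natCast_atTop_atTop (R := ℝ))
    have h2 := (this.eventually_ge_atTop 2)
    obtain ⟨P, hP⟩ := Filter.eventually_atTop.1 h2
    exact ⟨P, fun p hp => hP p hp⟩
  set C : ℝ := 1 + 1 / (ε * Real.log 2) with hC
  have hlog : 0 < Real.log 2 := Real.log_pos (by norm_num)
  have hC1 : 1 ≤ C := by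
    have : 0 ≤ 1 / (ε * Real.log 2) := by positivity
    linarith
  refine ⟨C ^ P, one_le_pow₀ hC1, fun n hn => ?_⟩
  have hn0 : n ≠ 0 := by omega
  rw [Nat.card_divisors hn0]
  have hfac : (n : ℝ) ^ ε = ∏ p ∈ n.primeFactors, ((p : ℝ) ^ ε) ^ (n.factorization p) := by
    conv_lhs => rw [← Nat.prod_factorization_pow_eq_self hn0]
    rw [Nat.prod_factorization_eq_prod_primeFactors]
    push_cast
    rw [← Real.finsetProd_rpow]
    · apply Finset.prod_congr rfl
      intro p hp
      rw [← Real.rpow_natCast, ← Real.rpow_natCast, ← Real.rpow_mul (by positivity),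
        ← Real.rpow_mul (by positivity), mul_comm]
    · intro i _
      positivity
  rw [hfac]
  push_cast
  have hstep : ∀ p ∈ n.primeFactors, ((n.factorization p : ℝ) + 1) ≤
      (if p < P then C else 1) * ((p : ℝ) ^ ε) ^ (n.factorization p) := by
    intro p hp
    have hpp := Nat.prime_of_mem_primeFactors hp
    by_cases hlt : p < P
    · rw [if_pos hlt]
      refine (succ_le_const_mul_rpow ε hε _).trans ?_
      rw [← hC]
      apply mul_le_mul_of_nonneg_left _ (by linarith)
      rw [← Real.rpow_natCast, ← Real.rpow_mul (by positivity)]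
      apply Real.rpow_le_rpow (by norm_num)
      · exact_mod_cast hpp.two_le
      · positivity
    · rw [if_neg hlt, one_mul]
      have h2 := hP p (not_lt.1 hlt)
      calc ((n.factorization p : ℝ) + 1) ≤ (2 : ℝ) ^ (n.factorization p) := by
            have : n.factorization p + 1 ≤ 2 ^ (n.factorization p) := Nat.lt_two_pow_self
            exact_mod_cast this
        _ ≤ _ := pow_le_pow_left₀ (by norm_num) h2 _
  calc ∏ p ∈ n.primeFactors, ((n.factorization p : ℝ) + 1)
      ≤ ∏ p ∈ n.primeFactors, ((if p < P then C else 1) * ((p : ℝ) ^ ε) ^ (n.factorization p)) :=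
        Finset.prod_le_prod (fun i _ => by positivity) hstep
    _ = (∏ p ∈ n.primeFactors, (if p < P then C else 1)) *
          ∏ p ∈ n.primeFactors, ((p : ℝ) ^ ε) ^ (n.factorization p) := Finset.prod_mul_distrib
    _ ≤ C ^ P * ∏ p ∈ n.primeFactors, ((p : ℝ) ^ ε) ^ (n.factorization p) := by
        apply mul_le_mul_of_nonneg_right
        · rw [Finset.prod_ite, Finset.prod_const, Finset.prod_const_one, mul_one]
          apply pow_le_pow_right₀ hC1
          calc _ ≤ (Finset.range P).card := by
                apply Finset.card_le_card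
                intro p hp
                simp only [Finset.mem_filter] at hp
                exact Finset.mem_range.2 hp.2
            _ = P := Finset.card_range P
        · apply Finset.prod_nonneg
          intro i _
          positivity

end Pool.Agent.Work.MP_f2148a_nt
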