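import Mathlib

set_option autoImplicit false

namespace Pool.Agent.Work.MP_f2148a_nt

open Finset

/-- A finite set of integers with pairwise distances at least `d` and diameter at most `L`
has at most `1 + L / d` elements. -/
theorem card_separated_le (U : Finset ℤ) (d L : ℝ) (hd : 0 < d) (hL : 0 ≤ L)
    (hsep : ∀ u ∈ U, ∀ u' ∈ U, u ≠ u' → d ≤ |(u : ℝ) - u'|)
    (hdiam : ∀ u ∈ U, ∀ u' ∈ U, |(u : ℝ) - u'| ≤ L) :
    (U.card : ℝ) ≤ 1 + L / d := by
  rcases U.eq_empty_or_nonempty with rfl | hne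
  · simp; positivity
  obtain ⟨u0, hu0, hmin⟩ := U.exists_min_image id hne
  simp only [id] at hmin
  have hcard : U.card ≤ (Finset.range (⌊L / d⌋₊ + 1)).card := by
    apply Finset.card_le_card_of_injOn (fun u : ℤ => ⌊((u : ℝ) - u0) / d⌋₊)
    · intro u hu
      simp only [Finset.coe_range, Set.mem_Iio]
      have h1 : ((u : ℝ) - u0) ≤ L := (le_abs_self _).trans (hdiam u hu u0 hu0)
      have : ⌊((u : ℝ) - u0) / d⌋₊ ≤ ⌊L / d⌋₊ := Nat.floor_le_floor (by gcongr)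
      omega
    · intro u hu u' hu' heq
      by_contra hne'
      have h0 : (0 : ℝ) ≤ ((u : ℝ) - u0) / d := by
        apply div_nonneg _ hd.le
        have := hmin u hu
        have : (u0 : ℝ) ≤ u := by exact_mod_cast this
        linarith
      have h0' : (0 : ℝ) ≤ ((u' : ℝ) - u0) / d := by
        apply div_nonneg _ hd.le
        have := hmin u' hu'
        have : (u0 : ℝ) ≤ u' := by exact_mod_cast this
        linarith
      simp only at heq
      have h1 := Nat.floor_le h0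
      have h2 := Nat.lt_floor_add_one (((u : ℝ) - u0) / d)
      have h3 := Nat.floor_le h0'
      have h4 := Nat.lt_floor_add_one (((u' : ℝ) - u0) / d)
      rw [heq] at h1 h2
      have h5 : |((u : ℝ) - u0) / d - ((u' : ℝ) - u0) / d| < 1 := by
        rw [abs_lt]
        constructor <;> linarith
      have h6 : ((u : ℝ) - u0) / d - ((u' : ℝ) - u0) / d = ((u : ℝ) - u') / d := by
        field_simp
        ring
      rw [h6, abs_div, abs_of_pos hd, div_lt_one hd] at h5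
      have := hsep u hu u' hu' hne'
      linarith
  rw [Finset.card_range] at hcard
  have h7 : ((⌊L / d⌋₊ : ℕ) : ℝ) ≤ L / d := Nat.floor_le (by positivity)
  have h8 : (U.card : ℝ) ≤ (⌊L / d⌋₊ : ℝ) + 1 := by exact_mod_cast hcard
  linarith

/-- Counting solutions of a quadratic congruence `κ u² ≡ w (mod v)` lying in one residue class
modulo `m` (coprime to `v`) and in an interval of length `L`. -/
theorem card_quad_le (v m κ : ℕ) (hv : 0 < v) (hm : 0 < m) (hκ : 0 < κ)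
    (hmv : Nat.Coprime m v) (w : ℤ) (C : ℕ)
    (hC : ∀ c : ℕ, ((c : ℤ) ^ 2 ∣ 4 * (κ : ℤ) ^ 2 * w) → c ≤ C)
    (L : ℝ) (hL : 0 ≤ L) (U : Finset ℤ)
    (hU1 : ∀ u ∈ U, (v : ℤ) ∣ κ * u ^ 2 - w)
    (hU2 : ∀ u ∈ U, ∀ u' ∈ U, (m : ℤ) ∣ u - u')
    (hU3 : ∀ u ∈ U, ∀ u' ∈ U, |(u : ℝ) - u'| ≤ L) :
    (U.card : ℝ) ≤ v.divisors.card * (1 + κ * C * L / (m * v)) := by
  rcases U.eq_empty_or_nonempty with rfl | ⟨u1, hu1⟩
  · simp; positivity
  have hC0 : 0 < C := hC 1 (by simp)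
  have hmaps : Set.MapsTo (fun u : ℤ => Int.gcd v (κ * (u1 - u))) (↑U : Set ℤ)
      (↑(v.divisors) : Set ℕ) := by
    intro u _
    simp only [Finset.mem_coe, Nat.mem_divisors]
    refine ⟨?_, by omega⟩
    have := Int.gcd_dvd_left (v : ℤ) (κ * (u1 - u))
    exact_mod_cast this
  rw [Finset.card_eq_sum_card_fiberwise hmaps]
  push_cast
  rw [← nsmul_eq_mul, ← Finset.sum_const]
  apply Finset.sum_le_sum
  intro g hg
  set Ug := {a ∈ U | Int.gcd (v : ℤ) (κ * (u1 - a)) = g} with hUg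
  have hgv : g ∣ v := Nat.dvd_of_mem_divisors hg
  have hgpos : 0 < g := Nat.pos_of_dvd_of_pos hgv hv
  -- key divisibility facts
  have key1 : ∀ u ∈ Ug, (g : ℤ) ∣ κ * (u1 - u) := by
    intro u hu
    rw [hUg, Finset.mem_filter] at hu
    have := Int.gcd_dvd_right (v : ℤ) (κ * (u1 - u))
    rw [hu.2] at this
    exact this
  have key2 : ∀ u ∈ Ug, ((v / g : ℕ) : ℤ) ∣ u1 + u := by
    intro u hu
    have hu' := hu
    rw [hUg, Finset.mem_filter] at hu
    obtain ⟨e, he⟩ := key1 u hu'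
    have hvg : ((g : ℤ)) * ((v / g : ℕ) : ℤ) = v := by
      exact_mod_cast Nat.mul_div_cancel' hgv
    have hdvd : (v : ℤ) ∣ κ * (u1 - u) * (u1 + u) := by
      have h1 := hU1 u1 hu1
      have h2 := hU1 u hu.1
      have h3 := dvd_sub h1 h2
      have : κ * (u1 - u) * (u1 + u) = (κ * u1 ^ 2 - w) - (κ * u ^ 2 - w) := by ring
      rw [this]; exact h3
    rw [he, ← hvg, mul_assoc] at hdvd
    have hdvd2 : ((v / g : ℕ) : ℤ) ∣ e * (u1 + u) :=
      Int.dvd_of_mul_dvd_mul_left (by exact_mod_cast hgpos.ne') hdvd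
    have hcop : IsCoprime ((v / g : ℕ) : ℤ) e := by
      rw [Int.isCoprime_iff_gcd_eq_one]
      have h4 : Int.gcd (v : ℤ) (κ * (u1 - u)) = g := hu.2
      rw [he, ← hvg, Int.gcd_mul_left] at h4
      simp only [Int.natAbs_natCast] at h4
      exact Nat.eq_of_mul_eq_mul_left hgpos (by simpa using h4)
    exact hcop.dvd_of_dvd_mul_left hdvd2
  set c := Nat.gcd g (v / g) with hc
  have hcpos : 0 < c := Nat.gcd_pos_of_pos_left _ hgpos
  have hlcm : Nat.lcm g (v / g) * c = v := by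
    rw [mul_comm, hc, Nat.gcd_mul_lcm, Nat.mul_div_cancel' hgv]
  rcases Ug.eq_empty_or_nonempty with hemp | ⟨u2, hu2⟩
  · rw [hemp]; simp; positivity
  have hcC : c ≤ C := by
    apply hC
    have hcg : (c : ℤ) ∣ g := by exact_mod_cast Nat.gcd_dvd_left g (v / g)
    have hcvg : (c : ℤ) ∣ ((v / g : ℕ) : ℤ) := by exact_mod_cast Nat.gcd_dvd_right g (v / g)
    have h1 : (c : ℤ) ∣ 2 * κ * u1 := by
      have e1 : (c : ℤ) ∣ κ * (u1 - u2) := hcg.trans (key1 u2 hu2)
      have e2 : (c : ℤ) ∣ κ * (u1 + u2) := (hcvg.trans (key2 u2 hu2)).mul_left _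
      have := dvd_add e1 e2
      have e3 : 2 * κ * u1 = κ * (u1 - u2) + κ * (u1 + u2) := by ring
      rw [e3]; exact this
    have h2 : (c : ℤ) ^ 2 ∣ κ * (2 * κ * u1) ^ 2 := (pow_dvd_pow_of_dvd h1 2).mul_left _
    have h3 : (c : ℤ) ^ 2 ∣ v := by
      have : (v : ℤ) = g * ((v / g : ℕ) : ℤ) := by
        exact_mod_cast (Nat.mul_div_cancel' hgv).symm
      rw [this, sq]
      exact mul_dvd_mul hcg hcvg
    have h4 : (c : ℤ) ^ 2 ∣ 4 * κ ^ 2 * (κ * u1 ^ 2 - w) := (h3.trans (hU1 u1 hu1)).mul_left _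
    have h5 : 4 * (κ : ℤ) ^ 2 * w = κ * (2 * κ * u1) ^ 2 - 4 * κ ^ 2 * (κ * u1 ^ 2 - w) := by ring
    rw [h5]
    exact dvd_sub h2 h4
  have hsepd : (0 : ℝ) < (m * v : ℝ) / (κ * C) := by positivity
  have hmain := card_separated_le Ug ((m * v : ℝ) / (κ * C)) L hsepd hL ?_ ?_
  · calc (Ug.card : ℝ) ≤ 1 + L / ((m * v : ℝ) / (κ * C)) := hmain
      _ = 1 + κ * C * L / (m * v) := by
        rw [div_div_eq_mul_div]; ring
  · intro u hu u' hu' hne
    have hu0 := hu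
    have hu0' := hu'
    rw [hUg, Finset.mem_filter] at hu hu'
    have d1 : (g : ℤ) ∣ κ * (u - u') := by
      have := dvd_sub (key1 u' hu0') (key1 u hu0)
      have e : κ * (u - u') = κ * (u1 - u') - κ * (u1 - u) := by ring
      rw [e]; exact this
    have d2 : ((v / g : ℕ) : ℤ) ∣ κ * (u - u') := by
      have := dvd_sub (key2 u hu0) (key2 u' hu0')
      have e : κ * (u - u') = κ * ((u1 + u) - (u1 + u')) := by ring
      rw [e]; exact this.mul_left _
    have d3 : ((Nat.lcm g (v / g) : ℕ) : ℤ) ∣ κ * (u - u') := by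
      rw [Int.natCast_dvd] at d1 d2 ⊢
      exact Nat.lcm_dvd d1 d2
    have d4 : (m : ℤ) ∣ κ * (u - u') := (hU2 u hu.1 u' hu'.1).mul_left _
    have hcop : IsCoprime (m : ℤ) ((Nat.lcm g (v / g) : ℕ) : ℤ) := by
      rw [Nat.isCoprime_iff_coprime]
      exact Nat.Coprime.coprime_dvd_right (Dvd.intro _ hlcm) hmv
    have d5 : (m : ℤ) * ((Nat.lcm g (v / g) : ℕ) : ℤ) ∣ κ * (u - u') := hcop.mul_dvd d4 d3
    have d6 : (m : ℤ) * v ∣ c * (κ * (u - u')) := by
      have e : (m : ℤ) * v = c * ((m : ℤ) * ((Nat.lcm g (v / g) : ℕ) : ℤ)) := by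
        have : (v : ℤ) = ((Nat.lcm g (v / g) : ℕ) : ℤ) * c := by exact_mod_cast hlcm.symm
        rw [this]; ring
      rw [e]
      exact mul_dvd_mul_left _ d5
    have hne0 : (c : ℤ) * (κ * (u - u')) ≠ 0 := by
      have : u - u' ≠ 0 := sub_ne_zero.2 hne
      positivity
    have d7 := Int.le_of_dvd (abs_pos.2 hne0) ((dvd_abs _ _).2 d6)
    rw [abs_mul, abs_mul, Nat.abs_cast, Nat.abs_cast] at d7
    have d8 : (m : ℝ) * v ≤ c * (κ * |(u : ℝ) - u'|) := by
      have : (((m : ℤ) * v : ℤ) : ℝ) ≤ ((c * (κ * |u - u'|) : ℤ) : ℝ) := by exact_mod_cast d7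
      push_cast at this
      exact this
    rw [div_le_iff₀ (by positivity)]
    have hcCr : (c : ℝ) ≤ C := by exact_mod_cast hcC
    calc (m : ℝ) * v ≤ c * (κ * |(u : ℝ) - u'|) := d8
      _ ≤ C * (κ * |(u : ℝ) - u'|) := by gcongr
      _ = |(u : ℝ) - u'| * (κ * C) := by ring
  · intro u hu u' hu'
    rw [hUg, Finset.mem_filter] at hu hu'
    exact hU3 u hu.1 u' hu'.1

end Pool.Agent.Work.MP_f2148a_nt
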