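import Mathlib
import Pool.Agent.Work.MP_f2148a_nt.QuadCong

set_option autoImplicit false

namespace Pool.Agent.Work.MP_f2148a_nt

open Finset

/-- Number of square roots of one modulo `m`. -/
theorem card_sq_eq_one_le (m : ℕ) [NeZero m] :
    ((Finset.univ.filter (fun z : ZMod m => z ^ 2 = 1)).card : ℝ) ≤ 3 * m.divisors.card := by
  have hm : 0 < m := Nat.pos_of_ne_zero (NeZero.ne m)
  set Z := Finset.univ.filter (fun z : ZMod m => z ^ 2 = 1) with hZ
  set U : Finset ℤ := Z.image (fun z : ZMod m => (z.val : ℤ)) with hU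
  have hcard : U.card = Z.card := by
    apply Finset.card_image_of_injective
    intro a b hab
    simp only [Nat.cast_inj] at hab
    exact ZMod.val_injective m hab
  have := card_quad_le m 1 1 hm one_pos one_pos (Nat.coprime_one_left m) 1 2 ?_ m
    (by positivity) U ?_ ?_ ?_
  · rw [hcard] at this
    have h2 : (1 : ℝ) + (1 : ℕ) * (2 : ℕ) * m / ((1 : ℕ) * m) = 3 := by
      have : (m : ℝ) ≠ 0 := by exact_mod_cast hm.ne'
      push_cast
      field_simp
      norm_num
    rw [h2] at this
    linarith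
  · intro c hc
    have h4 : (c : ℤ) ^ 2 ∣ 4 := by simpa using hc
    have h5 : (c : ℤ) ^ 2 ≤ 4 := Int.le_of_dvd (by norm_num) h4
    have h6 : c ^ 2 ≤ 4 := by exact_mod_cast h5
    nlinarith
  · intro u hu
    rw [hU, Finset.mem_image] at hu
    obtain ⟨z, hz, rfl⟩ := hu
    rw [hZ, Finset.mem_filter] at hz
    rw [← ZMod.intCast_zmod_eq_zero_iff_dvd]
    push_cast
    rw [ZMod.natCast_val, ZMod.cast_id, hz.2]
    ring
  · intro u _ u' _
    simp
  · intro u hu u' hu'
    rw [hU, Finset.mem_image] at hu hu'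
    obtain ⟨z, hz, rfl⟩ := hu
    obtain ⟨z', hz', rfl⟩ := hu'
    have h1 : (z.val : ℝ) < m := by exact_mod_cast ZMod.val_lt z
    have h2 : (z'.val : ℝ) < m := by exact_mod_cast ZMod.val_lt z'
    have h3 : (0 : ℝ) ≤ z.val := Nat.cast_nonneg _
    have h4 : (0 : ℝ) ≤ z'.val := Nat.cast_nonneg _
    push_cast
    rw [abs_le]
    constructor <;> linarith

/-- Number of square roots of a given class among units. -/
theorem card_sq_eq_le (m : ℕ) [NeZero m] (β : ZMod m) :
    ((Finset.univ.filter (fun z : ZMod m => IsUnit z ∧ z ^ 2 = β)).card : ℝ) ≤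
      3 * m.divisors.card := by
  refine le_trans ?_ (card_sq_eq_one_le m)
  set Z := Finset.univ.filter (fun z : ZMod m => IsUnit z ∧ z ^ 2 = β) with hZ
  rcases Z.eq_empty_or_nonempty with hemp | ⟨z1, hz1⟩
  · rw [hemp]; simp
  rw [hZ, Finset.mem_filter] at hz1
  obtain ⟨_, hu1, hs1⟩ := hz1
  obtain ⟨y, hy⟩ := hu1
  have : Z.card ≤ (Finset.univ.filter (fun z : ZMod m => z ^ 2 = 1)).card := by
    apply Finset.card_le_card_of_injOn (fun z : ZMod m => z * ((y⁻¹ : (ZMod m)ˣ) : ZMod m))
    · intro z hz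
      simp only [Finset.coe_filter, Finset.mem_univ, true_and, Set.mem_setOf_eq]
      have hz2 : z ∈ Z := hz
      rw [hZ, Finset.mem_filter] at hz2
      rw [mul_pow, hz2.2.2, ← hs1, ← hy, ← mul_pow]
      simp
    · intro z _ z' _ h
      simpa using h
  exact_mod_cast this

/-- Number of fourth roots of a given class among units. -/
theorem card_pow_four_le (m : ℕ) [NeZero m] (β : ZMod m) :
    ((Finset.univ.filter (fun z : ZMod m => IsUnit z ∧ z ^ 4 = β)).card : ℝ) ≤
      (3 * m.divisors.card) ^ 2 := by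
  set Z := Finset.univ.filter (fun z : ZMod m => IsUnit z ∧ z ^ 4 = β) with hZ
  set Y := Finset.univ.filter (fun z : ZMod m => IsUnit z ∧ z ^ 2 = β) with hY
  have hmaps : Set.MapsTo (fun z : ZMod m => z ^ 2) (↑Z : Set (ZMod m)) (↑Y : Set (ZMod m)) := by
    intro z hz
    have hz2 : z ∈ Z := hz
    rw [hZ, Finset.mem_filter] at hz2
    simp only [hY, Finset.coe_filter, Finset.mem_univ, true_and, Set.mem_setOf_eq]
    refine ⟨hz2.2.1.pow 2, ?_⟩
    rw [← pow_mul]; exact hz2.2.2
  rw [Finset.card_eq_sum_card_fiberwise hmaps]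
  push_cast
  calc ∑ b ∈ Y, (({a ∈ Z | a ^ 2 = b}).card : ℝ)
      ≤ ∑ b ∈ Y, (3 * (m.divisors.card : ℝ)) := by
        apply Finset.sum_le_sum
        intro b _
        refine le_trans ?_ (card_sq_eq_le m b)
        have : ({a ∈ Z | a ^ 2 = b}).card ≤
            (Finset.univ.filter (fun z : ZMod m => IsUnit z ∧ z ^ 2 = b)).card := by
          apply Finset.card_le_card
          intro a ha
          rw [Finset.mem_filter, hZ, Finset.mem_filter] at ha
          rw [Finset.mem_filter]
          exact ⟨Finset.mem_univ _, ha.1.2.1, ha.2⟩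
        exact_mod_cast this
    _ = Y.card * (3 * (m.divisors.card : ℝ)) := by rw [Finset.sum_const, nsmul_eq_mul]
    _ ≤ (3 * m.divisors.card) * (3 * (m.divisors.card : ℝ)) := by
        apply mul_le_mul_of_nonneg_right (card_sq_eq_le m β) (by positivity)
    _ = (3 * (m.divisors.card : ℝ)) ^ 2 := by ring

end Pool.Agent.Work.MP_f2148a_nt
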