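import Mathlib

set_option autoImplicit false

namespace Pool.Agent.Work.MP_f2148a_nt

open Finset

theorem sum_inv_sqrt_le (J : ℕ) :
    ∑ j ∈ Finset.range J, 1 / Real.sqrt ((j : ℝ) + 1) ≤ 2 * Real.sqrt J := by
  induction J with
  | zero => simp
  | succ J ih =>
    rw [Finset.sum_range_succ]
    have hJ : (0 : ℝ) ≤ J := Nat.cast_nonneg J
    have h1 : 0 < Real.sqrt ((J : ℝ) + 1) := Real.sqrt_pos.2 (by positivity)
    have h2 : 0 ≤ Real.sqrt (J : ℝ) := Real.sqrt_nonneg _
    have h3 : Real.sqrt ((J : ℝ) + 1) ^ 2 = J + 1 := Real.sq_sqrt (by positivity)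
    have h4 : Real.sqrt (J : ℝ) ^ 2 = J := Real.sq_sqrt hJ
    have h5 : 1 / Real.sqrt ((J : ℝ) + 1) ≤
        2 * (Real.sqrt ((J : ℝ) + 1) - Real.sqrt (J : ℝ)) := by
      rw [div_le_iff₀ h1]
      nlinarith [sq_nonneg (Real.sqrt ((J : ℝ) + 1) - Real.sqrt (J : ℝ))]
    push_cast
    linarith

/-- Positive integers in one residue class: number and weighted sum. -/
theorem class_sum_nat (m : ℕ) (hm : 0 < m) (V : ℝ) (hV : 0 ≤ V) (P : Finset ℕ)
    (h1 : ∀ v ∈ P, 1 ≤ v) (h2 : ∀ v ∈ P, (v : ℝ) ≤ V) (h3 : ∀ v ∈ P, ∀ v' ∈ P, v % m = v' % m) :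
    (P.card : ℝ) ≤ V / m + 1 ∧
      ∑ v ∈ P, 1 / Real.sqrt (v : ℝ) ≤ 1 + 2 * Real.sqrt V / m := by
  have hmr : (0 : ℝ) < m := by exact_mod_cast hm
  have hinj : Set.InjOn (fun v : ℕ => v / m) (↑P : Set ℕ) := by
    intro v hv v' hv' h
    simp only at h
    have e := h3 v hv v' hv'
    rw [← Nat.div_add_mod v m, ← Nat.div_add_mod v' m, h, e]
  have hmaps : ∀ v ∈ P, v / m ∈ Finset.range (⌊V / m⌋₊ + 1) := by
    intro v hv
    rw [Finset.mem_range, Nat.lt_succ_iff]
    apply Nat.le_floor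
    calc ((v / m : ℕ) : ℝ) ≤ (v : ℝ) / m := Nat.cast_div_le
      _ ≤ V / m := by gcongr; exact h2 v hv
  have hfl : (⌊V / m⌋₊ : ℝ) ≤ V / m := Nat.floor_le (by positivity)
  constructor
  · have := Finset.card_le_card_of_injOn (fun v : ℕ => v / m) hmaps hinj
    rw [Finset.card_range] at this
    have h : (P.card : ℝ) ≤ (⌊V / m⌋₊ : ℝ) + 1 := by exact_mod_cast this
    linarith
  · set f : ℕ → ℝ := fun j => if j = 0 then 1 else 1 / (Real.sqrt m * Real.sqrt j) with hf
    have hf0 : ∀ j, 0 ≤ f j := by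
      intro j
      rw [hf]; dsimp only
      split_ifs <;> positivity
    have hterm : ∀ v ∈ P, 1 / Real.sqrt (v : ℝ) ≤ f (v / m) := by
      intro v hv
      rw [hf]; dsimp only
      split_ifs with h0
      · have : (1 : ℝ) ≤ Real.sqrt v := by
          rw [Real.one_le_sqrt]; exact_mod_cast h1 v hv
        rw [div_le_one (by linarith)]
        exact this
      · have hj : 0 < v / m := Nat.pos_of_ne_zero h0
        rw [← Real.sqrt_mul (by positivity)]
        apply one_div_le_one_div_of_le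
        · apply Real.sqrt_pos.2; positivity
        · apply Real.sqrt_le_sqrt
          have := Nat.div_mul_le_self v m
          have h' : ((v / m : ℕ) : ℝ) * m ≤ v := by exact_mod_cast this
          linarith
    calc ∑ v ∈ P, 1 / Real.sqrt (v : ℝ) ≤ ∑ v ∈ P, f (v / m) := Finset.sum_le_sum hterm
      _ = ∑ j ∈ P.image (fun v => v / m), f j := by
          rw [Finset.sum_image]
          intro a ha b hb h
          exact hinj ha hb h
      _ ≤ ∑ j ∈ Finset.range (⌊V / m⌋₊ + 1), f j := by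
          apply Finset.sum_le_sum_of_subset_of_nonneg
          · intro j hj
            rw [Finset.mem_image] at hj
            obtain ⟨v, hv, rfl⟩ := hj
            exact hmaps v hv
          · intro j _ _; exact hf0 j
      _ = f 0 + ∑ j ∈ Finset.range ⌊V / m⌋₊, f (j + 1) := by
          rw [Finset.sum_range_succ']; ring
      _ = 1 + (1 / Real.sqrt m) * ∑ j ∈ Finset.range ⌊V / m⌋₊, 1 / Real.sqrt ((j : ℝ) + 1) := by
          rw [hf]
          simp only [if_true, Finset.mul_sum]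
          congr 1
          apply Finset.sum_congr rfl
          intro j _
          rw [if_neg (by omega)]
          push_cast
          rw [one_div_mul_one_div]
      _ ≤ 1 + (1 / Real.sqrt m) * (2 * Real.sqrt (⌊V / m⌋₊ : ℝ)) := by
          have := sum_inv_sqrt_le ⌊V / m⌋₊
          gcongr
      _ ≤ 1 + (1 / Real.sqrt m) * (2 * Real.sqrt (V / m)) := by
          gcongr
      _ = 1 + 2 * Real.sqrt V / m := by
          rw [Real.sqrt_div hV]
          have hs : Real.sqrt (m : ℝ) * Real.sqrt m = m := Real.mul_self_sqrt hmr.le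
          have hs0 : Real.sqrt (m : ℝ) ≠ 0 := (Real.sqrt_pos.2 hmr).ne'
          have : 1 / Real.sqrt (m : ℝ) * (2 * (Real.sqrt V / Real.sqrt m)) =
              2 * Real.sqrt V / (Real.sqrt (m : ℝ) * Real.sqrt m) := by
            field_simp
          rw [this, hs]

/-- Nonzero integers in one residue class: number and weighted sum. -/
theorem class_sum_int (m : ℕ) (hm : 0 < m) (V : ℝ) (hV : 0 ≤ V) (P : Finset ℤ)
    (h1 : ∀ v ∈ P, v ≠ 0) (h2 : ∀ v ∈ P, |(v : ℝ)| ≤ V)
    (h3 : ∀ v ∈ P, ∀ v' ∈ P, (m : ℤ) ∣ v - v') :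
    (P.card : ℝ) ≤ 2 * V / m + 2 ∧
      ∑ v ∈ P, 1 / Real.sqrt |(v : ℝ)| ≤ 2 + 4 * Real.sqrt V / m := by
  set P1 := P.filter (fun v => 0 < v) with hP1
  set P2 := P.filter (fun v => ¬ 0 < v) with hP2
  have key : ∀ Q : Finset ℤ, Q ⊆ P → (∀ v ∈ Q, ∀ v' ∈ Q, 0 < v * v') →
      (Q.card : ℝ) ≤ V / m + 1 ∧
      ∑ v ∈ Q, 1 / Real.sqrt |(v : ℝ)| ≤ 1 + 2 * Real.sqrt V / m := by
    intro Q hQ hsign
    have hinj : Set.InjOn Int.natAbs (↑Q : Set ℤ) := by
      intro v hv v' hv' h
      have hs := hsign v hv v' hv'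
      rcases Int.natAbs_eq_natAbs_iff.1 h with h | h
      · exact h
      · exfalso
        subst h
        nlinarith [sq_nonneg v']
    have := class_sum_nat m hm V hV (Q.image Int.natAbs) ?_ ?_ ?_
    · rw [Finset.card_image_of_injOn hinj, Finset.sum_image hinj] at this
      refine ⟨this.1, ?_⟩
      refine le_trans (le_of_eq ?_) this.2
      apply Finset.sum_congr rfl
      intro v _
      rw [Nat.cast_natAbs]
      push_cast
      rfl
    · intro v hv
      rw [Finset.mem_image] at hv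
      obtain ⟨z, hz, rfl⟩ := hv
      have := h1 z (hQ hz)
      omega
    · intro v hv
      rw [Finset.mem_image] at hv
      obtain ⟨z, hz, rfl⟩ := hv
      have := h2 z (hQ hz)
      rw [Nat.cast_natAbs]
      push_cast
      exact this
    · intro v hv v' hv'
      rw [Finset.mem_image] at hv hv'
      obtain ⟨z, hz, rfl⟩ := hv
      obtain ⟨z', hz', rfl⟩ := hv'
      have hd := h3 z (hQ hz) z' (hQ hz')
      have hs := hsign z hz z' hz'
      change z.natAbs ≡ z'.natAbs [MOD m]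
      rw [← Int.natCast_modEq_iff]
      rcases lt_or_ge 0 z with hzp | hzn
      · have hz'p : 0 < z' := by
          by_contra hcon
          push Not at hcon
          nlinarith
        rw [Int.natAbs_of_nonneg hzp.le, Int.natAbs_of_nonneg hz'p.le]
        exact (Int.modEq_iff_dvd.2 hd).symm
      · have hz'n : z' ≤ 0 := by
          by_contra hcon
          push Not at hcon
          nlinarith
        have e1 : ((z.natAbs : ℕ) : ℤ) = -z := by omega
        have e2 : ((z'.natAbs : ℕ) : ℤ) = -z' := by omega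
        rw [e1, e2]
        apply Int.modEq_iff_dvd.2
        have : -z' - -z = z - z' := by ring
        rw [this]; exact hd
  have k1 := key P1 (Finset.filter_subset _ _) (by
    intro v hv v' hv'
    rw [hP1, Finset.mem_filter] at hv hv'
    exact mul_pos hv.2 hv'.2)
  have k2 := key P2 (Finset.filter_subset _ _) (by
    intro v hv v' hv'
    rw [hP2, Finset.mem_filter] at hv hv'
    have e1 : v < 0 := lt_of_le_of_ne (not_lt.1 hv.2) (h1 v hv.1)
    have e2 : v' < 0 := lt_of_le_of_ne (not_lt.1 hv'.2) (h1 v' hv'.1)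
    exact mul_pos_of_neg_of_neg e1 e2)
  constructor
  · have : P.card = P1.card + P2.card := (Finset.card_filter_add_card_filter_not _).symm
    rw [this]
    push_cast
    have e : 2 * V / m = V / m + V / m := by ring
    rw [e]
    linarith [k1.1, k2.1]
  · rw [← Finset.sum_filter_add_sum_filter_not P (fun v => 0 < v)]
    have e : 4 * Real.sqrt V / m = 2 * Real.sqrt V / m + 2 * Real.sqrt V / m := by ring
    rw [e]
    linarith [k1.2, k2.2]

/-- The weight attached to `w`: sum of all `c ≤ M` with `c ^ 2 ∣ 36 w`. -/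
def wt (M : ℕ) (w : ℤ) : ℕ := ∑ c ∈ (Finset.Icc 1 M).filter (fun c : ℕ => (c : ℤ) ^ 2 ∣ 36 * w), c

theorem le_wt (M : ℕ) (w : ℤ) (hw : w ≠ 0) (hM : 36 * |w| ≤ (M : ℤ) ^ 2) (c : ℕ)
    (hc : (c : ℤ) ^ 2 ∣ 36 * w) : c ≤ wt M w := by
  have hc0 : 0 < c := by
    rcases Nat.eq_zero_or_pos c with rfl | h
    · exfalso
      simp at hc
      exact hw hc
    · exact h
  have h1 : (c : ℤ) ^ 2 ≤ (M : ℤ) ^ 2 := by
    have : (c : ℤ) ^ 2 ≤ |36 * w| :=
      Int.le_of_dvd (abs_pos.2 (by positivity)) ((dvd_abs _ _).2 hc)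
    rw [abs_mul] at this
    have e : |(36 : ℤ)| = 36 := rfl
    rw [e] at this
    linarith
  have h2 : c ≤ M := by
    have h3 : c ^ 2 ≤ M ^ 2 := by exact_mod_cast h1
    exact (Nat.pow_le_pow_iff_left (by norm_num)).1 h3
  exact Finset.single_le_sum (f := fun c : ℕ => c) (fun _ _ => Nat.zero_le _)
    (Finset.mem_filter.2 ⟨Finset.mem_Icc.2 ⟨hc0, h2⟩, hc⟩)

theorem card_dvd_le (N c : ℕ) (hc : 0 < c) :
    ((((Finset.Icc (-(N : ℤ)) N).erase 0).filter (fun w : ℤ => (c : ℤ) ^ 2 ∣ 36 * w)).card : ℝ) ≤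
      72 * N / (c : ℝ) ^ 2 := by
  set S := ((Finset.Icc (-(N : ℤ)) N).erase 0).filter (fun w : ℤ => (c : ℤ) ^ 2 ∣ 36 * w) with hS
  set J := 36 * N / c ^ 2 with hJ
  have hcz : (0 : ℤ) < (c : ℤ) ^ 2 := by positivity
  have : S.card ≤ ((Finset.Icc (-(J : ℤ)) J).erase 0).card := by
    apply Finset.card_le_card_of_injOn (fun w : ℤ => 36 * w / (c : ℤ) ^ 2)
    · intro w hw
      have hw' : w ∈ S := hw
      rw [hS, Finset.mem_filter, Finset.mem_erase, Finset.mem_Icc] at hw'
      obtain ⟨⟨hw0, hw1, hw2⟩, e, he⟩ := hw'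
      have hediv : 36 * w / (c : ℤ) ^ 2 = e := by
        rw [he]; exact Int.mul_ediv_cancel_left _ hcz.ne'
      have he0 : e ≠ 0 := by
        rintro rfl
        apply hw0
        linarith
      simp only [Finset.coe_erase, Finset.coe_Icc, Set.mem_sdiff, Set.mem_Icc,
        Set.mem_singleton_iff]
      rw [hediv]
      have hJ' : (J : ℤ) = 36 * N / (c : ℤ) ^ 2 := by
        rw [hJ]; push_cast; rfl
      refine ⟨⟨?_, ?_⟩, he0⟩
      · rw [hJ', neg_le]
        apply Int.le_ediv_of_mul_le hcz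
        nlinarith
      · rw [hJ']
        apply Int.le_ediv_of_mul_le hcz
        nlinarith
    · intro w hw w' hw' h
      have hw1 : w ∈ S := hw
      have hw2 : w' ∈ S := hw'
      rw [hS, Finset.mem_filter] at hw1 hw2
      simp only at h
      have e1 := Int.ediv_mul_cancel hw1.2
      have e2 := Int.ediv_mul_cancel hw2.2
      rw [h] at e1
      linarith
  have hcard : ((Finset.Icc (-(J : ℤ)) J).erase 0).card = 2 * J := by
    rw [Finset.card_erase_of_mem (by simp), Int.card_Icc]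
    omega
  rw [hcard] at this
  have h2 : (S.card : ℝ) ≤ 2 * (J : ℝ) := by exact_mod_cast this
  have h3 : (J : ℝ) ≤ (36 * N : ℝ) / (c : ℝ) ^ 2 := by
    rw [hJ]
    have := @Nat.cast_div_le ℝ _ _ _ (36 * N) (c ^ 2)
    push_cast at this
    exact this
  calc (S.card : ℝ) ≤ 2 * (J : ℝ) := h2
    _ ≤ 2 * ((36 * N : ℝ) / (c : ℝ) ^ 2) := by gcongr
    _ = 72 * N / (c : ℝ) ^ 2 := by ring

theorem sum_wt_le (N M : ℕ) :
    ∑ w ∈ (Finset.Icc (-(N : ℤ)) N).erase 0, (wt M w : ℝ) ≤ 72 * N * (1 + Real.log M) := by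
  unfold wt
  push_cast
  simp_rw [Finset.sum_filter]
  rw [Finset.sum_comm]
  have : ∀ c ∈ Finset.Icc 1 M, (∑ w ∈ (Finset.Icc (-(N : ℤ)) N).erase 0,
      (if (c : ℤ) ^ 2 ∣ 36 * w then (c : ℝ) else 0)) ≤ 72 * N * (1 / (c : ℝ)) := by
    intro c hc
    rw [Finset.mem_Icc] at hc
    have hc0 : 0 < c := by omega
    rw [← Finset.sum_filter, Finset.sum_const, nsmul_eq_mul]
    have h := card_dvd_le N c hc0
    have hcr : (0 : ℝ) < c := by exact_mod_cast hc0
    calc _ ≤ (72 * N / (c : ℝ) ^ 2) * c := by gcongr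
      _ = 72 * N * (1 / (c : ℝ)) := by field_simp
  refine (Finset.sum_le_sum this).trans ?_
  rw [← Finset.mul_sum]
  have hharm : ∑ c ∈ Finset.Icc 1 M, 1 / (c : ℝ) ≤ 1 + Real.log M := by
    have := harmonic_le_one_add_log M
    rw [harmonic_eq_sum_Icc] at this
    push_cast at this
    simpa [one_div] using this
  gcongr

end Pool.Agent.Work.MP_f2148a_nt
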