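import Mathlib
import Pool.Agent.Work.MP_f2148a_nt.QuadCong
import Pool.Agent.Work.MP_f2148a_nt.FourthPow
import Pool.Agent.Work.MP_f2148a_nt.Sums

set_option autoImplicit false

namespace Pool.Agent.Work.MP_f2148a_nt

open Finset

/-- The third coordinate attached to `(a, u, v)`. -/
def ww (p : ℤ × ℤ × ℤ) : ℤ := 3 * p.2.1 ^ 2 - 4 * p.1 * p.2.2

/-- Local conditions at denominator `q`. -/
structure Good (q : ℕ) (V B : ℝ) (p : ℤ × ℤ × ℤ) : Prop where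
  cop : IsCoprime p.1 (q : ℤ)
  hu : ((q : ℤ) ^ 2) ∣ p.2.1 + p.1 ^ 2
  hv : ((q : ℤ) ^ 2) ∣ p.2.2 - p.1 ^ 3
  hv0 : p.2.2 ≠ 0
  hV : |(p.2.2 : ℝ)| ≤ V
  hB : (p.2.1 : ℝ) ^ 2 ≤ B * |(p.2.2 : ℝ)|

theorem count_u (q : ℕ) (hq : 1 ≤ q) (V B : ℝ) (hB0 : 0 ≤ B) (D : ℝ) (hD0 : 0 ≤ D)
    (hD : ∀ j : ℕ, 1 ≤ j → (j : ℝ) ≤ V → (j.divisors.card : ℝ) ≤ D)
    (w : ℤ) (C : ℕ) (hC : ∀ c : ℕ, (c : ℤ) ^ 2 ∣ 36 * w → c ≤ C)
    (α : ZMod (q ^ 2)) (v : ℤ) (R : Finset (ℤ × ℤ × ℤ))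
    (hR : ∀ p ∈ R, Good q V B p ∧ ww p = w ∧ (p.1 : ZMod (q ^ 2)) = α ∧ p.2.2 = v) :
    (R.card : ℝ) ≤ D * (1 + 6 * C * Real.sqrt B / (q : ℝ) ^ 2 * (1 / Real.sqrt |(v : ℝ)|)) := by
  rcases R.eq_empty_or_nonempty with rfl | ⟨p0, hp0⟩
  · simp only [card_empty, CharP.cast_eq_zero]; positivity
  obtain ⟨hg0, hw0, hα0, hv0⟩ := hR p0 hp0
  have hvne : v ≠ 0 := hv0 ▸ hg0.hv0
  have hvr : (0 : ℝ) < |(v : ℝ)| := abs_pos.2 (by exact_mod_cast hvne)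
  have hqr : (0 : ℝ) < q := by exact_mod_cast hq
  -- injectivity of the `u`-coordinate
  have hinj : Set.InjOn (fun p : ℤ × ℤ × ℤ => p.2.1) (↑R : Set (ℤ × ℤ × ℤ)) := by
    intro p hp p' hp' h
    obtain ⟨_, hw, _, hv⟩ := hR p hp
    obtain ⟨_, hw', _, hv'⟩ := hR p' hp'
    simp only at h
    unfold ww at hw hw'
    rw [hv] at hw
    rw [hv', ← h] at hw'
    have e : 4 * v * (p.1 - p'.1) = 0 := by linarith
    have e2 : p.1 - p'.1 = 0 := by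
      rcases mul_eq_zero.1 e with h | h
      · exfalso; omega
      · exact h
    ext
    · linarith
    · exact h
    · rw [hv, hv']
  rw [← Finset.card_image_of_injOn hinj]
  set U := R.image (fun p : ℤ × ℤ × ℤ => p.2.1) with hU
  have hcop : Nat.Coprime (q ^ 2) v.natAbs := by
    have h1 : IsCoprime ((q : ℤ) ^ 2) (p0.1 ^ 3) := (hg0.cop.symm).pow
    have h2 : IsCoprime ((q : ℤ) ^ 2) v := by
      obtain ⟨e, he⟩ := hg0.hv
      rw [hv0] at he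
      have : v = p0.1 ^ 3 + (q : ℤ) ^ 2 * e := by linarith
      rw [this]
      exact IsCoprime.add_mul_left_right h1 e
    have h3 : IsCoprime (((q ^ 2 : ℕ)) : ℤ) v := by push_cast; exact h2
    rw [Int.isCoprime_iff_gcd_eq_one] at h3
    simpa [Int.gcd, Nat.Coprime] using h3
  have hmain := card_quad_le v.natAbs (q ^ 2) 3 (Int.natAbs_pos.2 hvne) (by positivity)
    (by norm_num) hcop w C ?_ (2 * Real.sqrt (B * |(v : ℝ)|)) (by positivity) U ?_ ?_ ?_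
  · have hnat : ((v.natAbs : ℕ) : ℝ) = |(v : ℝ)| := by
      rw [Nat.cast_natAbs]; push_cast; rfl
    have hdiv : (v.natAbs.divisors.card : ℝ) ≤ D := by
      apply hD _ (Int.natAbs_pos.2 hvne)
      rw [hnat, ← hv0]
      exact hg0.hV
    refine hmain.trans ?_
    have heq : (1 : ℝ) + (3 : ℕ) * C * (2 * Real.sqrt (B * |(v : ℝ)|)) /
        (((q ^ 2 : ℕ) : ℝ) * (v.natAbs : ℕ)) =
        1 + 6 * C * Real.sqrt B / (q : ℝ) ^ 2 * (1 / Real.sqrt |(v : ℝ)|) := by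
      rw [hnat, Real.sqrt_mul hB0]
      push_cast
      have hs : Real.sqrt |(v : ℝ)| ≠ 0 := (Real.sqrt_pos.2 hvr).ne'
      have hs2 : Real.sqrt |(v : ℝ)| * Real.sqrt |(v : ℝ)| = |(v : ℝ)| :=
        Real.mul_self_sqrt hvr.le
      congr 1
      rw [div_mul_div_comm, mul_one, div_eq_div_iff (by positivity) (by positivity)]
      nth_rewrite 3 [← hs2]
      ring
    rw [heq]
    gcongr
  · intro c hc
    apply hC
    have : 4 * ((3 : ℕ) : ℤ) ^ 2 * w = 36 * w := by push_cast; ring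
    rwa [this] at hc
  · intro u hu
    rw [hU, Finset.mem_image] at hu
    obtain ⟨p, hp, rfl⟩ := hu
    obtain ⟨_, hw, _, hv⟩ := hR p hp
    rw [Int.natAbs_dvd]
    refine ⟨4 * p.1, ?_⟩
    rw [← hw, ← hv]
    unfold ww
    push_cast
    ring
  · intro u hu u' hu'
    rw [hU, Finset.mem_image] at hu hu'
    obtain ⟨p, hp, rfl⟩ := hu
    obtain ⟨p', hp', rfl⟩ := hu'
    obtain ⟨hg, _, hα, _⟩ := hR p hp
    obtain ⟨hg', _, hα', _⟩ := hR p' hp'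
    have e1 : (((q ^ 2 : ℕ)) : ℤ) ∣ p.1 - p'.1 := by
      rw [← ZMod.intCast_eq_intCast_iff_dvd_sub, hα, hα']
    have e2 : (((q ^ 2 : ℕ)) : ℤ) ∣ p.1 ^ 2 - p'.1 ^ 2 := by
      have : p.1 ^ 2 - p'.1 ^ 2 = (p.1 - p'.1) * (p.1 + p'.1) := by ring
      rw [this]; exact e1.mul_right _
    have e3 : (((q ^ 2 : ℕ)) : ℤ) ∣ p.2.1 + p.1 ^ 2 := by push_cast; exact hg.hu
    have e4 : (((q ^ 2 : ℕ)) : ℤ) ∣ p'.2.1 + p'.1 ^ 2 := by push_cast; exact hg'.hu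
    have : p.2.1 - p'.2.1 = (p.2.1 + p.1 ^ 2) - (p'.2.1 + p'.1 ^ 2) - (p.1 ^ 2 - p'.1 ^ 2) := by
      ring
    rw [this]
    exact dvd_sub (dvd_sub e3 e4) e2
  · intro u hu u' hu'
    rw [hU, Finset.mem_image] at hu hu'
    obtain ⟨p, hp, rfl⟩ := hu
    obtain ⟨p', hp', rfl⟩ := hu'
    obtain ⟨hg, _, _, hv⟩ := hR p hp
    obtain ⟨hg', _, _, hv'⟩ := hR p' hp'
    have b1 : |(p.2.1 : ℝ)| ≤ Real.sqrt (B * |(v : ℝ)|) := by
      apply Real.abs_le_sqrt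
      rw [← hv]; exact hg.hB
    have b2 : |(p'.2.1 : ℝ)| ≤ Real.sqrt (B * |(v : ℝ)|) := by
      apply Real.abs_le_sqrt
      rw [← hv']; exact hg'.hB
    calc |(p.2.1 : ℝ) - p'.2.1| ≤ |(p.2.1 : ℝ)| + |(p'.2.1 : ℝ)| := abs_sub _ _
      _ ≤ _ := by linarith

theorem count_v (q : ℕ) (hq : 1 ≤ q) (V B : ℝ) (hV0 : 0 ≤ V) (hB0 : 0 ≤ B) (D : ℝ) (hD0 : 0 ≤ D)
    (hD : ∀ j : ℕ, 1 ≤ j → (j : ℝ) ≤ V → (j.divisors.card : ℝ) ≤ D)
    (w : ℤ) (C : ℕ) (hC : ∀ c : ℕ, (c : ℤ) ^ 2 ∣ 36 * w → c ≤ C)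
    (α : ZMod (q ^ 2)) (R : Finset (ℤ × ℤ × ℤ))
    (hR : ∀ p ∈ R, Good q V B p ∧ ww p = w ∧ (p.1 : ZMod (q ^ 2)) = α) :
    (R.card : ℝ) ≤ D * ((2 * V / (q : ℝ) ^ 2 + 2) +
      6 * C * Real.sqrt B / (q : ℝ) ^ 2 * (2 + 4 * Real.sqrt V / (q : ℝ) ^ 2)) := by
  set P := R.image (fun p : ℤ × ℤ × ℤ => p.2.2) with hP
  have hclass := class_sum_int (q ^ 2) (by positivity) V hV0 P ?_ ?_ ?_
  · rw [Finset.card_eq_sum_card_image (fun p : ℤ × ℤ × ℤ => p.2.2) R]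
    push_cast
    calc ∑ v ∈ P, (({a ∈ R | a.2.2 = v}).card : ℝ)
        ≤ ∑ v ∈ P, D * (1 + 6 * C * Real.sqrt B / (q : ℝ) ^ 2 * (1 / Real.sqrt |(v : ℝ)|)) := by
          apply Finset.sum_le_sum
          intro v _
          apply count_u q hq V B hB0 D hD0 hD w C hC α v
          intro p hp
          rw [Finset.mem_filter] at hp
          obtain ⟨h1, h2, h3⟩ := hR p hp.1
          exact ⟨h1, h2, h3, hp.2⟩
      _ = D * ((P.card : ℝ) + 6 * C * Real.sqrt B / (q : ℝ) ^ 2 *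
            ∑ v ∈ P, 1 / Real.sqrt |(v : ℝ)|) := by
          rw [← Finset.mul_sum, Finset.sum_add_distrib, Finset.mul_sum]
          simp
      _ ≤ _ := by
          have h1 := hclass.1
          have h2 := hclass.2
          push_cast at h1 h2
          gcongr
  · intro v hv
    rw [hP, Finset.mem_image] at hv
    obtain ⟨p, hp, rfl⟩ := hv
    exact (hR p hp).1.hv0
  · intro v hv
    rw [hP, Finset.mem_image] at hv
    obtain ⟨p, hp, rfl⟩ := hv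
    exact (hR p hp).1.hV
  · intro v hv v' hv'
    rw [hP, Finset.mem_image] at hv hv'
    obtain ⟨p, hp, rfl⟩ := hv
    obtain ⟨p', hp', rfl⟩ := hv'
    obtain ⟨hg, _, hα⟩ := hR p hp
    obtain ⟨hg', _, hα'⟩ := hR p' hp'
    have e1 : (((q ^ 2 : ℕ)) : ℤ) ∣ p.1 - p'.1 := by
      rw [← ZMod.intCast_eq_intCast_iff_dvd_sub, hα, hα']
    have e2 : (((q ^ 2 : ℕ)) : ℤ) ∣ p.1 ^ 3 - p'.1 ^ 3 := by
      have : p.1 ^ 3 - p'.1 ^ 3 = (p.1 - p'.1) * (p.1 ^ 2 + p.1 * p'.1 + p'.1 ^ 2) := by ring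
      rw [this]; exact e1.mul_right _
    have e3 : (((q ^ 2 : ℕ)) : ℤ) ∣ p.2.2 - p.1 ^ 3 := by push_cast; exact hg.hv
    have e4 : (((q ^ 2 : ℕ)) : ℤ) ∣ p'.2.2 - p'.1 ^ 3 := by push_cast; exact hg'.hv
    have : p.2.2 - p'.2.2 = (p.2.2 - p.1 ^ 3) - (p'.2.2 - p'.1 ^ 3) + (p.1 ^ 3 - p'.1 ^ 3) := by
      ring
    rw [this]
    exact dvd_add (dvd_sub e3 e4) e2

theorem count_w (q : ℕ) (hq : 1 ≤ q) (V B : ℝ) (hV0 : 0 ≤ V) (hB0 : 0 ≤ B) (D : ℝ) (hD0 : 0 ≤ D)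
    (hD : ∀ j : ℕ, 1 ≤ j → (j : ℝ) ≤ V → (j.divisors.card : ℝ) ≤ D)
    (hDq : ((q ^ 2).divisors.card : ℝ) ≤ D)
    (w : ℤ) (C : ℕ) (hC : ∀ c : ℕ, (c : ℤ) ^ 2 ∣ 36 * w → c ≤ C)
    (R : Finset (ℤ × ℤ × ℤ))
    (hR : ∀ p ∈ R, Good q V B p ∧ ww p = w) :
    (R.card : ℝ) ≤ 9 * D ^ 3 * ((2 * V / (q : ℝ) ^ 2 + 2) +
      6 * C * Real.sqrt B / (q : ℝ) ^ 2 * (2 + 4 * Real.sqrt V / (q : ℝ) ^ 2)) := by
  have hq2 : q ^ 2 ≠ 0 := by positivity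
  have : NeZero (q ^ 2) := ⟨hq2⟩
  set E := (2 * V / (q : ℝ) ^ 2 + 2) +
      6 * C * Real.sqrt B / (q : ℝ) ^ 2 * (2 + 4 * Real.sqrt V / (q : ℝ) ^ 2) with hE
  have hE0 : 0 ≤ E := by positivity
  set A := Finset.univ.filter (fun z : ZMod (q ^ 2) => IsUnit z ∧ z ^ 4 = -(w : ZMod (q ^ 2)))
    with hA
  have hmaps : Set.MapsTo (fun p : ℤ × ℤ × ℤ => (p.1 : ZMod (q ^ 2))) (↑R : Set (ℤ × ℤ × ℤ))
      (↑A : Set (ZMod (q ^ 2))) := by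
    intro p hp
    obtain ⟨hg, hw⟩ := hR p hp
    simp only [hA, Finset.coe_filter, Finset.mem_univ, true_and, Set.mem_ofPred_eq]
    constructor
    · rw [ZMod.coe_int_isUnit_iff_isCoprime]
      push_cast
      exact hg.cop.symm.pow_left
    · have e1 : (((p.2.1 + p.1 ^ 2 : ℤ)) : ZMod (q ^ 2)) = 0 := by
        rw [ZMod.intCast_zmod_eq_zero_iff_dvd]; push_cast; exact hg.hu
      have e2 : (((p.2.2 - p.1 ^ 3 : ℤ)) : ZMod (q ^ 2)) = 0 := by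
        rw [ZMod.intCast_zmod_eq_zero_iff_dvd]; push_cast; exact hg.hv
      push_cast at e1 e2
      have e1' : (p.2.1 : ZMod (q ^ 2)) = -(p.1 : ZMod (q ^ 2)) ^ 2 := by linear_combination e1
      have e2' : (p.2.2 : ZMod (q ^ 2)) = (p.1 : ZMod (q ^ 2)) ^ 3 := by linear_combination e2
      rw [← hw]
      unfold ww
      push_cast
      rw [e1', e2']
      ring
  rw [Finset.card_eq_sum_card_fiberwise hmaps]
  push_cast
  calc ∑ b ∈ A, (({a ∈ R | (a.1 : ZMod (q ^ 2)) = b}).card : ℝ)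
      ≤ ∑ b ∈ A, D * E := by
        apply Finset.sum_le_sum
        intro b _
        apply count_v q hq V B hV0 hB0 D hD0 hD w C hC b
        intro p hp
        rw [Finset.mem_filter] at hp
        obtain ⟨h1, h2⟩ := hR p hp.1
        exact ⟨h1, h2, hp.2⟩
    _ = A.card * (D * E) := by rw [Finset.sum_const, nsmul_eq_mul]
    _ ≤ (3 * D) ^ 2 * (D * E) := by
        have h1 := card_pow_four_le (q ^ 2) (-(w : ZMod (q ^ 2)))
        rw [← hA] at h1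
        have h2 : (3 * ((q ^ 2).divisors.card : ℝ)) ^ 2 ≤ (3 * D) ^ 2 := by gcongr
        gcongr
        exact h1.trans h2
    _ = 9 * D ^ 3 * E := by ring

/-- Count of all triples attached to one denominator `q`. -/
theorem count_q (q : ℕ) (hq : 1 ≤ q) (N : ℕ) (V B : ℝ) (hV0 : 0 ≤ V) (hB0 : 0 ≤ B)
    (D : ℝ) (hD0 : 0 ≤ D)
    (hD : ∀ j : ℕ, 1 ≤ j → (j : ℝ) ≤ V → (j.divisors.card : ℝ) ≤ D)
    (hDq : ((q ^ 2).divisors.card : ℝ) ≤ D)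
    (R : Finset (ℤ × ℤ × ℤ))
    (hR : ∀ p ∈ R, Good q V B p ∧ ww p ≠ 0 ∧ |ww p| ≤ N) :
    (R.card : ℝ) ≤ 9 * D ^ 3 * (2 * N * (2 * V / (q : ℝ) ^ 2 + 2) +
      432 * N * (1 + Real.log (6 * N)) * Real.sqrt B / (q : ℝ) ^ 2 *
        (2 + 4 * Real.sqrt V / (q : ℝ) ^ 2)) := by
  set A := (Finset.Icc (-(N : ℤ)) N).erase 0 with hA
  have hmaps : Set.MapsTo ww (↑R : Set (ℤ × ℤ × ℤ)) (↑A : Set ℤ) := by
    intro p hp
    obtain ⟨_, h0, h1⟩ := hR p hp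
    simp only [hA, Finset.coe_erase, Finset.coe_Icc, Set.mem_sdiff, Set.mem_Icc,
      Set.mem_singleton_iff]
    exact ⟨abs_le.1 h1, h0⟩
  have hcardA : (A.card : ℝ) = 2 * N := by
    have : A.card = 2 * N := by
      rw [hA, Finset.card_erase_of_mem (by simp), Int.card_Icc]
      omega
    rw [this]; push_cast; ring
  rw [Finset.card_eq_sum_card_fiberwise hmaps]
  push_cast
  have hstep : ∀ w ∈ A, (({a ∈ R | ww a = w}).card : ℝ) ≤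
      9 * D ^ 3 * ((2 * V / (q : ℝ) ^ 2 + 2) +
      6 * (wt (6 * N) w : ℝ) * Real.sqrt B / (q : ℝ) ^ 2 *
        (2 + 4 * Real.sqrt V / (q : ℝ) ^ 2)) := by
    intro w hw
    rw [hA, Finset.mem_erase, Finset.mem_Icc] at hw
    have hwabs : |w| ≤ N := abs_le.2 hw.2
    apply count_w q hq V B hV0 hB0 D hD0 hD hDq w (wt (6 * N) w)
    · intro c hc
      apply le_wt _ _ hw.1 _ c hc
      push_cast
      have h1 : 1 ≤ |w| := Int.one_le_abs hw.1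
      nlinarith
    · intro p hp
      rw [Finset.mem_filter] at hp
      exact ⟨(hR p hp.1).1, hp.2⟩
  refine (Finset.sum_le_sum hstep).trans ?_
  rw [← Finset.mul_sum, Finset.sum_add_distrib, Finset.sum_const, nsmul_eq_mul, hcardA]
  have hsum : ∑ w ∈ A, 6 * (wt (6 * N) w : ℝ) * Real.sqrt B / (q : ℝ) ^ 2 *
        (2 + 4 * Real.sqrt V / (q : ℝ) ^ 2) =
      (∑ w ∈ A, (wt (6 * N) w : ℝ)) * (6 * Real.sqrt B / (q : ℝ) ^ 2 *
        (2 + 4 * Real.sqrt V / (q : ℝ) ^ 2)) := by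
    rw [Finset.sum_mul]
    apply Finset.sum_congr rfl
    intro w _
    ring
  rw [hsum]
  have hwt := sum_wt_le N (6 * N)
  push_cast at hwt
  have hD3 : 0 ≤ 9 * D ^ 3 := by positivity
  apply mul_le_mul_of_nonneg_left _ hD3
  apply add_le_add (le_refl _)
  calc (∑ w ∈ A, (wt (6 * N) w : ℝ)) * (6 * Real.sqrt B / (q : ℝ) ^ 2 *
        (2 + 4 * Real.sqrt V / (q : ℝ) ^ 2))
      ≤ (72 * N * (1 + Real.log (6 * N))) * (6 * Real.sqrt B / (q : ℝ) ^ 2 *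
        (2 + 4 * Real.sqrt V / (q : ℝ) ^ 2)) := by gcongr
    _ = _ := by ring

end Pool.Agent.Work.MP_f2148a_nt
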