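import Mathlib

set_option autoImplicit false
set_option maxHeartbeats 2000000

namespace Pool.Agent.Work.MP_f2148a_nt

/-- Dirichlet parametrisation of an integral point close to the cuspidal cubic. -/
theorem param (T K n : ℕ) (hT : 1 ≤ T) (hK : 1 ≤ K) (hn : 1 ≤ n) (hnK : n ^ 6 * K ≤ T ^ 3)
    (x y : ℤ) (hx1 : (T : ℤ) ^ 2 ≤ x) (hx2 : x ≤ 4 * (T : ℤ) ^ 2) (hy : 0 ≤ y)
    (hk : |y ^ 2 - x ^ 3| ≤ K) :
    ∃ q : ℕ, ∃ a : ℤ, 1 ≤ q ∧ q ≤ n ∧ IsCoprime a (q : ℤ) ∧ 0 < a ∧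
      (a : ℝ) ≤ 3 * q * T ∧ (q * T : ℝ) / 2 ≤ a ∧
      |(q : ℤ) ^ 2 * x - a ^ 2| ≤ a ∧
      |((2 * (q : ℤ) ^ 3 * y - 3 * a * (q : ℤ) ^ 2 * x + a ^ 3 : ℤ) : ℝ)| ≤
        12 * q * T / (n : ℝ) ^ 2 ∧
      |((3 * ((q : ℤ) ^ 2 * x - a ^ 2) ^ 2 -
          4 * a * (2 * (q : ℤ) ^ 3 * y - 3 * a * (q : ℤ) ^ 2 * x + a ^ 3) : ℤ) : ℝ)| ≤
        38 * q * T / (n : ℝ) ^ 3 ∧
      (2 * (q : ℤ) ^ 3 * y - 3 * a * (q : ℤ) ^ 2 * x + a ^ 3 ≠ 0 →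
        (((q : ℤ) ^ 2 * x - a ^ 2 : ℤ) : ℝ) ^ 2 ≤ 17 * q * T *
          |((2 * (q : ℤ) ^ 3 * y - 3 * a * (q : ℤ) ^ 2 * x + a ^ 3 : ℤ) : ℝ)|) := by
  have hTr : (1 : ℝ) ≤ T := by exact_mod_cast hT
  have hKr : (1 : ℝ) ≤ K := by exact_mod_cast hK
  have hnr : (1 : ℝ) ≤ n := by exact_mod_cast hn
  have hnKr : (n : ℝ) ^ 6 * K ≤ (T : ℝ) ^ 3 := by exact_mod_cast hnK
  have hx1r : (T : ℝ) ^ 2 ≤ x := by exact_mod_cast hx1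
  have hx2r : (x : ℝ) ≤ 4 * (T : ℝ) ^ 2 := by exact_mod_cast hx2
  have hyr : (0 : ℝ) ≤ y := by exact_mod_cast hy
  have hkr : |(y : ℝ) ^ 2 - (x : ℝ) ^ 3| ≤ K := by exact_mod_cast hk
  have hx0 : (0 : ℝ) ≤ x := le_trans (by positivity) hx1r
  set t := Real.sqrt x with ht
  have ht2 : t ^ 2 = x := Real.sq_sqrt hx0
  have ht0 : 0 ≤ t := Real.sqrt_nonneg _
  have htT : (T : ℝ) ≤ t := by
    rw [ht]; exact Real.le_sqrt_of_sq_le hx1r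
  have ht2T : t ≤ 2 * T := by
    rw [ht]
    apply Real.sqrt_le_iff.2
    constructor
    · positivity
    · nlinarith
  -- the error term
  set δ := (y : ℝ) - t ^ 3 with hδ
  have hδb : |δ| ≤ K / (T : ℝ) ^ 3 := by
    rw [le_div_iff₀ (by positivity)]
    have h1 : δ * (y + t ^ 3) = (y : ℝ) ^ 2 - (x : ℝ) ^ 3 := by
      rw [hδ, ← ht2]; ring
    have h2 : |δ| * (y + t ^ 3) ≤ K := by
      have h3 : 0 ≤ (y : ℝ) + t ^ 3 := by positivity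
      rw [← abs_of_nonneg h3, ← abs_mul, h1]
      exact hkr
    have h4 : (T : ℝ) ^ 3 ≤ y + t ^ 3 := by
      have : (T : ℝ) ^ 3 ≤ t ^ 3 := by gcongr
      linarith
    have h5 : |δ| * (T : ℝ) ^ 3 ≤ |δ| * ((y : ℝ) + t ^ 3) := by gcongr
    exact h5.trans h2
  obtain ⟨ρ, hρ1, hρ2⟩ := Real.exists_rat_abs_sub_le_and_den_le t (Nat.pos_of_ne_zero (by omega) : 0 < n)
  have hq0 : 0 < ρ.den := ρ.den_pos
  set q := ρ.den with hq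
  set a := ρ.num with ha
  have hqr : (1 : ℝ) ≤ q := by exact_mod_cast hq0
  have hqn : (q : ℝ) ≤ n := by exact_mod_cast hρ2
  set σ := (q : ℝ) * t - a with hσ
  have hσ1 : |σ| ≤ 1 / ((n : ℝ) + 1) := by
    have h1 : σ = q * (t - (ρ : ℝ)) := by
      rw [hσ, mul_sub]
      congr 1
      rw [Rat.cast_def, ← hq, ← ha]
      field_simp
    rw [h1, abs_mul, abs_of_pos (by linarith : (0 : ℝ) < q)]
    calc (q : ℝ) * |t - (ρ : ℝ)| ≤ q * (1 / (((n : ℝ) + 1) * q)) := by gcongr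
      _ = 1 / ((n : ℝ) + 1) := by field_simp
  have hσ2 : |σ| ≤ 1 / 2 := hσ1.trans (by
    apply one_div_le_one_div_of_le <;> linarith)
  have hσ3 : |σ| ≤ 1 / n := hσ1.trans (by
    apply one_div_le_one_div_of_le <;> linarith)
  have hs0 : 0 ≤ |σ| := abs_nonneg _
  have hσle := abs_le.1 hσ2
  have hqT : (1 : ℝ) ≤ q * T := by nlinarith
  have haU : (a : ℝ) ≤ 3 * q * T := by
    have : (a : ℝ) = q * t - σ := by rw [hσ]; ring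
    rw [this]
    nlinarith
  have haL : (q * T : ℝ) / 2 ≤ a := by
    have : (a : ℝ) = q * t - σ := by rw [hσ]; ring
    rw [this]
    nlinarith
  have ha0r : (0 : ℝ) < a := by linarith
  have ha0 : 0 < a := by exact_mod_cast ha0r
  have hqt : (q : ℝ) * t = a + σ := by rw [hσ]; ring
  -- identities
  have hu : (q : ℝ) ^ 2 * x - (a : ℝ) ^ 2 = 2 * a * σ + σ ^ 2 := by
    rw [← ht2]
    have : (q : ℝ) ^ 2 * t ^ 2 = (q * t) ^ 2 := by ring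
    rw [this, hqt]; ring
  have hv : 2 * (q : ℝ) ^ 3 * y - 3 * a * (q : ℝ) ^ 2 * x + (a : ℝ) ^ 3 =
      3 * a * σ ^ 2 + 2 * σ ^ 3 + 2 * (q : ℝ) ^ 3 * δ := by
    have e1 : (y : ℝ) = t ^ 3 + δ := by rw [hδ]; ring
    rw [← ht2, e1]
    have : 2 * (q : ℝ) ^ 3 * (t ^ 3 + δ) - 3 * a * (q : ℝ) ^ 2 * t ^ 2 + (a : ℝ) ^ 3 =
      2 * (q * t) ^ 3 - 3 * a * (q * t) ^ 2 + (a : ℝ) ^ 3 + 2 * (q : ℝ) ^ 3 * δ := by ring
    rw [this, hqt]; ring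
  have hw : 3 * ((q : ℝ) ^ 2 * x - (a : ℝ) ^ 2) ^ 2 -
      4 * a * (2 * (q : ℝ) ^ 3 * y - 3 * a * (q : ℝ) ^ 2 * x + (a : ℝ) ^ 3) =
      4 * a * σ ^ 3 + 3 * σ ^ 4 - 8 * a * (q : ℝ) ^ 3 * δ := by
    rw [hu, hv]; ring
  have hn2T : (n : ℝ) ^ 2 ≤ T := by
    have h1 : ((n : ℝ) ^ 2) ^ 3 ≤ (T : ℝ) ^ 3 := by
      calc ((n : ℝ) ^ 2) ^ 3 = (n : ℝ) ^ 6 * 1 := by ring
        _ ≤ (n : ℝ) ^ 6 * K := by gcongr
        _ ≤ _ := hnKr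
    exact le_of_pow_le_pow_left₀ (by norm_num) (by positivity) h1
  have hu_abs : |2 * (a : ℝ) * σ + σ ^ 2| ≤ (a : ℝ) + 1 / 4 := by
    calc |2 * (a : ℝ) * σ + σ ^ 2| ≤ |2 * (a : ℝ) * σ| + |σ ^ 2| := abs_add_le _ _
      _ = 2 * (a : ℝ) * |σ| + |σ| ^ 2 := by
          rw [abs_mul, abs_mul, abs_of_pos ha0r, abs_pow]; norm_num
      _ ≤ 2 * (a : ℝ) * (1 / 2) + (1 / 2) ^ 2 := by gcongr
      _ = (a : ℝ) + 1 / 4 := by ring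
  have hv_abs : |3 * (a : ℝ) * σ ^ 2 + 2 * σ ^ 3 + 2 * (q : ℝ) ^ 3 * δ| ≤
      12 * q * T / (n : ℝ) ^ 2 := by
    have h1 : |3 * (a : ℝ) * σ ^ 2 + 2 * σ ^ 3 + 2 * (q : ℝ) ^ 3 * δ| ≤
        3 * a * |σ| ^ 2 + 2 * |σ| ^ 3 + 2 * (q : ℝ) ^ 3 * |δ| := by
      calc _ ≤ |3 * (a : ℝ) * σ ^ 2 + 2 * σ ^ 3| + |2 * (q : ℝ) ^ 3 * δ| := abs_add_le _ _
        _ ≤ |3 * (a : ℝ) * σ ^ 2| + |2 * σ ^ 3| + |2 * (q : ℝ) ^ 3 * δ| := by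
            gcongr; exact abs_add_le _ _
        _ = _ := by
            rw [abs_mul, abs_mul, abs_mul, abs_mul, abs_mul, abs_of_pos ha0r, abs_pow, abs_pow,
              abs_pow, Nat.abs_cast]
            norm_num
    have h2 : 3 * a * |σ| ^ 2 + 2 * |σ| ^ 3 ≤ 10 * q * T * |σ| ^ 2 := by
      have : 2 * |σ| ^ 3 ≤ q * T * |σ| ^ 2 := by
        have e : 2 * |σ| ^ 3 = (2 * |σ|) * |σ| ^ 2 := by ring
        rw [e]
        apply mul_le_mul_of_nonneg_right _ (by positivity)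
        linarith
      have h3 : 3 * (a : ℝ) * |σ| ^ 2 ≤ 3 * (3 * q * T) * |σ| ^ 2 := by gcongr
      linarith
    have h4 : |σ| ^ 2 ≤ (1 / n : ℝ) ^ 2 := by gcongr
    have h5 : 2 * (q : ℝ) ^ 3 * |δ| ≤ 2 * (q * T / (n : ℝ) ^ 2) := by
      have : (q : ℝ) ^ 3 * |δ| ≤ q * T / (n : ℝ) ^ 2 := by
        calc (q : ℝ) ^ 3 * |δ| ≤ (q : ℝ) ^ 3 * (K / (T : ℝ) ^ 3) := by gcongr
          _ ≤ q * T / (n : ℝ) ^ 2 := by
            rw [mul_div_assoc', div_le_div_iff₀ (by positivity) (by positivity)]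
            have e1 : (q : ℝ) ^ 2 * (n : ℝ) ^ 2 * K ≤ T ^ 3 := by
              calc (q : ℝ) ^ 2 * (n : ℝ) ^ 2 * K ≤ (n : ℝ) ^ 2 * (n : ℝ) ^ 2 * K := by gcongr
                _ = (n : ℝ) ^ 4 * K := by ring
                _ ≤ (n : ℝ) ^ 6 * K :=
                  mul_le_mul_of_nonneg_right (pow_le_pow_right₀ hnr (by norm_num)) (by positivity)
                _ ≤ _ := hnKr
            calc (q : ℝ) ^ 3 * K * (n : ℝ) ^ 2 = q * ((q : ℝ) ^ 2 * (n : ℝ) ^ 2 * K) := by ring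
              _ ≤ q * (T : ℝ) ^ 3 := by gcongr
              _ = q * (1 * (T : ℝ) ^ 3) := by ring
              _ ≤ q * (T * (T : ℝ) ^ 3) := by gcongr
              _ = q * T * (T : ℝ) ^ 3 := by ring
      linarith
    calc _ ≤ _ := h1
      _ ≤ 10 * q * T * |σ| ^ 2 + 2 * (q * T / (n : ℝ) ^ 2) := by linarith
      _ ≤ 10 * q * T * (1 / n : ℝ) ^ 2 + 2 * (q * T / (n : ℝ) ^ 2) := by gcongr
      _ = 12 * q * T / (n : ℝ) ^ 2 := by ring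
  have hw_abs : |4 * (a : ℝ) * σ ^ 3 + 3 * σ ^ 4 - 8 * a * (q : ℝ) ^ 3 * δ| ≤
      38 * q * T / (n : ℝ) ^ 3 := by
    have h1 : |4 * (a : ℝ) * σ ^ 3 + 3 * σ ^ 4 - 8 * a * (q : ℝ) ^ 3 * δ| ≤
        4 * a * |σ| ^ 3 + 3 * |σ| ^ 4 + 8 * a * (q : ℝ) ^ 3 * |δ| := by
      calc _ ≤ |4 * (a : ℝ) * σ ^ 3 + 3 * σ ^ 4| + |8 * a * (q : ℝ) ^ 3 * δ| := abs_sub _ _
        _ ≤ |4 * (a : ℝ) * σ ^ 3| + |3 * σ ^ 4| + |8 * a * (q : ℝ) ^ 3 * δ| := by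
            gcongr; exact abs_add_le _ _
        _ = _ := by
            simp only [abs_mul, abs_pow, abs_of_pos ha0r, Nat.abs_cast]
            norm_num
    have h2 : 4 * a * |σ| ^ 3 + 3 * |σ| ^ 4 ≤ 14 * q * T * |σ| ^ 3 := by
      have : 3 * |σ| ^ 4 ≤ 2 * (q * T) * |σ| ^ 3 := by
        have e : 3 * |σ| ^ 4 = (3 * |σ|) * |σ| ^ 3 := by ring
        rw [e]
        apply mul_le_mul_of_nonneg_right _ (by positivity)
        linarith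
      have h3 : 4 * (a : ℝ) * |σ| ^ 3 ≤ 4 * (3 * q * T) * |σ| ^ 3 := by gcongr
      linarith
    have h4 : |σ| ^ 3 ≤ (1 / n : ℝ) ^ 3 := by gcongr
    have h5 : 8 * a * (q : ℝ) ^ 3 * |δ| ≤ 24 * (q * T / (n : ℝ) ^ 3) := by
      calc 8 * a * (q : ℝ) ^ 3 * |δ| ≤ 8 * (3 * q * T) * (q : ℝ) ^ 3 * (K / (T : ℝ) ^ 3) := by
            gcongr
        _ = 24 * (q * T * ((q : ℝ) ^ 3 * K / (T : ℝ) ^ 3)) := by ring
        _ ≤ 24 * (q * T * (1 / (n : ℝ) ^ 3)) := by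
            have e0 : (q : ℝ) ^ 3 * K / (T : ℝ) ^ 3 ≤ 1 / (n : ℝ) ^ 3 := by
              rw [div_le_div_iff₀ (by positivity) (by positivity)]
              calc (q : ℝ) ^ 3 * K * (n : ℝ) ^ 3 ≤ (n : ℝ) ^ 3 * K * (n : ℝ) ^ 3 := by gcongr
                _ = (n : ℝ) ^ 6 * K := by ring
                _ ≤ 1 * (T : ℝ) ^ 3 := by linarith
            have e1 : (0 : ℝ) ≤ 24 * (q * T) := by positivity
            have e2 := mul_le_mul_of_nonneg_left e0 e1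
            linarith
        _ = 24 * (q * T / (n : ℝ) ^ 3) := by ring
    calc _ ≤ _ := h1
      _ ≤ 14 * q * T * |σ| ^ 3 + 24 * (q * T / (n : ℝ) ^ 3) := by linarith
      _ ≤ 14 * q * T * (1 / n : ℝ) ^ 3 + 24 * (q * T / (n : ℝ) ^ 3) := by gcongr
      _ = 38 * q * T / (n : ℝ) ^ 3 := by ring
  refine ⟨q, a, hq0, hρ2, ?_, ha0, haU, haL, ?_, ?_, ?_, ?_⟩
  · rw [Int.isCoprime_iff_gcd_eq_one]
    exact ρ.reduced
  · have h1 : |(q : ℝ) ^ 2 * x - (a : ℝ) ^ 2| ≤ (a : ℝ) + 1 / 4 := by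
      rw [hu]; exact hu_abs
    by_contra hcon
    push Not at hcon
    have h2 : (a : ℤ) + 1 ≤ |(q : ℤ) ^ 2 * x - a ^ 2| := hcon
    have h3 : (a : ℝ) + 1 ≤ |(q : ℝ) ^ 2 * x - (a : ℝ) ^ 2| := by exact_mod_cast h2
    linarith
  · push_cast
    rw [hv]; exact hv_abs
  · push_cast
    rw [hw]; exact hw_abs
  · intro hv0
    have hv1 : (1 : ℝ) ≤ |((2 * (q : ℤ) ^ 3 * y - 3 * a * (q : ℤ) ^ 2 * x + a ^ 3 : ℤ) : ℝ)| := by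
      exact_mod_cast Int.one_le_abs hv0
    set v := ((2 * (q : ℤ) ^ 3 * y - 3 * a * (q : ℤ) ^ 2 * x + a ^ 3 : ℤ) : ℝ) with hvdef
    have hvr : v = 2 * (q : ℝ) ^ 3 * y - 3 * a * (q : ℝ) ^ 2 * x + (a : ℝ) ^ 3 := by
      rw [hvdef]; push_cast; ring
    push_cast
    have h3 : 3 * ((q : ℝ) ^ 2 * x - (a : ℝ) ^ 2) ^ 2 ≤ 4 * a * |v| + 38 * q * T / (n : ℝ) ^ 3 := by
      have e1 : 3 * ((q : ℝ) ^ 2 * x - (a : ℝ) ^ 2) ^ 2 = 4 * a * v +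
          (4 * a * σ ^ 3 + 3 * σ ^ 4 - 8 * a * (q : ℝ) ^ 3 * δ) := by
        rw [← hw, hvr]; ring
      rw [e1]
      have e2 : 4 * a * v ≤ 4 * a * |v| := by
        gcongr; exact le_abs_self v
      have e3 := (abs_le.1 hw_abs).2
      linarith
    have h4 : 38 * q * T / (n : ℝ) ^ 3 ≤ 38 * q * T * |v| := by
      have e1 : 38 * q * T / (n : ℝ) ^ 3 ≤ 38 * q * T := by
        apply div_le_self (by positivity)
        exact one_le_pow₀ hnr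
      have e2 : 38 * (q : ℝ) * T * 1 ≤ 38 * q * T * |v| := by gcongr
      linarith
    have h5 : 4 * (a : ℝ) * |v| ≤ 4 * (3 * q * T) * |v| := by gcongr
    nlinarith

end Pool.Agent.Work.MP_f2148a_nt
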