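import Mathlib
import Pool.Agent.Work.MP_f2148a_nt.Fiber

set_option autoImplicit false
set_option maxHeartbeats 2000000

namespace Pool.Agent.Work.MP_f2148a_nt

open Finset

/-- Numerical simplification of the bound in `count_q` for our parameters. -/
theorem perq_bound (T n q N : ℕ) (hT : 1 ≤ T) (hq : 1 ≤ q) (hqn : q ≤ n)
    (hN : (N : ℝ) ≤ 38 * q * T / (n : ℝ) ^ 3) (D : ℝ) (hD : 1 ≤ D) :
    9 * D ^ 3 * (2 * N * (2 * (12 * q * T / (n : ℝ) ^ 2) / (q : ℝ) ^ 2 + 2) +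
      432 * N * (1 + Real.log (6 * N)) * Real.sqrt (17 * q * T) / (q : ℝ) ^ 2 *
        (2 + 4 * Real.sqrt (12 * q * T / (n : ℝ) ^ 2) / (q : ℝ) ^ 2)) ≤
    20000000 * D ^ 3 * (1 + Real.log (228 * T)) * (((T : ℝ) ^ 2 / (n : ℝ) ^ 4 + T / n) * (1 / q)) := by
  have hTr : (1 : ℝ) ≤ T := by exact_mod_cast hT
  have hqr : (1 : ℝ) ≤ q := by exact_mod_cast hq
  have hqnr : (q : ℝ) ≤ n := by exact_mod_cast hqn
  have hnr : (1 : ℝ) ≤ n := by linarith
  set Λ := 1 + Real.log (228 * T) with hΛ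
  have hΛ1 : 1 ≤ Λ := by
    have : 0 ≤ Real.log (228 * T) := Real.log_nonneg (by linarith)
    linarith
  set Y := (T : ℝ) ^ 2 / (n : ℝ) ^ 4 + T / n with hY
  have hY0 : 0 < Y := by positivity
  set X := (q : ℝ) * T / (n : ℝ) ^ 3 with hX
  have hX0 : 0 < X := by positivity
  have hNX : (N : ℝ) ≤ 38 * X := by
    rw [hX]; calc (N : ℝ) ≤ _ := hN
      _ = _ := by ring
  have hN0 : (0 : ℝ) ≤ N := Nat.cast_nonneg N
  -- the logarithm
  have hlog : 1 + Real.log (6 * N) ≤ Λ := by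
    rcases Nat.eq_zero_or_pos N with h0 | h0
    · rw [h0]; simp only [CharP.cast_eq_zero, mul_zero, Real.log_zero, add_zero]; exact hΛ1
    · have h1 : (1 : ℝ) ≤ N := by exact_mod_cast h0
      rw [hΛ]
      have h2 : (6 * N : ℝ) ≤ 228 * T := by
        have h3 : X ≤ T := by
          rw [hX, div_le_iff₀ (by positivity)]
          have : (q : ℝ) ≤ (n : ℝ) ^ 3 := by
            calc (q : ℝ) ≤ n := hqnr
              _ = (n : ℝ) ^ 1 := by ring
              _ ≤ (n : ℝ) ^ 3 := pow_le_pow_right₀ hnr (by norm_num)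
          nlinarith
        linarith
      have := Real.log_le_log (by linarith) h2
      linarith
  have hlog0 : 0 ≤ 1 + Real.log (6 * N) := by
    rcases Nat.eq_zero_or_pos N with h0 | h0
    · rw [h0]; simp
    · have h1 : (1 : ℝ) ≤ N := by exact_mod_cast h0
      have : 0 ≤ Real.log (6 * N) := Real.log_nonneg (by linarith)
      linarith
  -- square roots
  set r := Real.sqrt ((q : ℝ) * T) with hr
  have hr2 : r ^ 2 = q * T := Real.sq_sqrt (by positivity)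
  have hr0 : 0 < r := Real.sqrt_pos.2 (by positivity)
  have hs1 : Real.sqrt (17 * q * T) ≤ 5 * r := by
    apply Real.sqrt_le_iff.2
    refine ⟨by positivity, ?_⟩
    rw [mul_pow, hr2]; nlinarith
  have hs2 : Real.sqrt (12 * q * T / (n : ℝ) ^ 2) ≤ 4 * r / n := by
    apply Real.sqrt_le_iff.2
    refine ⟨by positivity, ?_⟩
    rw [div_pow, mul_pow, hr2]
    apply div_le_div_of_nonneg_right _ (by positivity)
    nlinarith
  -- first part
  have hpart1 : 2 * N * (2 * (12 * q * T / (n : ℝ) ^ 2) / (q : ℝ) ^ 2 + 2) ≤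
      2000 * (Y * (1 / q)) := by
    have e1 : 2 * N * (2 * (12 * q * T / (n : ℝ) ^ 2) / (q : ℝ) ^ 2 + 2) ≤
        2 * (38 * X) * (2 * (12 * q * T / (n : ℝ) ^ 2) / (q : ℝ) ^ 2 + 2) := by gcongr
    have e2 : 2 * (38 * X) * (2 * (12 * q * T / (n : ℝ) ^ 2) / (q : ℝ) ^ 2 + 2) =
        1824 * ((T : ℝ) ^ 2 / (n : ℝ) ^ 5) + 152 * (q * T / (n : ℝ) ^ 3) := by
      rw [hX]; field_simp; ring
    have e3 : (T : ℝ) ^ 2 / (n : ℝ) ^ 5 ≤ (T : ℝ) ^ 2 / (n : ℝ) ^ 4 * (1 / q) := by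
      rw [div_mul_div_comm, mul_one]
      apply div_le_div_of_nonneg_left (by positivity) (by positivity)
      calc (n : ℝ) ^ 4 * q ≤ (n : ℝ) ^ 4 * n := by gcongr
        _ = (n : ℝ) ^ 5 := by ring
    have e4 : (q : ℝ) * T / (n : ℝ) ^ 3 ≤ T / n * (1 / q) := by
      rw [div_mul_div_comm, mul_one, div_le_div_iff₀ (by positivity) (by positivity)]
      calc (q : ℝ) * T * (n * q) = T * n * (q * q) := by ring
        _ ≤ T * n * (n * n) := by gcongr
        _ = T * (n : ℝ) ^ 3 := by ring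
    have e5 : Y * (1 / q) = (T : ℝ) ^ 2 / (n : ℝ) ^ 4 * (1 / q) + T / n * (1 / q) := by
      rw [hY]; ring
    rw [e5]
    have e6 : 0 ≤ (T : ℝ) ^ 2 / (n : ℝ) ^ 4 * (1 / q) := by positivity
    have e7 : 0 ≤ (T : ℝ) / n * (1 / q) := by positivity
    linarith
  -- second part
  have hpart2 : 432 * N * (1 + Real.log (6 * N)) * Real.sqrt (17 * q * T) / (q : ℝ) ^ 2 *
        (2 + 4 * Real.sqrt (12 * q * T / (n : ℝ) ^ 2) / (q : ℝ) ^ 2) ≤
      1500000 * Λ * (Y * (1 / q)) := by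
    have e1 : 432 * N * (1 + Real.log (6 * N)) * Real.sqrt (17 * q * T) / (q : ℝ) ^ 2 *
        (2 + 4 * Real.sqrt (12 * q * T / (n : ℝ) ^ 2) / (q : ℝ) ^ 2) ≤
        432 * (38 * X) * Λ * (5 * r) / (q : ℝ) ^ 2 *
        (2 + 4 * (4 * r / n) / (q : ℝ) ^ 2) := by gcongr
    have e2 : 432 * (38 * X) * Λ * (5 * r) / (q : ℝ) ^ 2 *
        (2 + 4 * (4 * r / n) / (q : ℝ) ^ 2) =
        82080 * Λ * (2 * (X * r / (q : ℝ) ^ 2) + 16 * (X * r ^ 2 / (n * (q : ℝ) ^ 4))) := by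
      field_simp; ring
    have e3 : X * r / (q : ℝ) ^ 2 ≤ Y * (1 / q) := by
      have hrle : r ≤ T / n + (n : ℝ) ^ 2 := by
        rw [hr]
        apply Real.sqrt_le_iff.2
        refine ⟨by positivity, ?_⟩
        have h1 : (T : ℝ) / n * (n : ℝ) ^ 2 = T * n := by field_simp
        have h2 : 0 ≤ (T : ℝ) / n := by positivity
        have h3 : (q : ℝ) * T ≤ T * n := by nlinarith
        nlinarith [sq_nonneg ((T : ℝ) / n - (n : ℝ) ^ 2)]
      calc X * r / (q : ℝ) ^ 2 ≤ X * (T / n + (n : ℝ) ^ 2) / (q : ℝ) ^ 2 := by gcongr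
        _ = Y * (1 / q) := by
          rw [hX, hY]; field_simp
    have e4 : X * r ^ 2 / (n * (q : ℝ) ^ 4) ≤ Y * (1 / q) := by
      have h1 : X * r ^ 2 / (n * (q : ℝ) ^ 4) = (T : ℝ) ^ 2 / (n : ℝ) ^ 4 * (1 / (q : ℝ) ^ 2) := by
        rw [hX, hr2]; field_simp
      rw [h1]
      have h2 : (T : ℝ) ^ 2 / (n : ℝ) ^ 4 ≤ Y := by
        rw [hY]; have : 0 ≤ (T : ℝ) / n := by positivity
        linarith
      have h3 : 1 / (q : ℝ) ^ 2 ≤ 1 / q := by
        apply one_div_le_one_div_of_le (by positivity)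
        nlinarith
      gcongr
    rw [e2] at e1
    refine e1.trans ?_
    have e5 : 2 * (X * r / (q : ℝ) ^ 2) + 16 * (X * r ^ 2 / (n * (q : ℝ) ^ 4)) ≤
        18 * (Y * (1 / q)) := by linarith
    have e6 : 0 ≤ Y * (1 / (q : ℝ)) := by positivity
    calc 82080 * Λ * (2 * (X * r / (q : ℝ) ^ 2) + 16 * (X * r ^ 2 / (n * (q : ℝ) ^ 4)))
        ≤ 82080 * Λ * (18 * (Y * (1 / q))) := by gcongr
      _ = 1477440 * Λ * (Y * (1 / q)) := by ring
      _ ≤ 1500000 * Λ * (Y * (1 / q)) := by gcongr; norm_num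
  have e6 : 0 ≤ Y * (1 / (q : ℝ)) := by positivity
  have hsum : 2 * N * (2 * (12 * q * T / (n : ℝ) ^ 2) / (q : ℝ) ^ 2 + 2) +
      432 * N * (1 + Real.log (6 * N)) * Real.sqrt (17 * q * T) / (q : ℝ) ^ 2 *
        (2 + 4 * Real.sqrt (12 * q * T / (n : ℝ) ^ 2) / (q : ℝ) ^ 2) ≤
      1502000 * Λ * (Y * (1 / q)) := by
    have : 2000 * (Y * (1 / q)) ≤ 2000 * Λ * (Y * (1 / q)) := by nlinarith
    linarith
  calc _ ≤ 9 * D ^ 3 * (1502000 * Λ * (Y * (1 / q))) := by gcongr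
    _ = 13518000 * D ^ 3 * Λ * (Y * (1 / q)) := by ring
    _ ≤ 20000000 * D ^ 3 * Λ * (Y * (1 / q)) := by gcongr; norm_num

end Pool.Agent.Work.MP_f2148a_nt
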