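import Mathlib
import Pool.Agent.Work.MP_f2148a_nt.DivisorBound
import Pool.Agent.Work.MP_f2148a_nt.Fiber
import Pool.Agent.Work.MP_f2148a_nt.Param
import Pool.Agent.Work.MP_f2148a_nt.PerQ

set_option autoImplicit false
set_option maxHeartbeats 2000000

namespace Pool.Agent.Work.MP_f2148a_nt

open Finset

/-- The `u` coordinate. -/
def uu (q : ℕ) (a x : ℤ) : ℤ := (q : ℤ) ^ 2 * x - a ^ 2
/-- The `v` coordinate. -/
def vv (q : ℕ) (a x y : ℤ) : ℤ := 2 * (q : ℤ) ^ 3 * y - 3 * a * (q : ℤ) ^ 2 * x + a ^ 3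

/-- What `param` provides. -/
structure Par (T n q : ℕ) (a x y : ℤ) : Prop where
  hq : 1 ≤ q
  hqn : q ≤ n
  cop : IsCoprime a (q : ℤ)
  ha : 0 < a
  haU : (a : ℝ) ≤ 3 * q * T
  haL : (q * T : ℝ) / 2 ≤ a
  hua : |uu q a x| ≤ a
  hv : |(vv q a x y : ℝ)| ≤ 12 * q * T / (n : ℝ) ^ 2
  hw : |(ww (a, uu q a x, vv q a x y) : ℝ)| ≤ 38 * q * T / (n : ℝ) ^ 3
  hB : vv q a x y ≠ 0 → (uu q a x : ℝ) ^ 2 ≤ 17 * q * T * |(vv q a x y : ℝ)|

theorem exists_par (T K n : ℕ) (hT : 1 ≤ T) (hK : 1 ≤ K) (hn : 1 ≤ n) (hnK : n ^ 6 * K ≤ T ^ 3)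
    (x y : ℤ) (hx1 : (T : ℤ) ^ 2 ≤ x) (hx2 : x ≤ 4 * (T : ℤ) ^ 2) (hy : 0 ≤ y)
    (hk : |y ^ 2 - x ^ 3| ≤ K) : ∃ q : ℕ, ∃ a : ℤ, Par T n q a x y := by
  obtain ⟨q, a, h1, h2, h3, h4, h5, h6, h7, h8, h9, h10⟩ :=
    param T K n hT hK hn hnK x y hx1 hx2 hy hk
  exact ⟨q, a, ⟨h1, h2, h3, h4, h5, h6, h7, h8, h9, h10⟩⟩

theorem ww_congr (q : ℕ) (a x y : ℤ) :
    ((q : ℤ) ^ 2) ∣ ww (a, uu q a x, vv q a x y) + a ^ 4 := by
  refine ⟨3 * (q : ℤ) ^ 2 * x ^ 2 + 6 * a ^ 2 * x - 8 * a * q * y, ?_⟩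
  unfold ww uu vv
  ring

theorem q_eq_one_of_ww (q : ℕ) (a x y : ℤ) (hcop : IsCoprime a (q : ℤ))
    (h : ww (a, uu q a x, vv q a x y) = 0) : q = 1 := by
  have h1 := ww_congr q a x y
  rw [h, zero_add] at h1
  have h2 : IsCoprime ((q : ℤ) ^ 2) (a ^ 4) := hcop.symm.pow
  have h3 : IsUnit ((q : ℤ) ^ 2) := h2.isUnit_of_dvd' dvd_rfl h1
  have h4 : IsUnit (q : ℤ) := isUnit_pow_iff (by norm_num) |>.1 h3
  have := Int.isUnit_iff.1 h4
  omega

theorem q_eq_one_of_vv (q : ℕ) (a x y : ℤ) (hcop : IsCoprime a (q : ℤ))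
    (h : vv q a x y = 0) : q = 1 := by
  have h1 : ((q : ℤ) ^ 2) ∣ a ^ 3 := by
    refine ⟨3 * a * x - 2 * q * y, ?_⟩
    unfold vv at h
    linear_combination h
  have h2 : IsCoprime ((q : ℤ) ^ 2) (a ^ 3) := hcop.symm.pow
  have h3 : IsUnit ((q : ℤ) ^ 2) := h2.isUnit_of_dvd' dvd_rfl h1
  have h4 : IsUnit (q : ℤ) := isUnit_pow_iff (by norm_num) |>.1 h3
  have := Int.isUnit_iff.1 h4
  omega

/-- Counting the main part for a fixed denominator. -/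
theorem main_q (T n q : ℕ) (hT : 1 ≤ T) (hq : 1 ≤ q) (hqn : q ≤ n)
    (hn2 : n ^ 2 ≤ T) (D : ℝ)
    (hD : ∀ j : ℕ, 1 ≤ j → (j : ℝ) ≤ 27 * (T : ℝ) ^ 2 → (j.divisors.card : ℝ) ≤ D)
    (a : ℤ × ℤ → ℤ) (S : Finset (ℤ × ℤ))
    (hS : ∀ p ∈ S, Par T n q (a p) p.1 p.2 ∧ vv q (a p) p.1 p.2 ≠ 0 ∧
      ww (a p, uu q (a p) p.1, vv q (a p) p.1 p.2) ≠ 0) :
    (S.card : ℝ) ≤ 20000000 * D ^ 3 * (1 + Real.log (228 * T)) *
      (((T : ℝ) ^ 2 / (n : ℝ) ^ 4 + T / n) * (1 / q)) := by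
  have hTr : (1 : ℝ) ≤ T := by exact_mod_cast hT
  have hqr : (1 : ℝ) ≤ q := by exact_mod_cast hq
  have hqnr : (q : ℝ) ≤ n := by exact_mod_cast hqn
  have hnr : (1 : ℝ) ≤ n := by linarith
  have hn2r : (n : ℝ) ^ 2 ≤ T := by exact_mod_cast hn2
  have hD1 : 1 ≤ D := by
    have := hD 1 le_rfl (by push_cast; nlinarith)
    simpa using this
  set N := ⌊38 * (q : ℝ) * T / (n : ℝ) ^ 3⌋₊ with hN
  have hNle : (N : ℝ) ≤ 38 * q * T / (n : ℝ) ^ 3 := Nat.floor_le (by positivity)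
  set f : ℤ × ℤ → ℤ × ℤ × ℤ := fun p => (a p, uu q (a p) p.1, vv q (a p) p.1 p.2) with hf
  have hinj : Set.InjOn f (↑S : Set (ℤ × ℤ)) := by
    intro p hp p' hp' h
    have hqz : (0 : ℤ) < q := by exact_mod_cast hq
    rw [hf] at h
    simp only [Prod.mk.injEq] at h
    obtain ⟨e1, e2, e3⟩ := h
    unfold uu at e2
    unfold vv at e3
    rw [← e1] at e2 e3
    have e4 : p.1 = p'.1 := by
      have : (q : ℤ) ^ 2 * (p.1 - p'.1) = 0 := by linear_combination e2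
      rcases mul_eq_zero.1 this with h | h
      · exfalso; have := pow_pos hqz 2; omega
      · linarith
    have e5 : p.2 = p'.2 := by
      rw [e4] at e3
      have : (q : ℤ) ^ 3 * (p.2 - p'.2) = 0 := by linarith
      rcases mul_eq_zero.1 this with h | h
      · exfalso; have := pow_pos hqz 3; omega
      · linarith
    exact Prod.ext e4 e5
  rw [← Finset.card_image_of_injOn hinj]
  have hVT : 12 * q * T / (n : ℝ) ^ 2 ≤ 27 * (T : ℝ) ^ 2 := by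
    rw [div_le_iff₀ (by positivity)]
    have h1 : (q : ℝ) ≤ (n : ℝ) ^ 2 := by nlinarith
    have h2 : (q : ℝ) * T ≤ (n : ℝ) ^ 2 * T := by gcongr
    have h3 : (n : ℝ) ^ 2 * T * 1 ≤ (n : ℝ) ^ 2 * T * T := by gcongr
    nlinarith
  have := count_q q hq N (12 * q * T / (n : ℝ) ^ 2) (17 * q * T) (by positivity) (by positivity)
    D (by linarith) (fun j hj1 hj2 => hD j hj1 (hj2.trans hVT)) ?_ (S.image f) ?_
  · exact this.trans (perq_bound T n q N hT hq hqn hNle D hD1)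
  · apply hD
    · exact Nat.one_le_pow _ _ hq
    · push_cast
      have h1 : (q : ℝ) ^ 2 ≤ (n : ℝ) ^ 2 := by gcongr
      nlinarith
  · intro p hp
    rw [Finset.mem_image] at hp
    obtain ⟨s, hs, rfl⟩ := hp
    obtain ⟨hpar, hv0, hw0⟩ := hS s hs
    refine ⟨⟨hpar.cop, ?_, ?_, hv0, hpar.hv, hpar.hB hv0⟩, hw0, ?_⟩
    · exact ⟨s.1, by simp only [hf]; unfold uu; ring⟩
    · exact ⟨2 * q * s.2 - 3 * a s * s.1, by simp only [hf]; unfold vv; ring⟩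
    · have h1 := hpar.hw
      have h2 : ((|ww (f s)|.toNat : ℕ) : ℝ) = |(ww (f s) : ℝ)| := by
        have e : ((|ww (f s)|.toNat : ℕ) : ℤ) = |ww (f s)| := Int.toNat_of_nonneg (abs_nonneg _)
        have e2 : (((|ww (f s)|.toNat : ℕ) : ℤ) : ℝ) = ((|ww (f s)| : ℤ) : ℝ) := by rw [e]
        push_cast at e2 ⊢
        exact e2
      have h3 : |ww (f s)|.toNat ≤ N := by
        apply Nat.le_floor
        rw [h2]; exact h1
      omega

/-- Algebra in the degenerate case `w = 0`. -/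
theorem case_w0 (a u v x y : ℤ) (K : ℕ) (hK : 1 ≤ K) (ha : 0 < a) (hua : |u| ≤ a)
    (hx : x = a ^ 2 + u)
    (hv : v = 2 * y - 3 * a * x + a ^ 3) (hw : 3 * u ^ 2 = 4 * a * v)
    (hk : |y ^ 2 - x ^ 3| ≤ K) : |u| ^ 3 ≤ 27 * K := by
  have h8 : 8 * (y ^ 2 - x ^ 3) = u ^ 3 + 2 * v ^ 2 := by
    have e1 : 2 * y = v + 3 * a * x - a ^ 3 := by linarith
    have e2 : 8 * y ^ 2 = 2 * (2 * y) ^ 2 := by ring
    have e3 : 8 * (y ^ 2 - x ^ 3) = 2 * (v + 3 * a * x - a ^ 3) ^ 2 - 8 * x ^ 3 := by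
      rw [mul_sub, e2, e1]
    rw [e3, hx]
    have e4 : 2 * (v + 3 * a * (a ^ 2 + u) - a ^ 3) ^ 2 - 8 * (a ^ 2 + u) ^ 3 =
      2 * v ^ 2 + 2 * a ^ 2 * (4 * a * v) + 3 * u * (4 * a * v) - 6 * a ^ 2 * u ^ 2 - 8 * u ^ 3 := by
      ring
    rw [e4, ← hw]
    ring
  rcases lt_or_ge a 2 with h | h
  · have ha1 : a = 1 := by omega
    rw [ha1] at hua
    have h1 : |u| ^ 3 ≤ 1 := pow_le_one₀ (abs_nonneg _) hua
    have h2 : (1 : ℤ) ≤ K := by exact_mod_cast hK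
    linarith
  · -- `16 a ^ 2 v ^ 2 = 9 u ^ 4`
    have h1 : 16 * a ^ 2 * v ^ 2 = 9 * u ^ 4 := by
      have : 16 * a ^ 2 * v ^ 2 = (4 * a * v) ^ 2 := by ring
      rw [this, ← hw]; ring
    have h2 : u ^ 4 ≤ |u| ^ 3 * a := by
      have : u ^ 4 = |u| ^ 3 * |u| := by
        have e : |u| ^ 3 * |u| = (|u| ^ 2) ^ 2 := by ring
        rw [e, sq_abs]; ring
      rw [this]
      gcongr
    have h3 : 32 * v ^ 2 ≤ 9 * |u| ^ 3 := by
      -- multiply by a ^ 2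
      have h4 : 32 * v ^ 2 * (a * a) ≤ 9 * |u| ^ 3 * (a * a) := by
        have e1 : 32 * v ^ 2 * (a * a) = 2 * (16 * a ^ 2 * v ^ 2) := by ring
        rw [e1, h1]
        have e2 : 2 * (9 * u ^ 4) ≤ 18 * (|u| ^ 3 * a) := by linarith
        have e3 : 18 * (|u| ^ 3 * a) ≤ 9 * |u| ^ 3 * (a * a) := by
          have : 0 ≤ 9 * |u| ^ 3 * a := by positivity
          nlinarith
        linarith
      exact le_of_mul_le_mul_right h4 (by positivity)
    have h5 : |8 * (y ^ 2 - x ^ 3)| ≤ 8 * (K : ℤ) := by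
      rw [abs_mul, abs_of_pos (by norm_num : (0 : ℤ) < 8)]; linarith
    rw [h8] at h5
    have h6 : |u| ^ 3 - 2 * v ^ 2 ≤ |u ^ 3 + 2 * v ^ 2| := by
      have e1 : |u ^ 3| ≤ |u ^ 3 + 2 * v ^ 2| + |2 * v ^ 2| := by
        have := abs_sub (u ^ 3 + 2 * v ^ 2) (2 * v ^ 2)
        simpa using this
      rw [abs_pow] at e1
      have e2 : |2 * v ^ 2| = 2 * v ^ 2 := abs_of_nonneg (by positivity)
      rw [e2] at e1
      linarith
    have h7 : 0 ≤ |u| ^ 3 := by positivity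
    nlinarith

/-- Algebra in the degenerate case `v = 0`. -/
theorem case_v0 (a u x y : ℤ) (K : ℕ) (hK : 1 ≤ K) (ha : 0 < a) (hua : |u| ≤ a)
    (hx : x = a ^ 2 + u)
    (hv : 2 * y - 3 * a * x + a ^ 3 = 0)
    (hk : |y ^ 2 - x ^ 3| ≤ K) : u ^ 2 * a ^ 2 ≤ 4 * K := by
  have h4 : 4 * (y ^ 2 - x ^ 3) = -(u ^ 2 * (3 * a ^ 2 + 4 * u)) := by
    have e1 : 2 * y = 3 * a * x - a ^ 3 := by linarith
    have e3 : 4 * (y ^ 2 - x ^ 3) = (2 * y) ^ 2 - 4 * x ^ 3 := by ring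
    rw [e3, e1, hx]
    ring
  have hu := abs_le.1 hua
  rcases lt_or_ge a 2 with h | h
  · have ha1 : a = 1 := by omega
    subst ha1
    have h1 : u ^ 2 ≤ 1 := by nlinarith
    have h2 : (1 : ℤ) ≤ K := by exact_mod_cast hK
    linarith
  · have h5 : |4 * (y ^ 2 - x ^ 3)| ≤ 4 * (K : ℤ) := by
      rw [abs_mul, abs_of_pos (by norm_num : (0 : ℤ) < 4)]; linarith
    rw [h4, abs_neg] at h5
    have h6 := (le_abs_self _).trans h5
    have h7 : a ^ 2 ≤ 3 * a ^ 2 + 4 * u := by nlinarith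
    have h8 : u ^ 2 * a ^ 2 ≤ u ^ 2 * (3 * a ^ 2 + 4 * u) := by gcongr
    linarith

theorem card_Icc_erase (M : ℕ) : ((Finset.Icc (-(M : ℤ)) M).erase 0).card = 2 * M := by
  rw [Finset.card_erase_of_mem (by simp), Int.card_Icc]
  omega

/-- Counting the pairs with `w = 0`. -/
theorem count_w0 (T K n : ℕ) (hT : 1 ≤ T) (hK : 1 ≤ K) (hKT : K ≤ T ^ 3) (D : ℝ)
    (hD : ∀ j : ℕ, 1 ≤ j → (j : ℝ) ≤ 27 * (T : ℝ) ^ 2 → (j.divisors.card : ℝ) ≤ D)
    (a : ℤ × ℤ → ℤ) (S : Finset (ℤ × ℤ))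
    (hS : ∀ p ∈ S, Par T n 1 (a p) p.1 p.2 ∧ |p.2 ^ 2 - p.1 ^ 3| ≤ K ∧ ¬ IsSquare p.1 ∧
      ww (a p, uu 1 (a p) p.1, vv 1 (a p) p.1 p.2) = 0) :
    (S.card : ℝ) ≤ 6 * (K : ℝ) ^ (1 / 3 : ℝ) * D := by
  have hTr : (1 : ℝ) ≤ T := by exact_mod_cast hT
  have hKr : (1 : ℝ) ≤ K := by exact_mod_cast hK
  have hKTr : (K : ℝ) ≤ (T : ℝ) ^ 3 := by exact_mod_cast hKT
  have hD1 : 1 ≤ D := by
    have := hD 1 le_rfl (by push_cast; nlinarith)
    simpa using this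
  set κ := (K : ℝ) ^ (1 / 3 : ℝ) with hκ
  have hκ3 : κ ^ 3 = K := by
    rw [hκ, ← Real.rpow_natCast, ← Real.rpow_mul (by positivity)]
    norm_num
  have hκ0 : 0 ≤ κ := by positivity
  have hκT : κ ≤ T := by
    apply le_of_pow_le_pow_left₀ (n := 3) (by norm_num) (by positivity)
    rw [hκ3]; exact hKTr
  set M := ⌊3 * κ⌋₊ with hM
  have hMle : (M : ℝ) ≤ 3 * κ := Nat.floor_le (by positivity)
  -- facts for elements
  have key : ∀ p ∈ S, uu 1 (a p) p.1 ≠ 0 ∧ |uu 1 (a p) p.1| ≤ M ∧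
      3 * (uu 1 (a p) p.1) ^ 2 = 4 * (a p) * vv 1 (a p) p.1 p.2 := by
    intro p hp
    obtain ⟨hpar, hk, hsq, hw⟩ := hS p hp
    have hw' : 3 * (uu 1 (a p) p.1) ^ 2 = 4 * (a p) * vv 1 (a p) p.1 p.2 := by
      unfold ww at hw; simp only at hw; linarith
    have hx : p.1 = (a p) ^ 2 + uu 1 (a p) p.1 := by unfold uu; push_cast; ring
    refine ⟨?_, ?_, hw'⟩
    · intro h0
      apply hsq
      rw [h0] at hx
      exact ⟨a p, by rw [hx]; ring⟩
    · have h1 := case_w0 (a p) (uu 1 (a p) p.1) (vv 1 (a p) p.1 p.2) p.1 p.2 K hK hpar.ha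
        hpar.hua hx (by unfold vv; push_cast; ring) hw' hk
      have h2 : (|uu 1 (a p) p.1| : ℤ).toNat ≤ M := by
        apply Nat.le_floor
        have e : ((|uu 1 (a p) p.1|.toNat : ℕ) : ℤ) = |uu 1 (a p) p.1| :=
          Int.toNat_of_nonneg (abs_nonneg _)
        have e2 : ((|uu 1 (a p) p.1|.toNat : ℕ) : ℝ) = ((|uu 1 (a p) p.1| : ℤ) : ℝ) := by
          exact_mod_cast congrArg (fun z : ℤ => (z : ℝ)) e
        rw [e2]
        apply le_of_pow_le_pow_left₀ (n := 3) (by norm_num) (by positivity)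
        rw [mul_pow, hκ3]
        have : (((|uu 1 (a p) p.1| : ℤ) ^ 3 : ℤ) : ℝ) ≤ ((27 * K : ℤ) : ℝ) := by exact_mod_cast h1
        push_cast at this ⊢
        linarith
      omega
  set f : ℤ × ℤ → (Σ _ : ℤ, ℕ) := fun p => ⟨uu 1 (a p) p.1, (a p).toNat⟩ with hf
  have hcard : S.card ≤ (((Finset.Icc (-(M : ℤ)) M).erase 0).sigma
      (fun u : ℤ => (3 * u ^ 2).toNat.divisors)).card := by
    apply Finset.card_le_card_of_injOn f
    · intro p hp
      have hp' : p ∈ S := hp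
      obtain ⟨h1, h2, h3⟩ := key p hp'
      obtain ⟨hpar, _⟩ := hS p hp'
      rw [Finset.mem_coe, Finset.mem_sigma]
      refine ⟨?_, ?_⟩
      · rw [Finset.mem_erase, Finset.mem_Icc]
        exact ⟨h1, abs_le.1 h2⟩
      · simp only [hf]
        rw [Nat.mem_divisors]
        have ha := hpar.ha
        have e1 : ((3 * (uu 1 (a p) p.1) ^ 2).toNat : ℤ) = 3 * (uu 1 (a p) p.1) ^ 2 :=
          Int.toNat_of_nonneg (by positivity)
        constructor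
        · rw [← Int.natCast_dvd_natCast, e1, Int.toNat_of_nonneg ha.le, h3]
          exact ⟨4 * vv 1 (a p) p.1 p.2, by ring⟩
        · have : 0 < 3 * (uu 1 (a p) p.1) ^ 2 := by positivity
          omega
    · intro p hp p' hp' h
      have hpS : p ∈ S := hp
      have hpS' : p' ∈ S := hp'
      obtain ⟨_, _, h3⟩ := key p hpS
      obtain ⟨_, _, h3'⟩ := key p' hpS'
      obtain ⟨hpar, _⟩ := hS p hpS
      obtain ⟨hpar', _⟩ := hS p' hpS'
      simp only [hf, Sigma.mk.injEq, heq_eq_eq] at h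
      obtain ⟨e1, e2⟩ := h
      have ha := hpar.ha
      have ha' := hpar'.ha
      have e3 : a p = a p' := by omega
      rw [← e1, ← e3] at h3'
      have e4 : vv 1 (a p) p.1 p.2 = vv 1 (a p) p'.1 p'.2 := by
        have : 4 * (a p) * (vv 1 (a p) p.1 p.2 - vv 1 (a p) p'.1 p'.2) = 0 := by linarith
        rcases mul_eq_zero.1 this with h | h
        · omega
        · linarith
      rw [← e3] at e1
      unfold uu at e1
      unfold vv at e4
      push_cast at e1 e4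
      have e5 : p.1 = p'.1 := by linarith
      rw [e5] at e4
      have e6 : p.2 = p'.2 := by linarith
      exact Prod.ext e5 e6
  rw [Finset.card_sigma] at hcard
  have h1 : (S.card : ℝ) ≤ ∑ u ∈ (Finset.Icc (-(M : ℤ)) M).erase 0,
      (((3 * u ^ 2).toNat.divisors.card : ℕ) : ℝ) := by exact_mod_cast hcard
  refine h1.trans ?_
  have h2 : ∀ u ∈ (Finset.Icc (-(M : ℤ)) M).erase 0,
      (((3 * u ^ 2).toNat.divisors.card : ℕ) : ℝ) ≤ D := by
    intro u hu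
    rw [Finset.mem_erase, Finset.mem_Icc] at hu
    have e1 : ((3 * u ^ 2).toNat : ℤ) = 3 * u ^ 2 := Int.toNat_of_nonneg (by positivity)
    have e2 : 0 < 3 * u ^ 2 := by have := hu.1; positivity
    apply hD
    · omega
    · have e3 : (((3 * u ^ 2).toNat : ℕ) : ℝ) = 3 * (u : ℝ) ^ 2 := by
        exact_mod_cast congrArg (fun z : ℤ => (z : ℝ)) e1
      rw [e3]
      have e4 : |(u : ℝ)| ≤ 3 * T := by
        have : |u| ≤ (M : ℤ) := abs_le.2 hu.2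
        have e5 : |(u : ℝ)| ≤ (M : ℝ) := by exact_mod_cast this
        linarith
      have e6 : (u : ℝ) ^ 2 ≤ (3 * T) ^ 2 := sq_le_sq' (by linarith [(abs_le.1 e4).1])
        (abs_le.1 e4).2
      nlinarith
  refine (Finset.sum_le_sum h2).trans ?_
  rw [Finset.sum_const, nsmul_eq_mul, card_Icc_erase]
  push_cast
  nlinarith

/-- Counting the pairs with `v = 0`. -/
theorem count_v0 (T K n : ℕ) (hT : 1 ≤ T) (hK : 1 ≤ K)
    (a : ℤ × ℤ → ℤ) (S : Finset (ℤ × ℤ))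
    (hS : ∀ p ∈ S, Par T n 1 (a p) p.1 p.2 ∧ |p.2 ^ 2 - p.1 ^ 3| ≤ K ∧ ¬ IsSquare p.1 ∧
      vv 1 (a p) p.1 p.2 = 0) :
    (S.card : ℝ) ≤ 24 * Real.sqrt K := by
  have hTr : (1 : ℝ) ≤ T := by exact_mod_cast hT
  have hKr : (1 : ℝ) ≤ K := by exact_mod_cast hK
  set M := ⌊4 * Real.sqrt K / T⌋₊ with hM
  have hMle : (M : ℝ) ≤ 4 * Real.sqrt K / T := Nat.floor_le (by positivity)
  set f : ℤ × ℤ → ℤ × ℤ := fun p => (a p, uu 1 (a p) p.1) with hf
  have hcard : S.card ≤ ((Finset.Icc (1 : ℤ) (3 * T)) ×ˢ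
      ((Finset.Icc (-(M : ℤ)) M).erase 0)).card := by
    apply Finset.card_le_card_of_injOn f
    · intro p hp
      have hp' : p ∈ S := hp
      obtain ⟨hpar, hk, hsq, hv⟩ := hS p hp'
      have hx : p.1 = (a p) ^ 2 + uu 1 (a p) p.1 := by unfold uu; push_cast; ring
      have h1 := case_v0 (a p) (uu 1 (a p) p.1) p.1 p.2 K hK hpar.ha hpar.hua hx
        (by unfold vv at hv; push_cast at hv; linarith) hk
      rw [Finset.mem_coe, Finset.mem_product, Finset.mem_Icc, Finset.mem_erase, Finset.mem_Icc]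
      simp only [hf]
      have haU := hpar.haU
      have haL := hpar.haL
      push_cast at haU haL
      refine ⟨⟨by have := hpar.ha; omega, ?_⟩, ?_, ?_⟩
      · have : (a p : ℝ) ≤ ((3 * T : ℤ) : ℝ) := by push_cast; linarith
        exact_mod_cast this
      · intro h0
        apply hsq
        rw [h0] at hx
        exact ⟨a p, by rw [hx]; ring⟩
      · rw [← abs_le]
        have h2 : (|uu 1 (a p) p.1| : ℤ).toNat ≤ M := by
          apply Nat.le_floor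
          have e : ((|uu 1 (a p) p.1|.toNat : ℕ) : ℤ) = |uu 1 (a p) p.1| :=
            Int.toNat_of_nonneg (abs_nonneg _)
          have e2 : ((|uu 1 (a p) p.1|.toNat : ℕ) : ℝ) = |(uu 1 (a p) p.1 : ℝ)| := by
            have := congrArg (fun z : ℤ => (z : ℝ)) e
            push_cast at this
            exact this
          rw [e2, le_div_iff₀ (by positivity)]
          have h3 : (uu 1 (a p) p.1 : ℝ) ^ 2 * (a p : ℝ) ^ 2 ≤ 4 * K := by exact_mod_cast h1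
          apply le_of_sq_le_sq (b := 4 * Real.sqrt K) _ (by positivity)
          rw [mul_pow, mul_pow, Real.sq_sqrt (by positivity), sq_abs]
          have h4 : ((T : ℝ) / 2) ^ 2 ≤ (a p : ℝ) ^ 2 := by
            have : (T : ℝ) / 2 ≤ a p := by linarith
            gcongr
          have h5 : (uu 1 (a p) p.1 : ℝ) ^ 2 * ((T : ℝ) / 2) ^ 2 ≤
              (uu 1 (a p) p.1 : ℝ) ^ 2 * (a p : ℝ) ^ 2 := by gcongr
          nlinarith
        omega
    · intro p hp p' hp' h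
      have hpS : p ∈ S := hp
      have hpS' : p' ∈ S := hp'
      obtain ⟨hpar, _, _, hv⟩ := hS p hpS
      obtain ⟨hpar', _, _, hv'⟩ := hS p' hpS'
      simp only [hf, Prod.mk.injEq] at h
      obtain ⟨e1, e2⟩ := h
      rw [← e1] at e2 hv'
      unfold uu at e2
      unfold vv at hv hv'
      push_cast at e2 hv hv'
      have e5 : p.1 = p'.1 := by linarith
      rw [e5] at hv
      have e6 : p.2 = p'.2 := by linarith
      exact Prod.ext e5 e6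
  rw [Finset.card_product, card_Icc_erase, Int.card_Icc] at hcard
  have e1 : (3 * (T : ℤ) + 1 - 1).toNat = 3 * T := by omega
  rw [e1] at hcard
  have h1 : (S.card : ℝ) ≤ 3 * T * (2 * M) := by exact_mod_cast hcard
  refine h1.trans ?_
  calc 3 * (T : ℝ) * (2 * M) ≤ 3 * T * (2 * (4 * Real.sqrt K / T)) := by gcongr
    _ = 24 * Real.sqrt K := by field_simp; ring

/-- The core counting statement. -/
theorem core_count (T K n : ℕ) (hT : 1 ≤ T) (hK : 1 ≤ K) (hn : 1 ≤ n) (hnK : n ^ 6 * K ≤ T ^ 3)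
    (D : ℝ)
    (hD : ∀ j : ℕ, 1 ≤ j → (j : ℝ) ≤ 27 * (T : ℝ) ^ 2 → (j.divisors.card : ℝ) ≤ D)
    (S : Finset (ℤ × ℤ))
    (hS : ∀ p ∈ S, (T : ℤ) ^ 2 ≤ p.1 ∧ p.1 ≤ 4 * (T : ℤ) ^ 2 ∧ 0 ≤ p.2 ∧
      |p.2 ^ 2 - p.1 ^ 3| ≤ K ∧ ¬ IsSquare p.1) :
    (S.card : ℝ) ≤ 20000000 * D ^ 3 * (1 + Real.log (228 * T)) * (1 + Real.log n) *
      ((T : ℝ) ^ 2 / (n : ℝ) ^ 4 + T / n) + 6 * (K : ℝ) ^ (1 / 3 : ℝ) * D + 24 * Real.sqrt K := by
  have hTr : (1 : ℝ) ≤ T := by exact_mod_cast hT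
  have hKT : K ≤ T ^ 3 := by
    have : 1 * K ≤ n ^ 6 * K := Nat.mul_le_mul_right _ (Nat.one_le_pow _ _ hn)
    omega
  have hn2 : n ^ 2 ≤ T := by
    have h1 : (n ^ 2) ^ 3 ≤ T ^ 3 := by
      calc (n ^ 2) ^ 3 = n ^ 6 * 1 := by ring
        _ ≤ n ^ 6 * K := Nat.mul_le_mul_left _ hK
        _ ≤ _ := hnK
    exact (Nat.pow_le_pow_iff_left (by norm_num)).1 h1
  have hD1 : 1 ≤ D := by
    have := hD 1 le_rfl (by push_cast; nlinarith)
    simpa using this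
  have hex : ∀ p : ℤ × ℤ, ∃ q : ℕ, ∃ a : ℤ, p ∈ S → Par T n q a p.1 p.2 := by
    intro p
    by_cases hp : p ∈ S
    · obtain ⟨h1, h2, h3, h4, _⟩ := hS p hp
      obtain ⟨q, a, h⟩ := exists_par T K n hT hK hn hnK p.1 p.2 h1 h2 h3 h4
      exact ⟨q, a, fun _ => h⟩
    · exact ⟨0, 0, fun h => absurd h hp⟩
  choose q a hpar using hex
  set S0 := S.filter (fun p => ww (a p, uu (q p) (a p) p.1, vv (q p) (a p) p.1 p.2) = 0) with hS0
  set S' := S.filter (fun p => ¬ ww (a p, uu (q p) (a p) p.1, vv (q p) (a p) p.1 p.2) = 0) with hS'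
  set S1 := S'.filter (fun p => vv (q p) (a p) p.1 p.2 = 0) with hS1
  set S2 := S'.filter (fun p => ¬ vv (q p) (a p) p.1 p.2 = 0) with hS2
  have hc1 : S.card = S0.card + S'.card := (Finset.card_filter_add_card_filter_not _).symm
  have hc2 : S'.card = S1.card + S2.card := (Finset.card_filter_add_card_filter_not _).symm
  have hcardR : (S.card : ℝ) = S0.card + (S1.card + S2.card) := by
    rw [hc1, hc2]; push_cast; ring
  -- degenerate cases
  have b0 : (S0.card : ℝ) ≤ 6 * (K : ℝ) ^ (1 / 3 : ℝ) * D := by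
    apply count_w0 T K n hT hK hKT D hD a S0
    intro p hp
    rw [hS0, Finset.mem_filter] at hp
    have hp1 := hpar p hp.1
    have hq1 := q_eq_one_of_ww _ _ _ _ hp1.cop hp.2
    obtain ⟨_, _, _, h4, h5⟩ := hS p hp.1
    rw [hq1] at hp1 hp
    exact ⟨hp1, h4, h5, hp.2⟩
  have b1 : (S1.card : ℝ) ≤ 24 * Real.sqrt K := by
    apply count_v0 T K n hT hK a S1
    intro p hp
    rw [hS1, Finset.mem_filter, hS', Finset.mem_filter] at hp
    have hp1 := hpar p hp.1.1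
    have hq1 := q_eq_one_of_vv _ _ _ _ hp1.cop hp.2
    obtain ⟨_, _, _, h4, h5⟩ := hS p hp.1.1
    rw [hq1] at hp1 hp
    exact ⟨hp1, h4, h5, hp.2⟩
  have b2 : (S2.card : ℝ) ≤ 20000000 * D ^ 3 * (1 + Real.log (228 * T)) * (1 + Real.log n) *
      ((T : ℝ) ^ 2 / (n : ℝ) ^ 4 + T / n) := by
    have hmaps : Set.MapsTo q (↑S2 : Set (ℤ × ℤ)) (↑(Finset.Icc 1 n) : Set ℕ) := by
      intro p hp
      have hp' : p ∈ S2 := hp
      rw [hS2, Finset.mem_filter, hS', Finset.mem_filter] at hp'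
      have hp1 := hpar p hp'.1.1
      simp only [Finset.coe_Icc, Set.mem_Icc]
      exact ⟨hp1.hq, hp1.hqn⟩
    rw [Finset.card_eq_sum_card_fiberwise hmaps]
    push_cast
    have hstep : ∀ b ∈ Finset.Icc 1 n, (({p ∈ S2 | q p = b}).card : ℝ) ≤
        20000000 * D ^ 3 * (1 + Real.log (228 * T)) *
          (((T : ℝ) ^ 2 / (n : ℝ) ^ 4 + T / n) * (1 / b)) := by
      intro b hb
      rw [Finset.mem_Icc] at hb
      apply main_q T n b hT hb.1 hb.2 hn2 D hD a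
      intro p hp
      rw [Finset.mem_filter, hS2, Finset.mem_filter, hS', Finset.mem_filter] at hp
      obtain ⟨⟨⟨h1, h2⟩, h3⟩, h4⟩ := hp
      have hp1 := hpar p h1
      rw [h4] at hp1 h2 h3
      exact ⟨hp1, h3, h2⟩
    refine (Finset.sum_le_sum hstep).trans ?_
    rw [← Finset.mul_sum, ← Finset.mul_sum]
    have hharm : ∑ c ∈ Finset.Icc 1 n, 1 / (c : ℝ) ≤ 1 + Real.log n := by
      have := harmonic_le_one_add_log n
      rw [harmonic_eq_sum_Icc] at this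
      push_cast at this
      simpa [one_div] using this
    have hl : 0 ≤ Real.log (228 * T) := Real.log_nonneg (by linarith)
    calc 20000000 * D ^ 3 * (1 + Real.log (228 * T)) *
          (((T : ℝ) ^ 2 / (n : ℝ) ^ 4 + T / n) * ∑ c ∈ Finset.Icc 1 n, 1 / (c : ℝ))
        ≤ 20000000 * D ^ 3 * (1 + Real.log (228 * T)) *
          (((T : ℝ) ^ 2 / (n : ℝ) ^ 4 + T / n) * (1 + Real.log n)) := by gcongr
      _ = _ := by ring
  rw [hcardR]
  linarith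

end Pool.Agent.Work.MP_f2148a_nt
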