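import Mathlib
import Pool.Agent.Work.MP_f2148a_nt.Core

set_option autoImplicit false
set_option maxHeartbeats 2000000

namespace Pool.Agent.Work.MP_f2148a_nt

open Finset

theorem log_factor_bound (ε : ℝ) (hε : 0 < ε) : ∃ C : ℝ, 1 ≤ C ∧ ∀ T : ℕ, 1 ≤ T →
    1 + Real.log (228 * T) ≤ C * (T : ℝ) ^ ε := by
  refine ⟨1 + Real.log 228 + 1 / ε, ?_, ?_⟩
  · have h1 : 0 ≤ Real.log 228 := Real.log_nonneg (by norm_num)
    have h2 : 0 ≤ 1 / ε := by positivity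
    linarith
  · intro T hT
    have hTr : (1 : ℝ) ≤ T := by exact_mod_cast hT
    have h1 : 0 ≤ Real.log 228 := Real.log_nonneg (by norm_num)
    have h3 : (1 : ℝ) ≤ (T : ℝ) ^ ε := Real.one_le_rpow hTr hε.le
    have h4 : Real.log T ≤ (T : ℝ) ^ ε / ε := Real.log_le_rpow_div (by positivity) hε
    rw [Real.log_mul (by norm_num) (by positivity)]
    have h5 : (1 + Real.log 228) ≤ (1 + Real.log 228) * (T : ℝ) ^ ε := by nlinarith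
    have h6 : (1 + Real.log 228 + 1 / ε) * (T : ℝ) ^ ε =
      (1 + Real.log 228) * (T : ℝ) ^ ε + (T : ℝ) ^ ε / ε := by ring
    rw [h6]; linarith

/-- Uniform bound for the number of integral points `(x, y)` with `T ≤ √x ≤ 2T`, `x` not a
square, `y ≥ 0` and `|y² - x³| ≤ K`. -/
theorem main_count_nonneg (ε : ℝ) (hε : 0 < ε) : ∃ A : ℝ, 1 ≤ A ∧ ∀ T K : ℕ, 1 ≤ T → 1 ≤ K →
    K ≤ T ^ 3 → ∀ S : Finset (ℤ × ℤ),
    (∀ p ∈ S, (T : ℤ) ^ 2 ≤ p.1 ∧ p.1 ≤ 4 * (T : ℤ) ^ 2 ∧ 0 ≤ p.2 ∧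
      |p.2 ^ 2 - p.1 ^ 3| ≤ K ∧ ¬ IsSquare p.1) →
    (S.card : ℝ) ≤ A * (T : ℝ) ^ ε *
      ((K : ℝ) ^ (2 / 3 : ℝ) + (T : ℝ) ^ (1 / 2 : ℝ) * (K : ℝ) ^ (1 / 6 : ℝ)) := by
  set ε' := ε / 8 with hε'
  have hε'0 : 0 < ε' := by positivity
  obtain ⟨A0, hA0, hdiv⟩ := exists_card_divisors_le ε' hε'0
  obtain ⟨C, hC, hlog⟩ := log_factor_bound ε' hε'0
  refine ⟨20000000 * (A0 * (27 : ℝ) ^ ε') ^ 3 * C * C * 16 +
    6 * (A0 * (27 : ℝ) ^ ε') ^ 3 + 24, ?_, ?_⟩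
  · have : 0 ≤ 20000000 * (A0 * (27 : ℝ) ^ ε') ^ 3 * C * C * 16 + 6 * (A0 * (27 : ℝ) ^ ε') ^ 3 := by
      positivity
    linarith
  intro T K hT hK hKT S hS
  have hTr : (1 : ℝ) ≤ T := by exact_mod_cast hT
  have hKr : (1 : ℝ) ≤ K := by exact_mod_cast hK
  have hKTr : (K : ℝ) ≤ (T : ℝ) ^ 3 := by exact_mod_cast hKT
  -- the Dirichlet parameter
  set ρ := (T : ℝ) ^ (1 / 2 : ℝ) * (K : ℝ) ^ (-(1 / 6) : ℝ) with hρ
  have hρ0 : 0 < ρ := by positivity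
  have hρ6 : ρ ^ 6 * K = (T : ℝ) ^ 3 := by
    rw [hρ, mul_pow, ← Real.rpow_natCast, ← Real.rpow_natCast, ← Real.rpow_mul (by positivity),
      ← Real.rpow_mul (by positivity)]
    norm_num
    rw [Real.rpow_neg_one]
    field_simp
  have hρ1 : 1 ≤ ρ := by
    by_contra hcon
    push Not at hcon
    have h1 : ρ ^ 6 < 1 := pow_lt_one₀ hρ0.le hcon (by norm_num)
    have h2 : ρ ^ 6 * K < K := by nlinarith
    linarith
  set n := ⌊ρ⌋₊ with hn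
  have hn1 : 1 ≤ n := Nat.le_floor (by exact_mod_cast hρ1)
  have hnr : (1 : ℝ) ≤ n := by exact_mod_cast hn1
  have hnle : (n : ℝ) ≤ ρ := Nat.floor_le hρ0.le
  have hlt : ρ < n + 1 := Nat.lt_floor_add_one ρ
  have hn2 : ρ / 2 ≤ n := by linarith
  have hnK : n ^ 6 * K ≤ T ^ 3 := by
    have : (n : ℝ) ^ 6 * K ≤ (T : ℝ) ^ 3 := by
      rw [← hρ6]; gcongr
    exact_mod_cast this
  -- divisor bound
  set D := A0 * (27 : ℝ) ^ ε' * (T : ℝ) ^ (2 * ε') with hD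
  have hDpos : 0 < D := by positivity
  have hDb : ∀ j : ℕ, 1 ≤ j → (j : ℝ) ≤ 27 * (T : ℝ) ^ 2 → (j.divisors.card : ℝ) ≤ D := by
    intro j hj1 hj2
    refine (hdiv j hj1).trans ?_
    rw [hD, mul_assoc]
    apply mul_le_mul_of_nonneg_left _ (by linarith)
    calc (j : ℝ) ^ ε' ≤ (27 * (T : ℝ) ^ 2) ^ ε' := Real.rpow_le_rpow (by positivity) hj2 hε'0.le
      _ = (27 : ℝ) ^ ε' * (T : ℝ) ^ (2 * ε') := by
        rw [Real.mul_rpow (by norm_num) (by positivity), ← Real.rpow_natCast (T : ℝ) 2,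
          ← Real.rpow_mul (by positivity)]
        norm_num
  have hcore := core_count T K n hT hK hn1 hnK D hDb S hS
  -- compare the main quantities
  set Z := (K : ℝ) ^ (2 / 3 : ℝ) + (T : ℝ) ^ (1 / 2 : ℝ) * (K : ℝ) ^ (1 / 6 : ℝ) with hZ
  have hK23 : (K : ℝ) ^ (2 / 3 : ℝ) ≤ Z := by
    rw [hZ]; have : 0 ≤ (T : ℝ) ^ (1 / 2 : ℝ) * (K : ℝ) ^ (1 / 6 : ℝ) := by positivity
    linarith
  have hY : (T : ℝ) ^ 2 / (n : ℝ) ^ 4 + T / n ≤ 16 * Z := by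
    have h1 : (T : ℝ) ^ 2 / (n : ℝ) ^ 4 ≤ 16 * (K : ℝ) ^ (2 / 3 : ℝ) := by
      have e1 : (T : ℝ) ^ 2 = (K : ℝ) ^ (2 / 3 : ℝ) * ρ ^ 4 := by
        rw [hρ, mul_pow, ← Real.rpow_natCast, ← Real.rpow_natCast, ← Real.rpow_natCast,
          ← Real.rpow_mul (by positivity), ← Real.rpow_mul (by positivity)]
        rw [mul_comm ((T : ℝ) ^ _), ← mul_assoc, ← Real.rpow_add (by positivity)]
        norm_num
      rw [div_le_iff₀ (by positivity), e1]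
      have e2 : ρ ^ 4 ≤ (2 * n) ^ 4 := by
        gcongr; linarith
      calc (K : ℝ) ^ (2 / 3 : ℝ) * ρ ^ 4 ≤ (K : ℝ) ^ (2 / 3 : ℝ) * (2 * n) ^ 4 := by gcongr
        _ = 16 * (K : ℝ) ^ (2 / 3 : ℝ) * (n : ℝ) ^ 4 := by ring
    have h2 : (T : ℝ) / n ≤ 2 * ((T : ℝ) ^ (1 / 2 : ℝ) * (K : ℝ) ^ (1 / 6 : ℝ)) := by
      have e1 : (T : ℝ) = (T : ℝ) ^ (1 / 2 : ℝ) * (K : ℝ) ^ (1 / 6 : ℝ) * ρ := by
        rw [hρ]
        have : (T : ℝ) ^ (1 / 2 : ℝ) * (K : ℝ) ^ (1 / 6 : ℝ) *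
            ((T : ℝ) ^ (1 / 2 : ℝ) * (K : ℝ) ^ (-(1 / 6) : ℝ)) =
            ((T : ℝ) ^ (1 / 2 : ℝ) * (T : ℝ) ^ (1 / 2 : ℝ)) *
            ((K : ℝ) ^ (1 / 6 : ℝ) * (K : ℝ) ^ (-(1 / 6) : ℝ)) := by ring
        rw [this, ← Real.rpow_add (by positivity), ← Real.rpow_add (by positivity)]
        norm_num
      rw [div_le_iff₀ (by positivity)]
      calc (T : ℝ) = (T : ℝ) ^ (1 / 2 : ℝ) * (K : ℝ) ^ (1 / 6 : ℝ) * ρ := e1
        _ ≤ (T : ℝ) ^ (1 / 2 : ℝ) * (K : ℝ) ^ (1 / 6 : ℝ) * (2 * n) := by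
          gcongr; linarith
        _ = _ := by ring
    have h3 : 0 ≤ (T : ℝ) ^ (1 / 2 : ℝ) * (K : ℝ) ^ (1 / 6 : ℝ) := by positivity
    rw [hZ]; linarith
  have hZ0 : 0 ≤ Z := by positivity
  have hK13 : (K : ℝ) ^ (1 / 3 : ℝ) ≤ Z :=
    (Real.rpow_le_rpow_of_exponent_le hKr (by norm_num)).trans hK23
  have hK12 : Real.sqrt K ≤ Z := by
    rw [Real.sqrt_eq_rpow]
    exact (Real.rpow_le_rpow_of_exponent_le hKr (by norm_num)).trans hK23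
  have hL1 : 1 + Real.log (228 * T) ≤ C * (T : ℝ) ^ ε' := hlog T hT
  have hL2 : 1 + Real.log n ≤ C * (T : ℝ) ^ ε' := by
    refine le_trans ?_ hL1
    have hnT : (n : ℝ) ≤ 228 * T := by
      have h1 : (n : ℝ) ^ 6 * 1 ≤ (n : ℝ) ^ 6 * K := by gcongr
      have h2 : (n : ℝ) ^ 6 * K ≤ (T : ℝ) ^ 3 := by exact_mod_cast hnK
      have h3 : ((n : ℝ) ^ 2) ^ 3 ≤ (T : ℝ) ^ 3 := by nlinarith
      have h4 : (n : ℝ) ^ 2 ≤ T := le_of_pow_le_pow_left₀ (by norm_num) (by positivity) h3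
      nlinarith
    have := Real.log_le_log (by linarith) hnT
    linarith
  have hl0 : 0 ≤ 1 + Real.log (228 * T) := by
    have := Real.log_nonneg (show (1 : ℝ) ≤ 228 * T by linarith)
    linarith
  have hl1 : 0 ≤ 1 + Real.log n := by
    have := Real.log_nonneg hnr
    linarith
  set B := A0 * (27 : ℝ) ^ ε' with hB
  have hB0 : 0 < B := by positivity
  have hDB : D = B * (T : ℝ) ^ (2 * ε') := hD
  have hT8 : (T : ℝ) ^ ε = ((T : ℝ) ^ (2 * ε')) ^ 3 * (T : ℝ) ^ ε' * (T : ℝ) ^ ε' := by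
    rw [← Real.rpow_natCast, ← Real.rpow_mul (by positivity), ← Real.rpow_add (by positivity),
      ← Real.rpow_add (by positivity)]
    congr 1
    rw [hε']; push_cast; ring
  have hTε1 : 1 ≤ (T : ℝ) ^ ε := Real.one_le_rpow hTr hε.le
  have hm : 20000000 * D ^ 3 * (1 + Real.log (228 * T)) * (1 + Real.log n) *
      ((T : ℝ) ^ 2 / (n : ℝ) ^ 4 + T / n) ≤ (20000000 * B ^ 3 * C * C * 16) * (T : ℝ) ^ ε * Z := by
    calc 20000000 * D ^ 3 * (1 + Real.log (228 * T)) * (1 + Real.log n) *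
      ((T : ℝ) ^ 2 / (n : ℝ) ^ 4 + T / n)
        ≤ 20000000 * D ^ 3 * (C * (T : ℝ) ^ ε') * (C * (T : ℝ) ^ ε') * (16 * Z) := by
          gcongr
      _ = _ := by rw [hDB, hT8]; ring
  have hsec : 6 * (K : ℝ) ^ (1 / 3 : ℝ) * D ≤ (6 * B ^ 3) * (T : ℝ) ^ ε * Z := by
    have e1 : D ≤ B ^ 3 * (T : ℝ) ^ ε := by
      rw [hDB]
      have hB1 : 1 ≤ B := by
        have : (1 : ℝ) ≤ (27 : ℝ) ^ ε' := Real.one_le_rpow (by norm_num) hε'0.le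
        nlinarith
      have e2 : B ≤ B ^ 3 := le_self_pow₀ hB1 (by norm_num)
      have e3 : (T : ℝ) ^ (2 * ε') ≤ (T : ℝ) ^ ε :=
        Real.rpow_le_rpow_of_exponent_le hTr (by rw [hε']; linarith)
      gcongr
    calc 6 * (K : ℝ) ^ (1 / 3 : ℝ) * D ≤ 6 * Z * (B ^ 3 * (T : ℝ) ^ ε) := by gcongr
      _ = _ := by ring
  have hthird : 24 * Real.sqrt K ≤ 24 * (T : ℝ) ^ ε * Z := by
    calc 24 * Real.sqrt K ≤ 24 * Z := by gcongr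
      _ = 24 * 1 * Z := by ring
      _ ≤ 24 * (T : ℝ) ^ ε * Z := by gcongr
  calc (S.card : ℝ) ≤ _ := hcore
    _ ≤ (20000000 * B ^ 3 * C * C * 16) * (T : ℝ) ^ ε * Z + (6 * B ^ 3) * (T : ℝ) ^ ε * Z +
        24 * (T : ℝ) ^ ε * Z := by linarith
    _ = _ := by ring

/-- The same bound without a sign condition on `y`. -/
theorem main_count (ε : ℝ) (hε : 0 < ε) : ∃ A : ℝ, 1 ≤ A ∧ ∀ T K : ℕ, 1 ≤ T → 1 ≤ K →
    K ≤ T ^ 3 → ∀ S : Finset (ℤ × ℤ),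
    (∀ p ∈ S, (T : ℤ) ^ 2 ≤ p.1 ∧ p.1 ≤ 4 * (T : ℤ) ^ 2 ∧
      |p.2 ^ 2 - p.1 ^ 3| ≤ K ∧ ¬ IsSquare p.1) →
    (S.card : ℝ) ≤ A * (T : ℝ) ^ ε *
      ((K : ℝ) ^ (2 / 3 : ℝ) + (T : ℝ) ^ (1 / 2 : ℝ) * (K : ℝ) ^ (1 / 6 : ℝ)) := by
  obtain ⟨A, hA, h⟩ := main_count_nonneg ε hε
  refine ⟨2 * A, by linarith, ?_⟩
  intro T K hT hK hKT S hS
  set S1 := S.filter (fun p => 0 ≤ p.2) with hS1
  set S2 := S.filter (fun p => ¬ 0 ≤ p.2) with hS2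
  have hc : S.card = S1.card + S2.card := (Finset.card_filter_add_card_filter_not _).symm
  have h1 := h T K hT hK hKT S1 (by
    intro p hp
    rw [hS1, Finset.mem_filter] at hp
    obtain ⟨a1, a2, a3, a4⟩ := hS p hp.1
    exact ⟨a1, a2, hp.2, a3, a4⟩)
  have h2 := h T K hT hK hKT (S2.image (fun p => (p.1, -p.2))) (by
    intro p hp
    rw [Finset.mem_image] at hp
    obtain ⟨s, hs, rfl⟩ := hp
    rw [hS2, Finset.mem_filter] at hs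
    obtain ⟨a1, a2, a3, a4⟩ := hS s hs.1
    refine ⟨a1, a2, by simp only; omega, ?_, a4⟩
    simp only [even_two, Even.neg_pow]
    exact a3)
  rw [Finset.card_image_of_injective _ (by
    intro p p' hpp
    simp only [Prod.mk.injEq, neg_inj] at hpp
    exact Prod.ext hpp.1 hpp.2)] at h2
  have : (S.card : ℝ) = S1.card + S2.card := by rw [hc]; push_cast; ring
  rw [this]
  linarith

end Pool.Agent.Work.MP_f2148a_nt
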