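import Mathlib
import Pool.Agent.Work.MP_f2148a_nt.MainCount

set_option autoImplicit false
set_option maxHeartbeats 2000000

namespace Pool.Agent.Work.MP_f2148a_nt

open Finset

/-- The dyadic scale of `√x`. -/
def dy (x : ℤ) : ℕ := Nat.log 2 (Nat.sqrt x.toNat)

theorem dy_spec (x : ℤ) (hx : 1 ≤ x) :
    ((2 ^ dy x : ℕ) : ℤ) ^ 2 ≤ x ∧ x ≤ 4 * ((2 ^ dy x : ℕ) : ℤ) ^ 2 := by
  unfold dy
  obtain ⟨m, rfl⟩ := Int.eq_ofNat_of_zero_le (by omega : 0 ≤ x)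
  simp only [Int.toNat_natCast]
  have hm : 1 ≤ m := by exact_mod_cast hx
  have hs : Nat.sqrt m ≠ 0 := by
    have : 0 < Nat.sqrt m := Nat.sqrt_pos.2 hm
    omega
  set s := Nat.sqrt m with hs'
  have h1 : 2 ^ Nat.log 2 s ≤ s := Nat.pow_log_le_self 2 hs
  have h2 : s < 2 ^ (Nat.log 2 s + 1) := Nat.lt_pow_succ_log_self (by norm_num) s
  have h3 : s * s ≤ m := Nat.sqrt_le m
  have h4 : m < (s + 1) * (s + 1) := Nat.lt_succ_sqrt m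
  constructor
  · have : (2 ^ Nat.log 2 s) ^ 2 ≤ m := by
      calc (2 ^ Nat.log 2 s) ^ 2 ≤ s ^ 2 := Nat.pow_le_pow_left h1 2
        _ = s * s := by ring
        _ ≤ m := h3
    exact_mod_cast this
  · have : m ≤ 4 * (2 ^ Nat.log 2 s) ^ 2 := by
      rw [pow_succ] at h2
      have h5 : s + 1 ≤ 2 ^ Nat.log 2 s * 2 := h2
      calc m ≤ (s + 1) * (s + 1) := h4.le
        _ ≤ (2 ^ Nat.log 2 s * 2) * (2 ^ Nat.log 2 s * 2) := Nat.mul_le_mul h5 h5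
        _ = 4 * (2 ^ Nat.log 2 s) ^ 2 := by ring
    exact_mod_cast this

theorem geo_sum (α : ℝ) (hα : 0 < α) : ∃ G : ℝ, 0 < G ∧ ∀ J : ℕ,
    ∑ j ∈ Finset.range (J + 1), ((2 : ℝ) ^ j) ^ α ≤ G * ((2 : ℝ) ^ J) ^ α := by
  set r := (2 : ℝ) ^ α with hr
  have hr1 : 1 < r := Real.one_lt_rpow (by norm_num) hα
  have hpow : ∀ j : ℕ, ((2 : ℝ) ^ j) ^ α = r ^ j := by
    intro j
    rw [hr, ← Real.rpow_natCast, ← Real.rpow_natCast, ← Real.rpow_mul (by norm_num),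
      ← Real.rpow_mul (by norm_num), mul_comm]
  refine ⟨r / (r - 1), by apply div_pos <;> linarith, fun J => ?_⟩
  simp_rw [hpow]
  rw [geom_sum_eq hr1.ne', div_mul_eq_mul_div]
  apply div_le_div_of_nonneg_right _ (by linarith)
  rw [pow_succ]
  linarith

/-- If `x` is a positive square then `y² - x³` is zero or large. -/
theorem square_case (T : ℕ) (x y : ℤ) (hx1 : (T : ℤ) ^ 2 ≤ x) (hne : y ^ 2 ≠ x ^ 3)
    (hsq : IsSquare x) : (T : ℤ) ^ 3 ≤ |y ^ 2 - x ^ 3| := by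
  obtain ⟨s, hs⟩ := hsq
  have hT0 : (0 : ℤ) ≤ T := Int.natCast_nonneg T
  have h1 : (T : ℤ) ≤ |s| := by
    have h2 : (T : ℤ) ^ 2 ≤ |s| ^ 2 := by rw [sq_abs]; nlinarith
    exact le_of_pow_le_pow_left₀ (by norm_num) (abs_nonneg _) h2
  have h3 : y ^ 2 - x ^ 3 = (|y| - |s| ^ 3) * (|y| + |s| ^ 3) := by
    have e1 : (|y| - |s| ^ 3) * (|y| + |s| ^ 3) = |y| ^ 2 - (|s| ^ 2) ^ 3 := by ring
    rw [e1, sq_abs, sq_abs, hs]; ring
  have h4 : |y| - |s| ^ 3 ≠ 0 := by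
    intro h
    apply hne
    have : y ^ 2 - x ^ 3 = 0 := by rw [h3, h]; ring
    linarith
  rw [h3, abs_mul]
  have h5 : 1 ≤ |(|y| - |s| ^ 3)| := Int.one_le_abs h4
  have h6 : (T : ℤ) ^ 3 ≤ |s| ^ 3 := by gcongr
  have h7 : (T : ℤ) ^ 3 ≤ |(|y| + |s| ^ 3)| := by
    rw [abs_of_nonneg (by positivity)]
    have := abs_nonneg y
    linarith
  have h8 : (0 : ℤ) ≤ (T : ℤ) ^ 3 := by positivity
  nlinarith

/-- Violations with bounded first coordinate lie in a fixed box. -/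
theorem small_x_box (C X0 : ℝ) (hC : 0 < C) (hX0 : 1 ≤ X0) (x y : ℤ) (hx : (x : ℝ) < X0)
    (hviol : C * |(y : ℝ) ^ 2 - (x : ℝ) ^ 3| ^ 3 < max |(x : ℝ)| |(y : ℝ)|) :
    |(x : ℝ)| ≤ 2 * X0 ^ 2 + 8 / C + 1 ∧ |(y : ℝ)| ≤ 2 * X0 ^ 2 + 8 / C + 1 := by
  set B := 2 * X0 ^ 2 + 8 / C + 1 with hB
  have h8 : 0 < 8 / C := by positivity
  have hX2 : X0 ≤ X0 ^ 2 := by nlinarith
  suffices h : max |(x : ℝ)| |(y : ℝ)| ≤ B from
    ⟨(le_max_left _ _).trans h, (le_max_right _ _).trans h⟩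
  by_contra hcon
  push Not at hcon
  rcases le_total |(x : ℝ)| |(y : ℝ)| with hxy | hxy
  · rw [max_eq_right hxy] at hviol hcon
    -- `y` large
    have h1 : (1 : ℝ) ≤ |(y : ℝ)| := by linarith [sq_nonneg X0]
    have h2 : (x : ℝ) ^ 3 ≤ X0 ^ 3 := by
      rcases le_or_gt 0 (x : ℝ) with h | h
      · gcongr
      · have : (x : ℝ) ^ 3 < 0 := by
          have := mul_pos_of_neg_of_neg h h
          nlinarith
        have : 0 ≤ X0 ^ 3 := by positivity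
        linarith
    have h3 : X0 ^ 3 ≤ |(y : ℝ)| ^ 2 / 2 := by
      have e1 : (2 * X0 ^ 2) ^ 2 ≤ |(y : ℝ)| ^ 2 := by
        have : 2 * X0 ^ 2 ≤ |(y : ℝ)| := by linarith
        gcongr
      have e2 : X0 ^ 3 ≤ X0 ^ 4 := pow_le_pow_right₀ hX0 (by norm_num)
      nlinarith
    have h4 : |(y : ℝ)| ^ 2 / 2 ≤ |(y : ℝ) ^ 2 - (x : ℝ) ^ 3| := by
      refine le_trans ?_ (le_abs_self _)
      rw [sq_abs] at h3 ⊢
      linarith
    have h5 : C * (|(y : ℝ)| ^ 2 / 2) ^ 3 ≤ C * |(y : ℝ) ^ 2 - (x : ℝ) ^ 3| ^ 3 := by gcongr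
    have h6 : 8 < C * |(y : ℝ)| := by
      have : 8 / C < |(y : ℝ)| := by linarith [sq_nonneg X0]
      rw [div_lt_iff₀ hC] at this
      linarith
    have h7 : |(y : ℝ)| ≤ C * (|(y : ℝ)| ^ 2 / 2) ^ 3 := by
      have e1 : C * (|(y : ℝ)| ^ 2 / 2) ^ 3 = (C * |(y : ℝ)|) * |(y : ℝ)| ^ 4 / 8 * |(y : ℝ)| := by
        ring
      rw [e1]
      have e2 : 1 ≤ |(y : ℝ)| ^ 4 := one_le_pow₀ h1
      have e3 : 1 ≤ (C * |(y : ℝ)|) * |(y : ℝ)| ^ 4 / 8 := by nlinarith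
      nlinarith
    linarith
  · rw [max_eq_left hxy] at hviol hcon
    have hxneg : (x : ℝ) < 0 := by
      by_contra h
      push Not at h
      rw [abs_of_nonneg h] at hcon
      linarith
    have h1 : (1 : ℝ) ≤ |(x : ℝ)| := by linarith [sq_nonneg X0]
    have h2 : |(x : ℝ)| ^ 3 ≤ |(y : ℝ) ^ 2 - (x : ℝ) ^ 3| := by
      refine le_trans ?_ (le_abs_self _)
      rw [abs_of_neg hxneg]
      have := sq_nonneg (y : ℝ)
      nlinarith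
    have h5 : C * (|(x : ℝ)| ^ 3) ^ 3 ≤ C * |(y : ℝ) ^ 2 - (x : ℝ) ^ 3| ^ 3 := by gcongr
    have h6 : 8 < C * |(x : ℝ)| := by
      have : 8 / C < |(x : ℝ)| := by linarith [sq_nonneg X0]
      rw [div_lt_iff₀ hC] at this
      linarith
    have h7 : |(x : ℝ)| ≤ C * (|(x : ℝ)| ^ 3) ^ 3 := by
      have e1 : C * (|(x : ℝ)| ^ 3) ^ 3 = (C * |(x : ℝ)|) * |(x : ℝ)| ^ 7 * |(x : ℝ)| := by
        ring
      rw [e1]
      have e2 : 1 ≤ |(x : ℝ)| ^ 7 := one_le_pow₀ h1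
      have e3 : 1 ≤ (C * |(x : ℝ)|) * |(x : ℝ)| ^ 7 := by nlinarith
      nlinarith
    linarith

/-- Violations with large `x`: consequences for the dyadic block. -/
theorem large_x_block (C c X0 M : ℝ) (hC : 0 < C) (hc : c = 256 / C ^ 2 + 1)
    (hX0 : X0 = 3 / C + 8 * c + 1)
    (T : ℕ) (hT : 1 ≤ T) (x y : ℤ) (hx : X0 ≤ (x : ℝ)) (hx1 : (T : ℤ) ^ 2 ≤ x)
    (hx2 : x ≤ 4 * (T : ℤ) ^ 2) (hne : y ^ 2 ≠ x ^ 3) (hyM : |(y : ℝ)| ≤ M)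
    (hviol : C * |(y : ℝ) ^ 2 - (x : ℝ) ^ 3| ^ 3 < max |(x : ℝ)| |(y : ℝ)|) :
    |(y : ℝ) ^ 2 - (x : ℝ) ^ 3| ≤ c * T ∧ 2 * c ≤ (T : ℝ) ^ 2 ∧ ¬ IsSquare x ∧
      (T : ℝ) ^ 3 ≤ 2 * M := by
  have h3C : 0 < 3 / C := by positivity
  have hc1 : 1 ≤ c := by rw [hc]; have : 0 < 256 / C ^ 2 := by positivity
                         linarith
  have hX1 : 1 ≤ X0 := by rw [hX0]; linarith
  have hx1r : (1 : ℝ) ≤ x := by linarith
  have hTr : (1 : ℝ) ≤ T := by exact_mod_cast hT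
  have hxT1 : (T : ℝ) ^ 2 ≤ x := by exact_mod_cast hx1
  have hxT2 : (x : ℝ) ≤ 4 * (T : ℝ) ^ 2 := by exact_mod_cast hx2
  have hT2 : 2 * c ≤ (T : ℝ) ^ 2 := by
    have : 8 * c ≤ x := by rw [hX0] at hx; linarith
    linarith
  have hxabs : |(x : ℝ)| = x := abs_of_nonneg (by linarith)
  -- first: y ^ 2 ≤ 4 x ^ 3
  have hy4 : (y : ℝ) ^ 2 ≤ 4 * (x : ℝ) ^ 3 := by
    by_contra hcon
    push Not at hcon
    have hxx : (x : ℝ) ^ 2 ≤ (x : ℝ) ^ 3 := pow_le_pow_right₀ hx1r (by norm_num)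
    have h1 : (x : ℝ) ≤ |(y : ℝ)| := by
      apply le_of_sq_le_sq _ (abs_nonneg _)
      rw [sq_abs]
      have : 0 ≤ (x : ℝ) ^ 3 := by positivity
      linarith
    rw [max_eq_right (by rw [hxabs]; exact h1)] at hviol
    have h2 : 3 / 4 * |(y : ℝ)| ^ 2 ≤ |(y : ℝ) ^ 2 - (x : ℝ) ^ 3| := by
      refine le_trans ?_ (le_abs_self _)
      rw [sq_abs]; linarith
    have h3 : C * (3 / 4 * |(y : ℝ)| ^ 2) ^ 3 ≤ C * |(y : ℝ) ^ 2 - (x : ℝ) ^ 3| ^ 3 := by gcongr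
    have hy1 : 1 ≤ |(y : ℝ)| := by linarith
    have h6 : 3 < C * |(y : ℝ)| := by
      have : 3 / C < |(y : ℝ)| := by
        rw [hX0] at hx; linarith
      rw [div_lt_iff₀ hC] at this
      linarith
    have h7 : |(y : ℝ)| ≤ C * (3 / 4 * |(y : ℝ)| ^ 2) ^ 3 := by
      have e1 : C * (3 / 4 * |(y : ℝ)| ^ 2) ^ 3 =
          (C * |(y : ℝ)|) * |(y : ℝ)| ^ 4 * (27 / 64) * |(y : ℝ)| := by ring
      rw [e1]
      have e2 : 1 ≤ |(y : ℝ)| ^ 4 := one_le_pow₀ hy1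
      have e3 : 1 ≤ (C * |(y : ℝ)|) * |(y : ℝ)| ^ 4 * (27 / 64) := by nlinarith
      nlinarith
    linarith
  -- bound on the maximum
  set k := |(y : ℝ) ^ 2 - (x : ℝ) ^ 3| with hk
  have hk0 : 0 ≤ k := abs_nonneg _
  have hmax : (max |(x : ℝ)| |(y : ℝ)|) ^ 2 ≤ 256 * (T : ℝ) ^ 6 := by
    have h1 : (x : ℝ) ^ 3 ≤ 64 * (T : ℝ) ^ 6 := by
      calc (x : ℝ) ^ 3 ≤ (4 * (T : ℝ) ^ 2) ^ 3 := by gcongr
        _ = 64 * (T : ℝ) ^ 6 := by ring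
    have hxx : (x : ℝ) ^ 2 ≤ (x : ℝ) ^ 3 := pow_le_pow_right₀ hx1r (by norm_num)
    rcases max_choice |(x : ℝ)| |(y : ℝ)| with h | h
    · rw [h, sq_abs]
      have : (0 : ℝ) ≤ (T : ℝ) ^ 6 := by positivity
      linarith
    · rw [h, sq_abs]; linarith
  have hk6 : C ^ 2 * k ^ 6 ≤ 256 * (T : ℝ) ^ 6 := by
    have h1 : (C * k ^ 3) ^ 2 ≤ (max |(x : ℝ)| |(y : ℝ)|) ^ 2 := by
      have : 0 ≤ C * k ^ 3 := by positivity
      gcongr
    calc C ^ 2 * k ^ 6 = (C * k ^ 3) ^ 2 := by ring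
      _ ≤ _ := h1
      _ ≤ _ := hmax
  have hkc : k ≤ c * T := by
    apply le_of_pow_le_pow_left₀ (n := 6) (by norm_num) (by positivity)
    have h1 : k ^ 6 ≤ 256 / C ^ 2 * (T : ℝ) ^ 6 := by
      rw [div_mul_eq_mul_div, le_div_iff₀ (by positivity)]
      linarith
    have h2 : 256 / C ^ 2 ≤ c ^ 6 := by
      calc 256 / C ^ 2 ≤ c := by rw [hc]; linarith
        _ ≤ c ^ 6 := le_self_pow₀ hc1 (by norm_num)
    calc k ^ 6 ≤ 256 / C ^ 2 * (T : ℝ) ^ 6 := h1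
      _ ≤ c ^ 6 * (T : ℝ) ^ 6 := by gcongr
      _ = (c * T) ^ 6 := by ring
  refine ⟨hkc, hT2, ?_, ?_⟩
  · intro hsq
    have h1 := square_case T x y hx1 hne hsq
    have h2 : (T : ℝ) ^ 3 ≤ k := by
      rw [hk]; exact_mod_cast h1
    have h3 : (T : ℝ) ^ 3 = (T : ℝ) ^ 2 * T := by ring
    nlinarith
  · have h1 : (T : ℝ) ^ 6 ≤ (x : ℝ) ^ 3 := by
      calc (T : ℝ) ^ 6 = ((T : ℝ) ^ 2) ^ 3 := by ring
        _ ≤ (x : ℝ) ^ 3 := by gcongr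
    have h2 : (x : ℝ) ^ 3 ≤ (y : ℝ) ^ 2 + k := by
      have := neg_abs_le ((y : ℝ) ^ 2 - (x : ℝ) ^ 3)
      linarith
    have h3 : c * (T : ℝ) ≤ (T : ℝ) ^ 6 / 2 := by
      have e1 : (T : ℝ) ^ 6 = (T : ℝ) ^ 2 * (T : ℝ) ^ 3 * T := by ring
      rw [e1]
      have e2 : 1 ≤ (T : ℝ) ^ 3 := one_le_pow₀ hTr
      have e3 : 2 * c * 1 ≤ (T : ℝ) ^ 2 * (T : ℝ) ^ 3 := by gcongr
      nlinarith
    have h4 : (y : ℝ) ^ 2 ≤ M ^ 2 := by
      rw [← sq_abs (y : ℝ)]; gcongr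
    have hM0 : 0 ≤ M := (abs_nonneg _).trans hyM
    apply le_of_sq_le_sq _ (by linarith)
    have h5 : (T : ℝ) ^ 6 ≤ 2 * M ^ 2 := by linarith
    nlinarith

/-- Number of violations of `max(|x|,|y|) ≤ C |k|³` of size at most `M`. -/
theorem sparse (C : ℝ) (hC : 0 < C) (ε : ℝ) (hε : 0 < ε) : ∃ A : ℝ, ∀ M : ℝ, 1 ≤ M →
    ∀ S : Finset (ℤ × ℤ), (∀ p ∈ S, |(p.1 : ℝ)| ≤ M ∧ |(p.2 : ℝ)| ≤ M ∧ p.2 ^ 2 ≠ p.1 ^ 3 ∧
      C * |(p.2 : ℝ) ^ 2 - (p.1 : ℝ) ^ 3| ^ 3 < max |(p.1 : ℝ)| |(p.2 : ℝ)|) →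
    (S.card : ℝ) ≤ A * M ^ (2 / 9 + ε) := by
  obtain ⟨A0, hA0, hmain⟩ := main_count (3 * ε) (by positivity)
  obtain ⟨G, hG, hgeo⟩ := geo_sum (2 / 3 + 3 * ε) (by positivity)
  set c := 256 / C ^ 2 + 1 with hc
  set X0 := 3 / C + 8 * c + 1 with hX0
  have hc1 : 1 ≤ c := by
    have : 0 < 256 / C ^ 2 := by positivity
    linarith
  have hX1 : 1 ≤ X0 := by
    have : 0 < 3 / C := by positivity
    linarith
  set B := ⌊2 * X0 ^ 2 + 8 / C + 1⌋₊ with hB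
  refine ⟨(2 * (B : ℝ) + 1) ^ 2 + (A0 * (4 * c)) * (G * 2 ^ (2 / 9 + ε)), ?_⟩
  intro M hM S hS
  have hM1 : 1 ≤ M ^ (2 / 9 + ε) := Real.one_le_rpow hM (by positivity)
  set S1 := S.filter (fun p => (p.1 : ℝ) < X0) with hS1
  set S2 := S.filter (fun p => ¬ (p.1 : ℝ) < X0) with hS2
  have hcS : S.card = S1.card + S2.card := (Finset.card_filter_add_card_filter_not _).symm
  -- the small part
  have hb1 : (S1.card : ℝ) ≤ (2 * (B : ℝ) + 1) ^ 2 := by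
    have hsub : S1 ⊆ (Finset.Icc (-(B : ℤ)) B) ×ˢ (Finset.Icc (-(B : ℤ)) B) := by
      intro p hp
      rw [hS1, Finset.mem_filter] at hp
      obtain ⟨_, _, _, hv⟩ := hS p hp.1
      obtain ⟨b1, b2⟩ := small_x_box C X0 hC hX1 p.1 p.2 hp.2 hv
      have key : ∀ z : ℤ, |(z : ℝ)| ≤ 2 * X0 ^ 2 + 8 / C + 1 → z ∈ Finset.Icc (-(B : ℤ)) B := by
        intro z hz
        rw [Finset.mem_Icc, ← abs_le]
        have e : ((|z|.toNat : ℕ) : ℤ) = |z| := Int.toNat_of_nonneg (abs_nonneg _)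
        have h : |z|.toNat ≤ B := by
          apply Nat.le_floor
          have e2 : ((|z|.toNat : ℕ) : ℝ) = |(z : ℝ)| := by
            have := congrArg (fun z : ℤ => (z : ℝ)) e
            push_cast at this
            exact this
          rw [e2]; exact hz
        omega
      rw [Finset.mem_product]
      exact ⟨key _ b1, key _ b2⟩
    have := Finset.card_le_card hsub
    rw [Finset.card_product, Int.card_Icc] at this
    have e : ((B : ℤ) + 1 - -(B : ℤ)).toNat = 2 * B + 1 := by omega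
    rw [e] at this
    have h2 : (S1.card : ℝ) ≤ ((2 * B + 1) * (2 * B + 1) : ℕ) := by exact_mod_cast this
    push_cast at h2
    linarith
  -- the large part
  have hb2 : (S2.card : ℝ) ≤ (A0 * (4 * c)) * (G * 2 ^ (2 / 9 + ε)) * M ^ (2 / 9 + ε) := by
    rcases S2.eq_empty_or_nonempty with hemp | hne
    · rw [hemp]; simp only [card_empty, CharP.cast_eq_zero]; positivity
    have hfacts : ∀ p ∈ S2, ((2 ^ dy p.1 : ℕ) : ℤ) ^ 2 ≤ p.1 ∧ p.1 ≤ 4 * ((2 ^ dy p.1 : ℕ) : ℤ) ^ 2 ∧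
        |(p.2 : ℝ) ^ 2 - (p.1 : ℝ) ^ 3| ≤ c * ((2 ^ dy p.1 : ℕ) : ℝ) ∧
        2 * c ≤ ((2 ^ dy p.1 : ℕ) : ℝ) ^ 2 ∧ ¬ IsSquare p.1 ∧
        ((2 ^ dy p.1 : ℕ) : ℝ) ^ 3 ≤ 2 * M := by
      intro p hp
      rw [hS2, Finset.mem_filter] at hp
      obtain ⟨hS, hx⟩ := hp
      push Not at hx
      obtain ⟨h1, h2, h3, h4⟩ := ‹∀ p ∈ S, _› p hS
      have hx1 : 1 ≤ p.1 := by
        have : (1 : ℝ) ≤ p.1 := by linarith
        exact_mod_cast this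
      obtain ⟨d1, d2⟩ := dy_spec p.1 hx1
      have := large_x_block C c X0 M hC hc hX0 (2 ^ dy p.1) Nat.one_le_two_pow p.1 p.2 hx d1 d2
        h3 h2 h4
      exact ⟨d1, d2, this⟩
    obtain ⟨p0, hp0, hJ⟩ := S2.exists_max_image (fun p => dy p.1) hne
    set J := dy p0.1 with hJdef
    have hmaps : Set.MapsTo (fun p : ℤ × ℤ => dy p.1) (↑S2 : Set (ℤ × ℤ))
        (↑(Finset.range (J + 1)) : Set ℕ) := by
      intro p hp
      have := hJ p hp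
      simp only [Finset.coe_range, Set.mem_Iio]
      omega
    rw [Finset.card_eq_sum_card_fiberwise hmaps]
    push_cast
    have hstep : ∀ j ∈ Finset.range (J + 1), (({p ∈ S2 | dy p.1 = j}).card : ℝ) ≤
        (A0 * (4 * c)) * ((2 : ℝ) ^ j) ^ (2 / 3 + 3 * ε) := by
      intro j _
      set F := {p ∈ S2 | dy p.1 = j} with hF
      rcases F.eq_empty_or_nonempty with hemp | ⟨p1, hp1⟩
      · rw [hemp]; simp only [card_empty, CharP.cast_eq_zero]; positivity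
      rw [hF, Finset.mem_filter] at hp1
      obtain ⟨_, _, _, f4, _, _⟩ := hfacts p1 hp1.1
      rw [hp1.2] at f4
      set T := 2 ^ j with hT
      have hT1 : 1 ≤ T := Nat.one_le_two_pow
      have hTr : (1 : ℝ) ≤ (T : ℝ) := by exact_mod_cast hT1
      have hcT : 0 < c * (T : ℝ) := by positivity
      set K := ⌈c * (T : ℝ)⌉₊ with hK
      have hK1 : 1 ≤ K := Nat.one_le_iff_ne_zero.2 (Nat.ceil_pos.2 hcT).ne'
      have hKle : (K : ℝ) ≤ 2 * c * T := by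
        have h1 := (Nat.ceil_lt_add_one hcT.le).le
        have h2 : (1 : ℝ) ≤ c * T := by nlinarith
        linarith
      have hKT : K ≤ T ^ 3 := by
        have : (K : ℝ) ≤ (T : ℝ) ^ 3 := by
          calc (K : ℝ) ≤ 2 * c * T := hKle
            _ ≤ (T : ℝ) ^ 2 * T := by gcongr
            _ = (T : ℝ) ^ 3 := by ring
        exact_mod_cast this
      have hcount := hmain T K hT1 hK1 hKT F (by
        intro p hp
        rw [hF, Finset.mem_filter] at hp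
        obtain ⟨g1, g2, g3, _, g5, _⟩ := hfacts p hp.1
        rw [hp.2] at g1 g2 g3
        refine ⟨g1, g2, ?_, g5⟩
        have : |(p.2 : ℝ) ^ 2 - (p.1 : ℝ) ^ 3| ≤ (K : ℝ) := g3.trans (Nat.le_ceil _)
        exact_mod_cast this)
      refine hcount.trans ?_
      have e1 : (K : ℝ) ^ (2 / 3 : ℝ) ≤ 2 * c * (T : ℝ) ^ (2 / 3 : ℝ) := by
        calc (K : ℝ) ^ (2 / 3 : ℝ) ≤ (2 * c * T) ^ (2 / 3 : ℝ) := by gcongr
          _ = (2 * c) ^ (2 / 3 : ℝ) * (T : ℝ) ^ (2 / 3 : ℝ) :=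
            Real.mul_rpow (by positivity) (by positivity)
          _ ≤ (2 * c) ^ (1 : ℝ) * (T : ℝ) ^ (2 / 3 : ℝ) := by
            gcongr
            · linarith
            · norm_num
          _ = _ := by rw [Real.rpow_one]
      have e2 : (T : ℝ) ^ (1 / 2 : ℝ) * (K : ℝ) ^ (1 / 6 : ℝ) ≤ 2 * c * (T : ℝ) ^ (2 / 3 : ℝ) := by
        calc (T : ℝ) ^ (1 / 2 : ℝ) * (K : ℝ) ^ (1 / 6 : ℝ)
            ≤ (T : ℝ) ^ (1 / 2 : ℝ) * (2 * c * T) ^ (1 / 6 : ℝ) := by gcongr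
          _ = (2 * c) ^ (1 / 6 : ℝ) * ((T : ℝ) ^ (1 / 2 : ℝ) * (T : ℝ) ^ (1 / 6 : ℝ)) := by
            rw [Real.mul_rpow (by positivity) (by positivity)]; ring
          _ = (2 * c) ^ (1 / 6 : ℝ) * (T : ℝ) ^ (2 / 3 : ℝ) := by
            rw [← Real.rpow_add (by positivity)]; norm_num
          _ ≤ (2 * c) ^ (1 : ℝ) * (T : ℝ) ^ (2 / 3 : ℝ) := by
            gcongr
            · linarith
            · norm_num
          _ = _ := by rw [Real.rpow_one]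
      have hcast : ((2 : ℝ) ^ j) = (T : ℝ) := by rw [hT]; push_cast; rfl
      rw [hcast]
      calc A0 * (T : ℝ) ^ (3 * ε) * ((K : ℝ) ^ (2 / 3 : ℝ) +
            (T : ℝ) ^ (1 / 2 : ℝ) * (K : ℝ) ^ (1 / 6 : ℝ))
          ≤ A0 * (T : ℝ) ^ (3 * ε) * (2 * c * (T : ℝ) ^ (2 / 3 : ℝ) +
            2 * c * (T : ℝ) ^ (2 / 3 : ℝ)) := by gcongr
        _ = A0 * (4 * c) * ((T : ℝ) ^ (2 / 3 : ℝ) * (T : ℝ) ^ (3 * ε)) := by ring
        _ = A0 * (4 * c) * (T : ℝ) ^ (2 / 3 + 3 * ε) := by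
          rw [← Real.rpow_add (by positivity)]
    refine (Finset.sum_le_sum hstep).trans ?_
    rw [← Finset.mul_sum]
    have hAc : 0 ≤ A0 * (4 * c) := by positivity
    have hJM : ((2 : ℝ) ^ J) ^ (2 / 3 + 3 * ε) ≤ 2 ^ (2 / 9 + ε) * M ^ (2 / 9 + ε) := by
      obtain ⟨_, _, _, _, _, f6⟩ := hfacts p0 hp0
      rw [← hJdef] at f6
      push_cast at f6
      have e1 : ((2 : ℝ) ^ J) ^ (2 / 3 + 3 * ε) = (((2 : ℝ) ^ J) ^ 3) ^ (2 / 9 + ε) := by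
        rw [← Real.rpow_natCast ((2 : ℝ) ^ J) 3, ← Real.rpow_mul (by positivity)]
        congr 1
        push_cast; ring
      rw [e1, ← Real.mul_rpow (by norm_num) (by linarith)]
      exact Real.rpow_le_rpow (by positivity) f6 (by positivity)
    calc A0 * (4 * c) * ∑ j ∈ Finset.range (J + 1), ((2 : ℝ) ^ j) ^ (2 / 3 + 3 * ε)
        ≤ A0 * (4 * c) * (G * ((2 : ℝ) ^ J) ^ (2 / 3 + 3 * ε)) := by
          apply mul_le_mul_of_nonneg_left (hgeo J) hAc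
      _ ≤ A0 * (4 * c) * (G * (2 ^ (2 / 9 + ε) * M ^ (2 / 9 + ε))) := by gcongr
      _ = _ := by ring
  have hcSr : (S.card : ℝ) = S1.card + S2.card := by rw [hcS]; push_cast; ring
  rw [hcSr, add_mul]
  have hB2 : (2 * (B : ℝ) + 1) ^ 2 ≤ (2 * (B : ℝ) + 1) ^ 2 * M ^ (2 / 9 + ε) := by
    have : 0 ≤ (2 * (B : ℝ) + 1) ^ 2 := by positivity
    nlinarith
  linarith

end Pool.Agent.Work.MP_f2148a_nt
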