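import Mathlib
import Pool.Agent.Work.MP_f2148a_nt.Sparse

set_option autoImplicit false
set_option maxHeartbeats 2000000

namespace Pool.Agent.Work.MP_f2148a_nt

open Finset

/-- Two nonnegative `y` with `y²` close to `n` are close to each other. -/
theorem gap_y (n k T y1 y2 : ℤ) (hT : 0 ≤ T) (hy1 : 0 ≤ y1) (h12 : y1 ≤ y2)
    (h1 : |y1 ^ 2 - n| ≤ k) (h2 : |y2 ^ 2 - n| ≤ k) (hn : T ^ 6 ≤ n) :
    (y2 - y1) ^ 2 ≤ 2 * k ∧ (y2 - y1) * T ^ 3 ≤ 2 * k := by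
  rw [abs_le] at h1 h2
  have hk : 0 ≤ k := by linarith
  have hd : 0 ≤ y2 - y1 := by linarith
  have e1 : (y2 - y1) * (y2 + y1) ≤ 2 * k := by nlinarith
  have e2 : (y2 - y1) ^ 2 ≤ 2 * k := by nlinarith
  refine ⟨e2, ?_⟩
  have hT3 : 0 ≤ T ^ 3 := by positivity
  rcases le_or_gt (2 * k) n with h | h
  · have h3 : T ^ 3 ≤ y2 + y1 := by
      apply le_of_pow_le_pow_left₀ (n := 2) (by norm_num) (by linarith)
      have h4 : (T ^ 3) ^ 2 = T ^ 6 := by ring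
      nlinarith
    nlinarith
  · apply le_of_pow_le_pow_left₀ (n := 2) (by norm_num) (by linarith)
    have h4 : ((y2 - y1) * T ^ 3) ^ 2 = (y2 - y1) ^ 2 * T ^ 6 := by ring
    have h5 : T ^ 6 ≤ 2 * k := by linarith
    rw [h4]
    calc (y2 - y1) ^ 2 * T ^ 6 ≤ (2 * k) * (2 * k) := by
          apply mul_le_mul e2 h5 (by positivity) (by linarith)
      _ = (2 * k) ^ 2 := by ring

theorem card_of_gap (Y : Finset ℤ) (D : ℝ) (hD : 0 ≤ D)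
    (h : ∀ y1 ∈ Y, ∀ y2 ∈ Y, y1 ≤ y2 → ((y2 - y1 : ℤ) : ℝ) ≤ D) : (Y.card : ℝ) ≤ D + 1 := by
  rcases Y.eq_empty_or_nonempty with hemp | hne
  · rw [hemp]; simp only [card_empty, CharP.cast_eq_zero]; linarith
  set y0 := Y.min' hne with hy0
  have hmem : y0 ∈ Y := Y.min'_mem hne
  have hsub : Y ⊆ Finset.Icc y0 (y0 + ⌊D⌋) := by
    intro y hy
    have h1 : y0 ≤ y := Y.min'_le y hy
    have h2 := h y0 hmem y hy h1
    have h3 : y - y0 ≤ ⌊D⌋ := Int.le_floor.2 h2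
    rw [Finset.mem_Icc]
    constructor
    · exact h1
    · linarith
  have h1 := Finset.card_le_card hsub
  rw [Int.card_Icc] at h1
  have hf : 0 ≤ ⌊D⌋ := Int.floor_nonneg.2 hD
  have h2 : (Y.card : ℤ) ≤ ⌊D⌋ + 1 := by omega
  have h3 : ((Y.card : ℤ) : ℝ) ≤ ((⌊D⌋ + 1 : ℤ) : ℝ) := by exact_mod_cast h2
  push_cast at h3
  have h4 := Int.floor_le D
  linarith

/-- Number of points in a dyadic block in the trivial range. -/
theorem small_block (T K : ℕ) (hT : 1 ≤ T) (hK : 1 ≤ K) (hTK : T ^ 3 ≤ K) (S : Finset (ℤ × ℤ))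
    (hS : ∀ p ∈ S, (T : ℤ) ^ 2 ≤ p.1 ∧ p.1 ≤ 4 * (T : ℤ) ^ 2 ∧ |p.2 ^ 2 - p.1 ^ 3| ≤ K) :
    (S.card : ℝ) ≤ 24 * (K : ℝ) ^ (5 / 6 : ℝ) := by
  have hTr : (1 : ℝ) ≤ (T : ℝ) := by exact_mod_cast hT
  have hKr : (1 : ℝ) ≤ (K : ℝ) := by exact_mod_cast hK
  have hT2pos : (0 : ℝ) < (T : ℝ) ^ 2 := by positivity
  set D : ℝ := 2 * (K : ℝ) ^ (5 / 6 : ℝ) / (T : ℝ) ^ 2 with hD
  have hD0 : 0 ≤ D := by positivity
  have hK56 : ((K : ℝ) ^ (5 / 6 : ℝ)) ^ 6 = (K : ℝ) ^ 5 := by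
    rw [← Real.rpow_natCast, ← Real.rpow_mul (by positivity), ← Real.rpow_natCast]
    norm_num
  have hT2le : (T : ℝ) ^ 2 ≤ (K : ℝ) ^ (5 / 6 : ℝ) := by
    apply le_of_pow_le_pow_left₀ (n := 6) (by norm_num) (by positivity)
    rw [hK56]
    have h1 : ((T : ℝ) ^ 3) ^ 4 ≤ (K : ℝ) ^ 4 := by
      have : ((T : ℝ) ^ 3) ≤ K := by exact_mod_cast hTK
      gcongr
    calc ((T : ℝ) ^ 2) ^ 6 = ((T : ℝ) ^ 3) ^ 4 := by ring
      _ ≤ (K : ℝ) ^ 4 := h1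
      _ ≤ (K : ℝ) ^ 5 := pow_le_pow_right₀ hKr (by norm_num)
  -- the gap between two admissible values of y
  have hgap : ∀ x y1 y2 : ℤ, (T : ℤ) ^ 2 ≤ x → 0 ≤ y1 → y1 ≤ y2 → |y1 ^ 2 - x ^ 3| ≤ K →
      |y2 ^ 2 - x ^ 3| ≤ K → ((y2 - y1 : ℤ) : ℝ) ≤ D := by
    intro x y1 y2 hx h0 h12 h1 h2
    have hn : (T : ℤ) ^ 6 ≤ x ^ 3 := by
      calc (T : ℤ) ^ 6 = ((T : ℤ) ^ 2) ^ 3 := by ring
        _ ≤ x ^ 3 := by gcongr
    obtain ⟨g1, g2⟩ := gap_y (x ^ 3) K T y1 y2 (by positivity) h0 h12 h1 h2 hn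
    have g1r : ((y2 - y1 : ℤ) : ℝ) ^ 2 ≤ 2 * K := by exact_mod_cast g1
    have g2r : ((y2 - y1 : ℤ) : ℝ) * (T : ℝ) ^ 3 ≤ 2 * K := by exact_mod_cast g2
    have hd0 : (0 : ℝ) ≤ ((y2 - y1 : ℤ) : ℝ) := by
      have : 0 ≤ y2 - y1 := by linarith
      exact_mod_cast this
    set d := ((y2 - y1 : ℤ) : ℝ) with hd
    rw [hD, le_div_iff₀ hT2pos]
    apply le_of_pow_le_pow_left₀ (n := 6) (by norm_num) (by positivity)
    have e1 : (2 * (K : ℝ) ^ (5 / 6 : ℝ)) ^ 6 = 64 * (K : ℝ) ^ 5 := by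
      rw [mul_pow, hK56]; norm_num
    rw [e1]
    calc (d * (T : ℝ) ^ 2) ^ 6 = d ^ 2 * (d * (T : ℝ) ^ 3) ^ 4 := by ring
      _ ≤ (2 * (K : ℝ)) * (2 * (K : ℝ)) ^ 4 := by gcongr
      _ = 32 * (K : ℝ) ^ 5 := by ring
      _ ≤ 64 * (K : ℝ) ^ 5 := by
        have : (0 : ℝ) ≤ (K : ℝ) ^ 5 := by positivity
        linarith
  -- fibres over x
  have hmaps : Set.MapsTo (fun p : ℤ × ℤ => p.1) (↑S : Set (ℤ × ℤ))
      (↑(Finset.Icc ((T : ℤ) ^ 2) (4 * (T : ℤ) ^ 2)) : Set ℤ) := by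
    intro p hp
    obtain ⟨h1, h2, _⟩ := hS p hp
    simp only [Finset.coe_Icc, Set.mem_Icc]
    exact ⟨h1, h2⟩
  rw [Finset.card_eq_sum_card_fiberwise hmaps]
  push_cast
  have hfib : ∀ x ∈ Finset.Icc ((T : ℤ) ^ 2) (4 * (T : ℤ) ^ 2),
      (({p ∈ S | p.1 = x}).card : ℝ) ≤ 2 * (D + 1) := by
    intro x hx
    rw [Finset.mem_Icc] at hx
    set F := {p ∈ S | p.1 = x} with hF
    set F1 := F.filter (fun p => 0 ≤ p.2) with hF1
    set F2 := F.filter (fun p => ¬ 0 ≤ p.2) with hF2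
    have hc : F.card = F1.card + F2.card := (Finset.card_filter_add_card_filter_not _).symm
    have hmem : ∀ p ∈ F, p.1 = x ∧ |p.2 ^ 2 - x ^ 3| ≤ K := by
      intro p hp
      rw [hF, Finset.mem_filter] at hp
      obtain ⟨_, _, h3⟩ := hS p hp.1
      rw [hp.2] at h3
      exact ⟨hp.2, h3⟩
    have h1 : (F1.card : ℝ) ≤ D + 1 := by
      have hinj : Set.InjOn (fun p : ℤ × ℤ => p.2) (↑F1 : Set (ℤ × ℤ)) := by
        intro p hp q hq hpq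
        have hp' := hmem p (Finset.mem_filter.1 hp).1
        have hq' := hmem q (Finset.mem_filter.1 hq).1
        exact Prod.ext (hp'.1.trans hq'.1.symm) hpq
      rw [← Finset.card_image_of_injOn hinj]
      apply card_of_gap _ _ hD0
      intro y1 hy1 y2 hy2 h12
      rw [Finset.mem_image] at hy1 hy2
      obtain ⟨p, hp, rfl⟩ := hy1
      obtain ⟨q, hq, rfl⟩ := hy2
      rw [hF1, Finset.mem_filter] at hp hq
      exact hgap x p.2 q.2 hx.1 hp.2 h12 (hmem p hp.1).2 (hmem q hq.1).2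
    have h2 : (F2.card : ℝ) ≤ D + 1 := by
      have hinj : Set.InjOn (fun p : ℤ × ℤ => -p.2) (↑F2 : Set (ℤ × ℤ)) := by
        intro p hp q hq hpq
        have hp' := hmem p (Finset.mem_filter.1 hp).1
        have hq' := hmem q (Finset.mem_filter.1 hq).1
        exact Prod.ext (hp'.1.trans hq'.1.symm) (neg_injective hpq)
      rw [← Finset.card_image_of_injOn hinj]
      apply card_of_gap _ _ hD0
      intro y1 hy1 y2 hy2 h12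
      rw [Finset.mem_image] at hy1 hy2
      obtain ⟨p, hp, rfl⟩ := hy1
      obtain ⟨q, hq, rfl⟩ := hy2
      rw [hF2, Finset.mem_filter] at hp hq
      have k1 := (hmem p hp.1).2
      have k2 := (hmem q hq.1).2
      have e1 : |(-p.2) ^ 2 - x ^ 3| ≤ K := by rw [neg_sq]; exact k1
      have e2 : |(-q.2) ^ 2 - x ^ 3| ≤ K := by rw [neg_sq]; exact k2
      have : 0 ≤ -p.2 := by
        have := hp.2
        omega
      exact hgap x (-p.2) (-q.2) hx.1 this h12 e1 e2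
    have hcr : (F.card : ℝ) = F1.card + F2.card := by rw [hc]; push_cast; ring
    rw [hcr]; linarith
  refine (Finset.sum_le_sum hfib).trans ?_
  rw [Finset.sum_const, nsmul_eq_mul, Int.card_Icc]
  have hcard : (((4 * (T : ℤ) ^ 2 + 1 - (T : ℤ) ^ 2).toNat : ℕ) : ℝ) ≤ 4 * (T : ℝ) ^ 2 := by
    have h1 : ((4 * (T : ℤ) ^ 2 + 1 - (T : ℤ) ^ 2).toNat : ℤ) = 3 * (T : ℤ) ^ 2 + 1 := by
      rw [Int.toNat_of_nonneg (by nlinarith [sq_nonneg (T : ℤ)])]; ring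
    have h2 : (1 : ℤ) ≤ (T : ℤ) ^ 2 := by
      have : (1 : ℤ) ≤ T := by exact_mod_cast hT
      exact one_le_pow₀ this
    have h3 : ((4 * (T : ℤ) ^ 2 + 1 - (T : ℤ) ^ 2).toNat : ℤ) ≤ 4 * (T : ℤ) ^ 2 := by
      rw [h1]; linarith
    exact_mod_cast h3
  calc (((4 * (T : ℤ) ^ 2 + 1 - (T : ℤ) ^ 2).toNat : ℕ) : ℝ) * (2 * (D + 1))
      ≤ 4 * (T : ℝ) ^ 2 * (2 * (D + 1)) := by gcongr
    _ = 8 * (D * (T : ℝ) ^ 2) + 8 * (T : ℝ) ^ 2 := by ring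
    _ = 8 * (2 * (K : ℝ) ^ (5 / 6 : ℝ)) + 8 * (T : ℝ) ^ 2 := by
      rw [hD, div_mul_cancel₀ _ hT2pos.ne']
    _ ≤ 24 * (K : ℝ) ^ (5 / 6 : ℝ) := by linarith

/-- Points with `x ≤ 0`. -/
theorem neg_block (K : ℕ) (hK : 1 ≤ K) (S : Finset (ℤ × ℤ))
    (hS : ∀ p ∈ S, p.1 ≤ 0 ∧ |p.2 ^ 2 - p.1 ^ 3| ≤ K) :
    (S.card : ℝ) ≤ 6 * (K : ℝ) ^ (5 / 6 : ℝ) := by
  have hKr : (1 : ℝ) ≤ (K : ℝ) := by exact_mod_cast hK
  set a : ℝ := (K : ℝ) ^ (1 / 3 : ℝ) with ha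
  set b : ℝ := (K : ℝ) ^ (1 / 2 : ℝ) with hb
  have ha1 : 1 ≤ a := Real.one_le_rpow hKr (by norm_num)
  have hb1 : 1 ≤ b := Real.one_le_rpow hKr (by norm_num)
  have ha3 : a ^ 3 = K := by
    rw [ha, ← Real.rpow_natCast, ← Real.rpow_mul (by positivity)]
    norm_num
  have hb2 : b ^ 2 = K := by
    rw [hb, ← Real.rpow_natCast, ← Real.rpow_mul (by positivity)]
    norm_num
  have hab : a * b = (K : ℝ) ^ (5 / 6 : ℝ) := by
    rw [ha, hb, ← Real.rpow_add (by positivity)]; norm_num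
  have hsub : S ⊆ (Finset.Icc (-⌊a⌋) 0) ×ˢ (Finset.Icc (-⌊b⌋) ⌊b⌋) := by
    intro p hp
    obtain ⟨h1, h2⟩ := hS p hp
    rw [abs_le] at h2
    have hx3 : (-p.1) ^ 3 = - p.1 ^ 3 := by ring
    have hx0 : 0 ≤ (-p.1) ^ 3 := by
      have : 0 ≤ -p.1 := by linarith
      positivity
    have e1 : (-p.1) ^ 3 ≤ K := by nlinarith [sq_nonneg p.2]
    have e2 : p.2 ^ 2 ≤ K := by nlinarith
    have e1r : ((-p.1 : ℤ) : ℝ) ^ 3 ≤ a ^ 3 := by rw [ha3]; exact_mod_cast e1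
    have e2r : |(p.2 : ℝ)| ^ 2 ≤ b ^ 2 := by rw [hb2, sq_abs]; exact_mod_cast e2
    have f1 : ((-p.1 : ℤ) : ℝ) ≤ a := le_of_pow_le_pow_left₀ (by norm_num) (by positivity) e1r
    have f2 : |(p.2 : ℝ)| ≤ b := le_of_pow_le_pow_left₀ (by norm_num) (by positivity) e2r
    have f1' : -p.1 ≤ ⌊a⌋ := Int.le_floor.2 f1
    have f2' : |p.2| ≤ ⌊b⌋ := Int.le_floor.2 (by push_cast; exact f2)
    rw [abs_le] at f2'
    rw [Finset.mem_product, Finset.mem_Icc, Finset.mem_Icc]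
    exact ⟨⟨by linarith, h1⟩, f2'⟩
  have h1 := Finset.card_le_card hsub
  rw [Finset.card_product, Int.card_Icc, Int.card_Icc] at h1
  have hfa : 0 ≤ ⌊a⌋ := Int.floor_nonneg.2 (by linarith)
  have hfb : 0 ≤ ⌊b⌋ := Int.floor_nonneg.2 (by linarith)
  have c1 : (((0 + 1 - -⌊a⌋).toNat : ℕ) : ℝ) ≤ 2 * a := by
    have : ((0 + 1 - -⌊a⌋).toNat : ℤ) = ⌊a⌋ + 1 := by omega
    have h2 : (((0 + 1 - -⌊a⌋).toNat : ℤ) : ℝ) = ((⌊a⌋ + 1 : ℤ) : ℝ) := by rw [this]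
    push_cast at h2 ⊢
    have := Int.floor_le a
    linarith
  have c2 : (((⌊b⌋ + 1 - -⌊b⌋).toNat : ℕ) : ℝ) ≤ 3 * b := by
    have : ((⌊b⌋ + 1 - -⌊b⌋).toNat : ℤ) = 2 * ⌊b⌋ + 1 := by omega
    have h2 : (((⌊b⌋ + 1 - -⌊b⌋).toNat : ℤ) : ℝ) = ((2 * ⌊b⌋ + 1 : ℤ) : ℝ) := by rw [this]
    push_cast at h2 ⊢
    have := Int.floor_le b
    linarith
  calc (S.card : ℝ) ≤ (((0 + 1 - -⌊a⌋).toNat * (⌊b⌋ + 1 - -⌊b⌋).toNat : ℕ) : ℝ) := by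
        exact_mod_cast h1
    _ = (((0 + 1 - -⌊a⌋).toNat : ℕ) : ℝ) * (((⌊b⌋ + 1 - -⌊b⌋).toNat : ℕ) : ℝ) := by
      push_cast; ring
    _ ≤ (2 * a) * (3 * b) := by gcongr
    _ = 6 * (K : ℝ) ^ (5 / 6 : ℝ) := by rw [← hab]; ring

/-- Number of points `(x, y)` with `0 < |y² - x³| ≤ K` and `|y| ≤ M`. -/
theorem box_count (ε : ℝ) (hε : 0 < ε) : ∃ A : ℝ, 1 ≤ A ∧ ∀ K : ℕ, 1 ≤ K → ∀ M : ℝ, (K : ℝ) ≤ M →
    ∀ S : Finset (ℤ × ℤ), (∀ p ∈ S, p.2 ^ 2 ≠ p.1 ^ 3 ∧ |p.2 ^ 2 - p.1 ^ 3| ≤ K ∧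
      |(p.2 : ℝ)| ≤ M) →
    (S.card : ℝ) ≤ A * M ^ ε *
      ((K : ℝ) ^ (5 / 6 : ℝ) + M ^ (1 / 6 : ℝ) * (K : ℝ) ^ (1 / 6 : ℝ)) := by
  obtain ⟨A0, hA0, hmain⟩ := main_count (3 * ε) (by positivity)
  obtain ⟨G1, hG1, hgeo1⟩ := geo_sum (3 * ε) (by positivity)
  obtain ⟨G2, hG2, hgeo2⟩ := geo_sum (1 / 2 + 3 * ε) (by positivity)
  set A1 := A0 + 24 with hA1
  have hA1pos : 0 < A1 := by linarith
  set P1 := A1 * G1 * 2 ^ ε with hP1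
  set P2 := A1 * G2 * 2 ^ (1 / 6 + ε) with hP2
  have hP1pos : 0 < P1 := by positivity
  have hP2pos : 0 < P2 := by positivity
  refine ⟨6 + P1 + P2, by linarith, ?_⟩
  intro K hK M hKM S hS
  have hKr : (1 : ℝ) ≤ (K : ℝ) := by exact_mod_cast hK
  have hM1 : (1 : ℝ) ≤ M := hKr.trans hKM
  have hMe : 1 ≤ M ^ ε := Real.one_le_rpow hM1 hε.le
  set X := (K : ℝ) ^ (5 / 6 : ℝ) with hX
  set Y := M ^ (1 / 6 : ℝ) * (K : ℝ) ^ (1 / 6 : ℝ) with hY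
  have hX0 : 0 ≤ X := by positivity
  have hY0 : 0 ≤ Y := by positivity
  set S1 := S.filter (fun p => p.1 ≤ 0) with hS1
  set S2 := S.filter (fun p => ¬ p.1 ≤ 0) with hS2
  have hcS : S.card = S1.card + S2.card := (Finset.card_filter_add_card_filter_not _).symm
  have hb1 : (S1.card : ℝ) ≤ 6 * X := by
    apply neg_block K hK S1
    intro p hp
    rw [hS1, Finset.mem_filter] at hp
    exact ⟨hp.2, (hS p hp.1).2.1⟩
  have hb2 : (S2.card : ℝ) ≤ P1 * M ^ ε * X + P2 * M ^ ε * Y := by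
    rcases S2.eq_empty_or_nonempty with hemp | hne
    · rw [hemp]; simp only [card_empty, CharP.cast_eq_zero]; positivity
    have hfacts : ∀ p ∈ S2, ((2 ^ dy p.1 : ℕ) : ℤ) ^ 2 ≤ p.1 ∧
        p.1 ≤ 4 * ((2 ^ dy p.1 : ℕ) : ℤ) ^ 2 ∧ p.2 ^ 2 ≠ p.1 ^ 3 ∧
        |p.2 ^ 2 - p.1 ^ 3| ≤ K ∧ ((2 ^ dy p.1 : ℕ) : ℝ) ^ 3 ≤ 2 * M := by
      intro p hp
      rw [hS2, Finset.mem_filter] at hp
      obtain ⟨hpS, hx⟩ := hp
      obtain ⟨h1, h2, h3⟩ := hS p hpS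
      obtain ⟨d1, d2⟩ := dy_spec p.1 (by omega)
      refine ⟨d1, d2, h1, h2, ?_⟩
      set T := 2 ^ dy p.1 with hT
      have hTr : (1 : ℝ) ≤ (T : ℝ) := by
        have : 1 ≤ T := Nat.one_le_two_pow
        exact_mod_cast this
      by_contra hcon
      push Not at hcon
      have e1 : (T : ℤ) ^ 6 ≤ p.1 ^ 3 := by
        calc (T : ℤ) ^ 6 = ((T : ℤ) ^ 2) ^ 3 := by ring
          _ ≤ p.1 ^ 3 := by gcongr
      rw [abs_le] at h2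
      have e2 : (T : ℤ) ^ 6 ≤ p.2 ^ 2 + K := by linarith
      have e2r : (T : ℝ) ^ 6 ≤ (p.2 : ℝ) ^ 2 + K := by exact_mod_cast e2
      have e3 : (p.2 : ℝ) ^ 2 ≤ M ^ 2 := by rw [← sq_abs (p.2 : ℝ)]; gcongr
      have e4 : (2 * M) ^ 2 < ((T : ℝ) ^ 3) ^ 2 := by
        have : 0 ≤ 2 * M := by linarith
        gcongr
      have e5 : ((T : ℝ) ^ 3) ^ 2 = (T : ℝ) ^ 6 := by ring
      rw [e5] at e4
      nlinarith
    obtain ⟨p0, hp0, hJ⟩ := S2.exists_max_image (fun p => dy p.1) hne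
    set J := dy p0.1 with hJdef
    have hmaps : Set.MapsTo (fun p : ℤ × ℤ => dy p.1) (↑S2 : Set (ℤ × ℤ))
        (↑(Finset.range (J + 1)) : Set ℕ) := by
      intro p hp
      have := hJ p hp
      simp only [Finset.coe_range, Set.mem_Iio]
      omega
    rw [Finset.card_eq_sum_card_fiberwise hmaps]
    push_cast
    have hstep : ∀ j ∈ Finset.range (J + 1), (({p ∈ S2 | dy p.1 = j}).card : ℝ) ≤
        A1 * X * ((2 : ℝ) ^ j) ^ (3 * ε) +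
          A1 * (K : ℝ) ^ (1 / 6 : ℝ) * ((2 : ℝ) ^ j) ^ (1 / 2 + 3 * ε) := by
      intro j _
      set F := {p ∈ S2 | dy p.1 = j} with hF
      set T := 2 ^ j with hT
      have hT1 : 1 ≤ T := Nat.one_le_two_pow
      have hTr : (1 : ℝ) ≤ (T : ℝ) := by exact_mod_cast hT1
      have hcast : ((2 : ℝ) ^ j) = (T : ℝ) := by rw [hT]; push_cast; rfl
      rw [hcast]
      have hTe : 1 ≤ (T : ℝ) ^ (3 * ε) := Real.one_le_rpow hTr (by positivity)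
      have hmem : ∀ p ∈ F, (T : ℤ) ^ 2 ≤ p.1 ∧ p.1 ≤ 4 * (T : ℤ) ^ 2 ∧ p.2 ^ 2 ≠ p.1 ^ 3 ∧
          |p.2 ^ 2 - p.1 ^ 3| ≤ K := by
        intro p hp
        rw [hF, Finset.mem_filter] at hp
        obtain ⟨g1, g2, g3, g4, _⟩ := hfacts p hp.1
        rw [hp.2] at g1 g2
        exact ⟨g1, g2, g3, g4⟩
      have hsecond : 0 ≤ A1 * (K : ℝ) ^ (1 / 6 : ℝ) * (T : ℝ) ^ (1 / 2 + 3 * ε) := by positivity
      rcases le_or_gt (T ^ 3) K with hTK | hTK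
      · have h1 := small_block T K hT1 hK hTK F (fun p hp =>
          ⟨(hmem p hp).1, (hmem p hp).2.1, (hmem p hp).2.2.2⟩)
        have h2 : 24 * X ≤ A1 * X * (T : ℝ) ^ (3 * ε) := by
          calc 24 * X ≤ A1 * X := by gcongr; linarith
            _ = A1 * X * 1 := by ring
            _ ≤ A1 * X * (T : ℝ) ^ (3 * ε) := by gcongr
        linarith
      · have h1 := hmain T K hT1 hK hTK.le F (by
          intro p hp
          obtain ⟨g1, g2, g3, g4⟩ := hmem p hp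
          refine ⟨g1, g2, g4, ?_⟩
          intro hsq
          have := square_case T p.1 p.2 g1 g3 hsq
          have h5 : ((K : ℕ) : ℤ) < (T : ℤ) ^ 3 := by exact_mod_cast hTK
          linarith)
        refine h1.trans ?_
        have h2 : (K : ℝ) ^ (2 / 3 : ℝ) ≤ X :=
          Real.rpow_le_rpow_of_exponent_le hKr (by norm_num)
        have h3 : A0 ≤ A1 := by linarith
        calc A0 * (T : ℝ) ^ (3 * ε) * ((K : ℝ) ^ (2 / 3 : ℝ) +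
              (T : ℝ) ^ (1 / 2 : ℝ) * (K : ℝ) ^ (1 / 6 : ℝ))
            ≤ A1 * (T : ℝ) ^ (3 * ε) * (X + (T : ℝ) ^ (1 / 2 : ℝ) * (K : ℝ) ^ (1 / 6 : ℝ)) := by
              gcongr
          _ = A1 * X * (T : ℝ) ^ (3 * ε) +
              A1 * (K : ℝ) ^ (1 / 6 : ℝ) * ((T : ℝ) ^ (1 / 2 : ℝ) * (T : ℝ) ^ (3 * ε)) := by ring
          _ = _ := by rw [← Real.rpow_add (by positivity)]
    refine (Finset.sum_le_sum hstep).trans ?_
    rw [Finset.sum_add_distrib, ← Finset.mul_sum, ← Finset.mul_sum]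
    obtain ⟨_, _, _, _, f6⟩ := hfacts p0 hp0
    rw [← hJdef] at f6
    push_cast at f6
    have hJ1 : ((2 : ℝ) ^ J) ^ (3 * ε) ≤ 2 ^ ε * M ^ ε := by
      have e1 : ((2 : ℝ) ^ J) ^ (3 * ε) = (((2 : ℝ) ^ J) ^ 3) ^ ε := by
        rw [← Real.rpow_natCast ((2 : ℝ) ^ J) 3, ← Real.rpow_mul (by positivity)]
        congr 1
      rw [e1, ← Real.mul_rpow (by norm_num) (by linarith)]
      exact Real.rpow_le_rpow (by positivity) f6 (by positivity)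
    have hJ2 : ((2 : ℝ) ^ J) ^ (1 / 2 + 3 * ε) ≤
        2 ^ (1 / 6 + ε) * (M ^ (1 / 6 : ℝ) * M ^ ε) := by
      have e1 : ((2 : ℝ) ^ J) ^ (1 / 2 + 3 * ε) = (((2 : ℝ) ^ J) ^ 3) ^ (1 / 6 + ε) := by
        rw [← Real.rpow_natCast ((2 : ℝ) ^ J) 3, ← Real.rpow_mul (by positivity)]
        congr 1
        push_cast; ring
      rw [e1, ← Real.rpow_add (by linarith), ← Real.mul_rpow (by norm_num) (by linarith)]
      exact Real.rpow_le_rpow (by positivity) f6 (by positivity)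
    have s1 : A1 * X * ∑ j ∈ Finset.range (J + 1), ((2 : ℝ) ^ j) ^ (3 * ε) ≤
        A1 * X * (G1 * (2 ^ ε * M ^ ε)) := by
      have := hgeo1 J
      have h2 : G1 * ((2 : ℝ) ^ J) ^ (3 * ε) ≤ G1 * (2 ^ ε * M ^ ε) := by gcongr
      apply mul_le_mul_of_nonneg_left (this.trans h2) (by positivity)
    have s2 : A1 * (K : ℝ) ^ (1 / 6 : ℝ) *
        ∑ j ∈ Finset.range (J + 1), ((2 : ℝ) ^ j) ^ (1 / 2 + 3 * ε) ≤
        A1 * (K : ℝ) ^ (1 / 6 : ℝ) * (G2 * (2 ^ (1 / 6 + ε) * (M ^ (1 / 6 : ℝ) * M ^ ε))) := by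
      have := hgeo2 J
      have h2 : G2 * ((2 : ℝ) ^ J) ^ (1 / 2 + 3 * ε) ≤
          G2 * (2 ^ (1 / 6 + ε) * (M ^ (1 / 6 : ℝ) * M ^ ε)) := by gcongr
      apply mul_le_mul_of_nonneg_left (this.trans h2) (by positivity)
    calc _ ≤ A1 * X * (G1 * (2 ^ ε * M ^ ε)) +
          A1 * (K : ℝ) ^ (1 / 6 : ℝ) * (G2 * (2 ^ (1 / 6 + ε) * (M ^ (1 / 6 : ℝ) * M ^ ε))) :=
        add_le_add s1 s2
      _ = P1 * M ^ ε * X + P2 * M ^ ε * Y := by rw [hP1, hP2, hY]; ring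
  have hcSr : (S.card : ℝ) = S1.card + S2.card := by rw [hcS]; push_cast; ring
  rw [hcSr]
  have h6 : 6 * X ≤ 6 * M ^ ε * X := by nlinarith
  have h7 : (6 + P1 + P2) * M ^ ε * (X + Y) = 6 * M ^ ε * X + P1 * M ^ ε * X + P2 * M ^ ε * Y +
      (P2 * M ^ ε * X + (6 + P1) * M ^ ε * Y) := by ring
  have h8 : 0 ≤ P2 * M ^ ε * X + (6 + P1) * M ^ ε * Y := by positivity
  rw [h7]
  linarith

end Pool.Agent.Work.MP_f2148a_nt
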