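import Mathlib
import Pool.Agent.Work.MP_f2148a_nt.AlmostAll

set_option autoImplicit false

namespace Pool.Agent.Work.MP_f2148a_nt

/-- For `0 < η ≤ 1` and `ε > 0` there is `A` such that for every `K ≥ 1` at most
`A K^(1-η/6+ε)` of the nonzero integers `k` with `|k| ≤ K` are such that `y² = x³ + k` has an
integer solution with `max(|x|,|y|) ≤ K^(5-η)`. -/
theorem almost_all_k : ∀ η : ℝ, 0 < η → η ≤ 1 → ∀ ε : ℝ, 0 < ε → ∃ A : ℝ, ∀ K : ℝ, 1 ≤ K →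
    (({k : ℤ | k ≠ 0 ∧ |(k : ℝ)| ≤ K ∧
      ∃ x y : ℤ, y ^ 2 = x ^ 3 + k ∧ max |(x : ℝ)| |(y : ℝ)| ≤ K ^ (5 - η)}).ncard : ℝ) ≤
      A * K ^ (1 - η / 6 + ε) := by
  intro η hη hη1 ε hε
  obtain ⟨A, hA, hbox⟩ := Pool.Agent.Work.MP_f2148a_nt.box_count (ε / 5) (by positivity)
  refine ⟨2 * A, fun K hK => ?_⟩
  set V : Set ℤ := {k : ℤ | k ≠ 0 ∧ |(k : ℝ)| ≤ K ∧
      ∃ x y : ℤ, y ^ 2 = x ^ 3 + k ∧ max |(x : ℝ)| |(y : ℝ)| ≤ K ^ (5 - η)} with hV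
  have hfin : V.Finite := by
    apply Set.Finite.subset (Set.toFinite (↑(Finset.Icc (-⌈K⌉) ⌈K⌉) : Set ℤ))
    intro k hk
    obtain ⟨_, h2, _⟩ := hk
    rw [Finset.coe_Icc, Set.mem_Icc, ← abs_le]
    have : ((|k| : ℤ) : ℝ) ≤ (⌈K⌉ : ℝ) := by
      push_cast
      exact h2.trans (Int.le_ceil K)
    exact_mod_cast this
  rw [Set.ncard_eq_toFinset_card V hfin]
  have hch : ∀ k : ℤ, ∃ p : ℤ × ℤ, k ∈ V →
      (p.2 ^ 2 = p.1 ^ 3 + k ∧ max |(p.1 : ℝ)| |(p.2 : ℝ)| ≤ K ^ (5 - η)) := by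
    intro k
    by_cases hk : k ∈ V
    · obtain ⟨_, _, x, y, h1, h2⟩ := hk
      exact ⟨(x, y), fun _ => ⟨h1, h2⟩⟩
    · exact ⟨(0, 0), fun h => absurd h hk⟩
  choose f hf using hch
  have hinj : Set.InjOn f (↑hfin.toFinset : Set ℤ) := by
    intro k hk l hl hkl
    have hk' : k ∈ V := by simpa using hk
    have hl' : l ∈ V := by simpa using hl
    have e1 := (hf k hk').1
    have e2 := (hf l hl').1
    rw [hkl] at e1
    linarith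
  rw [← Finset.card_image_of_injOn hinj]
  set N := ⌊K⌋₊ with hN
  have hN1 : 1 ≤ N := by
    rw [hN, Nat.one_le_floor_iff]; exact hK
  have hNK : (N : ℝ) ≤ K := Nat.floor_le (by linarith)
  have hM1 : K ≤ K ^ (5 - η) := by
    calc K = K ^ (1 : ℝ) := (Real.rpow_one K).symm
      _ ≤ K ^ (5 - η) := Real.rpow_le_rpow_of_exponent_le hK (by linarith)
  have hM0 : 0 ≤ K ^ (5 - η) := by linarith
  have hmem : ∀ p ∈ hfin.toFinset.image f, p.2 ^ 2 ≠ p.1 ^ 3 ∧ |p.2 ^ 2 - p.1 ^ 3| ≤ (N : ℤ) ∧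
      |(p.2 : ℝ)| ≤ K ^ (5 - η) := by
    intro p hp
    rw [Finset.mem_image] at hp
    obtain ⟨k, hk, rfl⟩ := hp
    have hk' : k ∈ V := by simpa using hk
    obtain ⟨h1, h2⟩ := hf k hk'
    obtain ⟨hk0, hkK, _⟩ := hk'
    have e : (f k).2 ^ 2 - (f k).1 ^ 3 = k := by rw [h1]; ring
    refine ⟨?_, ?_, (le_max_right _ _).trans h2⟩
    · intro h
      rw [h] at e
      apply hk0
      rw [← e]; ring
    · rw [e]
      have h3 : |k|.toNat ≤ N := by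
        apply Nat.le_floor
        have e2 : ((|k|.toNat : ℕ) : ℤ) = |k| := Int.toNat_of_nonneg (abs_nonneg _)
        have e3 : ((|k|.toNat : ℕ) : ℝ) = |(k : ℝ)| := by
          have := congrArg (fun z : ℤ => (z : ℝ)) e2
          push_cast at this
          exact this
        rw [e3]; exact hkK
      omega
  refine (hbox N hN1 (K ^ (5 - η)) (hNK.trans hM1) _ hmem).trans ?_
  have hK0 : (0 : ℝ) < K := by linarith
  have b1 : (K ^ (5 - η)) ^ (ε / 5) ≤ K ^ ε := by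
    rw [← Real.rpow_mul hK0.le]
    apply Real.rpow_le_rpow_of_exponent_le hK
    nlinarith
  have b2 : (N : ℝ) ^ (5 / 6 : ℝ) ≤ K ^ (1 - η / 6) := by
    calc (N : ℝ) ^ (5 / 6 : ℝ) ≤ K ^ (5 / 6 : ℝ) := by gcongr
      _ ≤ K ^ (1 - η / 6) := Real.rpow_le_rpow_of_exponent_le hK (by linarith)
  have b3 : (K ^ (5 - η)) ^ (1 / 6 : ℝ) * (N : ℝ) ^ (1 / 6 : ℝ) ≤ K ^ (1 - η / 6) := by
    calc (K ^ (5 - η)) ^ (1 / 6 : ℝ) * (N : ℝ) ^ (1 / 6 : ℝ)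
        ≤ (K ^ (5 - η)) ^ (1 / 6 : ℝ) * K ^ (1 / 6 : ℝ) := by gcongr
      _ = K ^ (1 - η / 6) := by
        rw [← Real.rpow_mul hK0.le, ← Real.rpow_add hK0]
        congr 1
        ring
  calc A * (K ^ (5 - η)) ^ (ε / 5) *
        ((N : ℝ) ^ (5 / 6 : ℝ) + (K ^ (5 - η)) ^ (1 / 6 : ℝ) * (N : ℝ) ^ (1 / 6 : ℝ))
      ≤ A * K ^ ε * (K ^ (1 - η / 6) + K ^ (1 - η / 6)) := by gcongr
    _ = 2 * A * (K ^ (1 - η / 6) * K ^ ε) := by ring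
    _ = 2 * A * K ^ (1 - η / 6 + ε) := by rw [← Real.rpow_add hK0]

end Pool.Agent.Work.MP_f2148a_nt
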