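import Mathlib
import Pool.Agent.Work.MP_f2148a_nt.Sparse

set_option autoImplicit false
set_option maxHeartbeats 2000000

namespace Pool.Agent.Work.MP_f2148a_nt.CountE

open Finset Pool.Agent.Work.MP_f2148a_nt

theorem small_box (C e X0 : ℝ) (hC : 0 < C) (he0 : 0 ≤ e) (he : e ≤ 1 / 2) (hX0 : 1 ≤ X0)
    (x y : ℤ) (hx : (x : ℝ) < X0)
    (hv : |(y : ℝ) ^ 2 - (x : ℝ) ^ 3| ≤ C * |(x : ℝ)| ^ e) :
    |(x : ℝ)| ≤ X0 + C + 1 ∧ |(y : ℝ)| ≤ (X0 + C + 1) ^ 2 + (X0 + C + 1) := by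
  set D := X0 + C + 1 with hD
  have hD1 : 1 ≤ D := by linarith
  have hpow : |(x : ℝ)| ^ e ≤ max 1 |(x : ℝ)| := by
    rcases le_total |(x : ℝ)| 1 with h | h
    · exact (Real.rpow_le_one (abs_nonneg _) h he0).trans (le_max_left _ _)
    · calc |(x : ℝ)| ^ e ≤ |(x : ℝ)| ^ (1 : ℝ) :=
            Real.rpow_le_rpow_of_exponent_le h (by linarith)
        _ = |(x : ℝ)| := Real.rpow_one _
        _ ≤ _ := le_max_right _ _
  have hxD : |(x : ℝ)| ≤ D := by
    rcases le_or_gt 0 (x : ℝ) with h | h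
    · rw [abs_of_nonneg h]; linarith
    · have hx1 : (1 : ℝ) ≤ |(x : ℝ)| := by
        have h1 : x ≤ -1 := by
          have : x < 0 := by exact_mod_cast h
          omega
        have h2 : (x : ℝ) ≤ -1 := by exact_mod_cast h1
        rw [abs_of_neg h]; linarith
      rw [max_eq_right hx1] at hpow
      have h3 : |(x : ℝ)| ^ 3 ≤ |(y : ℝ) ^ 2 - (x : ℝ) ^ 3| := by
        refine le_trans ?_ (le_abs_self _)
        rw [abs_of_neg h]
        have := sq_nonneg (y : ℝ)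
        nlinarith
      have h4 : |(x : ℝ)| ^ 3 ≤ C * |(x : ℝ)| := h3.trans (hv.trans (by gcongr))
      have h5 : |(x : ℝ)| ^ 2 ≤ C := by
        have h6 : |(x : ℝ)| * |(x : ℝ)| ^ 2 ≤ |(x : ℝ)| * C := by
          calc |(x : ℝ)| * |(x : ℝ)| ^ 2 = |(x : ℝ)| ^ 3 := by ring
            _ ≤ C * |(x : ℝ)| := h4
            _ = _ := by ring
        exact le_of_mul_le_mul_left h6 (by linarith)
      nlinarith
  refine ⟨hxD, ?_⟩
  have h1 : |(x : ℝ)| ^ e ≤ D := hpow.trans (max_le hD1 hxD)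
  have h2 : (y : ℝ) ^ 2 ≤ |(x : ℝ)| ^ 3 + C * |(x : ℝ)| ^ e := by
    have h3 := (le_abs_self _).trans hv
    have h4 : (x : ℝ) ^ 3 ≤ |(x : ℝ)| ^ 3 := by
      rw [← abs_pow]; exact le_abs_self _
    linarith
  have h3 : |(x : ℝ)| ^ 3 ≤ D ^ 3 := by gcongr
  have h4 : C * |(x : ℝ)| ^ e ≤ D * D := by
    apply mul_le_mul (by linarith) h1 (by positivity) (by linarith)
  apply le_of_sq_le_sq _ (by positivity)
  rw [sq_abs]
  have h5 : 0 ≤ D ^ 3 := by positivity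
  have h6 : 0 ≤ D ^ 4 := by positivity
  nlinarith

/-- Number of integer points with `|y² - x³| ≤ C |x|^e`. -/
theorem count (e : ℝ) (he0 : 0 ≤ e) (he : e ≤ 1 / 2) (C : ℝ) (hC : 0 < C) (η : ℝ) (hη : 0 < η) :
    ∃ A : ℝ, ∀ N : ℝ, 1 ≤ N →
    ∀ S : Finset (ℤ × ℤ), (∀ p ∈ S, |(p.1 : ℝ)| ≤ N ∧ p.2 ^ 2 ≠ p.1 ^ 3 ∧
      |(p.2 : ℝ) ^ 2 - (p.1 : ℝ) ^ 3| ≤ C * |(p.1 : ℝ)| ^ e) →
    (S.card : ℝ) ≤ A * N ^ (1 / 4 + e / 6 + η) := by
  obtain ⟨A0, hA0, hmain⟩ := main_count (2 * η) (by positivity)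
  obtain ⟨G, hG, hgeo⟩ := geo_sum (1 / 2 + e / 3 + 2 * η) (by positivity)
  set c := 2 * C + 1 with hc
  set X0 := 8 * c with hX0
  have hc1 : 1 ≤ c := by linarith
  have hX1 : 1 ≤ X0 := by linarith
  set B := ⌊(X0 + C + 1) ^ 2 + (X0 + C + 1)⌋₊ with hB
  refine ⟨(2 * (B : ℝ) + 1) ^ 2 + (A0 * (4 * c)) * G, ?_⟩
  intro N hN S hS
  have hN1 : 1 ≤ N ^ (1 / 4 + e / 6 + η) := Real.one_le_rpow hN (by positivity)
  set S1 := S.filter (fun p => (p.1 : ℝ) < X0) with hS1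
  set S2 := S.filter (fun p => ¬ (p.1 : ℝ) < X0) with hS2
  have hcS : S.card = S1.card + S2.card := (Finset.card_filter_add_card_filter_not _).symm
  -- the small part
  have hb1 : (S1.card : ℝ) ≤ (2 * (B : ℝ) + 1) ^ 2 := by
    have hsub : S1 ⊆ (Finset.Icc (-(B : ℤ)) B) ×ˢ (Finset.Icc (-(B : ℤ)) B) := by
      intro p hp
      rw [hS1, Finset.mem_filter] at hp
      obtain ⟨_, _, hv⟩ := hS p hp.1
      obtain ⟨b1, b2⟩ := small_box C e X0 hC he0 he hX1 p.1 p.2 hp.2 hv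
      have hD2 : X0 + C + 1 ≤ (X0 + C + 1) ^ 2 + (X0 + C + 1) := by
        have := sq_nonneg (X0 + C + 1)
        linarith
      have key : ∀ z : ℤ, |(z : ℝ)| ≤ (X0 + C + 1) ^ 2 + (X0 + C + 1) →
          z ∈ Finset.Icc (-(B : ℤ)) B := by
        intro z hz
        rw [Finset.mem_Icc, ← abs_le]
        have e : ((|z|.toNat : ℕ) : ℤ) = |z| := Int.toNat_of_nonneg (abs_nonneg _)
        have h : |z|.toNat ≤ B := by
          apply Nat.le_floor
          have e2 : ((|z|.toNat : ℕ) : ℝ) = |(z : ℝ)| := by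
            have := congrArg (fun z : ℤ => (z : ℝ)) e
            push_cast at this
            exact this
          rw [e2]; exact hz
        omega
      rw [Finset.mem_product]
      exact ⟨key _ (b1.trans hD2), key _ b2⟩
    have := Finset.card_le_card hsub
    rw [Finset.card_product, Int.card_Icc] at this
    have e : ((B : ℤ) + 1 - -(B : ℤ)).toNat = 2 * B + 1 := by omega
    rw [e] at this
    have h2 : (S1.card : ℝ) ≤ ((2 * B + 1) * (2 * B + 1) : ℕ) := by exact_mod_cast this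
    push_cast at h2
    linarith
  -- the large part
  have hb2 : (S2.card : ℝ) ≤ (A0 * (4 * c)) * G * N ^ (1 / 4 + e / 6 + η) := by
    rcases S2.eq_empty_or_nonempty with hemp | hne
    · rw [hemp]; simp only [card_empty, CharP.cast_eq_zero]; positivity
    have hfacts : ∀ p ∈ S2, ((2 ^ dy p.1 : ℕ) : ℤ) ^ 2 ≤ p.1 ∧ p.1 ≤ 4 * ((2 ^ dy p.1 : ℕ) : ℤ) ^ 2 ∧
        |(p.2 : ℝ) ^ 2 - (p.1 : ℝ) ^ 3| ≤ c * ((2 ^ dy p.1 : ℕ) : ℝ) ^ (2 * e) ∧
        2 * c ≤ ((2 ^ dy p.1 : ℕ) : ℝ) ^ 2 ∧ ¬ IsSquare p.1 ∧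
        ((2 ^ dy p.1 : ℕ) : ℝ) ^ 2 ≤ N := by
      intro p hp
      rw [hS2, Finset.mem_filter] at hp
      obtain ⟨hS', hx⟩ := hp
      push Not at hx
      obtain ⟨h1, h2, h3⟩ := hS p hS'
      have hx1r : (1 : ℝ) ≤ p.1 := by linarith
      have hx1 : 1 ≤ p.1 := by exact_mod_cast hx1r
      obtain ⟨d1, d2⟩ := dy_spec p.1 hx1
      set T : ℕ := 2 ^ dy p.1 with hT
      have hT1 : (1 : ℝ) ≤ T := by
        have : 1 ≤ T := Nat.one_le_two_pow
        exact_mod_cast this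
      have d1r : (T : ℝ) ^ 2 ≤ p.1 := by exact_mod_cast d1
      have d2r : (p.1 : ℝ) ≤ 4 * (T : ℝ) ^ 2 := by exact_mod_cast d2
      have hxabs : |(p.1 : ℝ)| = p.1 := abs_of_nonneg (by linarith)
      have hT2 : 2 * c ≤ (T : ℝ) ^ 2 := by
        have : 8 * c ≤ p.1 := by linarith
        linarith
      have hk : |(p.2 : ℝ) ^ 2 - (p.1 : ℝ) ^ 3| ≤ c * (T : ℝ) ^ (2 * e) := by
        refine h3.trans ?_
        rw [hxabs]
        have h4 : (p.1 : ℝ) ^ e ≤ 2 * (T : ℝ) ^ (2 * e) := by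
          calc (p.1 : ℝ) ^ e ≤ (4 * (T : ℝ) ^ 2) ^ e := by gcongr
            _ = (4 : ℝ) ^ e * ((T : ℝ) ^ 2) ^ e := Real.mul_rpow (by norm_num) (by positivity)
            _ ≤ 2 * (T : ℝ) ^ (2 * e) := by
              apply mul_le_mul _ (le_of_eq _) (by positivity) (by norm_num)
              · calc (4 : ℝ) ^ e ≤ (4 : ℝ) ^ (1 / 2 : ℝ) :=
                      Real.rpow_le_rpow_of_exponent_le (by norm_num) he
                  _ = 2 := by
                    rw [← Real.sqrt_eq_rpow, show (4 : ℝ) = 2 ^ 2 by norm_num,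
                      Real.sqrt_sq (by norm_num)]
              · rw [← Real.rpow_natCast, ← Real.rpow_mul (by positivity)]
                norm_num
        have h5 : 0 ≤ (T : ℝ) ^ (2 * e) := by positivity
        calc C * (p.1 : ℝ) ^ e ≤ C * (2 * (T : ℝ) ^ (2 * e)) := by gcongr
          _ ≤ c * (T : ℝ) ^ (2 * e) := by rw [hc]; nlinarith
      refine ⟨d1, d2, hk, hT2, ?_, ?_⟩
      · intro hsq
        have h1' := square_case T p.1 p.2 d1 h2 hsq
        have h2' : (T : ℝ) ^ 3 ≤ |(p.2 : ℝ) ^ 2 - (p.1 : ℝ) ^ 3| := by exact_mod_cast h1'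
        have h3' : (T : ℝ) ^ (2 * e) ≤ T := by
          calc (T : ℝ) ^ (2 * e) ≤ (T : ℝ) ^ (1 : ℝ) :=
                Real.rpow_le_rpow_of_exponent_le hT1 (by linarith)
            _ = T := Real.rpow_one _
        have h4' : c * (T : ℝ) ^ (2 * e) ≤ c * T := by gcongr
        have h5' : (T : ℝ) ^ 3 = (T : ℝ) ^ 2 * T := by ring
        nlinarith
      · rw [hxabs] at h1
        linarith
    obtain ⟨p0, hp0, hJ⟩ := S2.exists_max_image (fun p => dy p.1) hne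
    set J := dy p0.1 with hJdef
    have hmaps : Set.MapsTo (fun p : ℤ × ℤ => dy p.1) (↑S2 : Set (ℤ × ℤ))
        (↑(Finset.range (J + 1)) : Set ℕ) := by
      intro p hp
      have := hJ p hp
      simp only [Finset.coe_range, Set.mem_Iio]
      omega
    rw [Finset.card_eq_sum_card_fiberwise hmaps]
    push_cast
    have hstep : ∀ j ∈ Finset.range (J + 1), (({p ∈ S2 | dy p.1 = j}).card : ℝ) ≤
        (A0 * (4 * c)) * ((2 : ℝ) ^ j) ^ (1 / 2 + e / 3 + 2 * η) := by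
      intro j _
      set F := {p ∈ S2 | dy p.1 = j} with hF
      rcases F.eq_empty_or_nonempty with hemp | ⟨p1, hp1⟩
      · rw [hemp]; simp only [card_empty, CharP.cast_eq_zero]; positivity
      rw [hF, Finset.mem_filter] at hp1
      obtain ⟨_, _, _, f4, _, _⟩ := hfacts p1 hp1.1
      rw [hp1.2] at f4
      set T := 2 ^ j with hT
      have hT1 : 1 ≤ T := Nat.one_le_two_pow
      have hTr : (1 : ℝ) ≤ (T : ℝ) := by exact_mod_cast hT1
      have hTe : (1 : ℝ) ≤ (T : ℝ) ^ (2 * e) := Real.one_le_rpow hTr (by positivity)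
      have hTe1 : (T : ℝ) ^ (2 * e) ≤ T := by
        calc (T : ℝ) ^ (2 * e) ≤ (T : ℝ) ^ (1 : ℝ) :=
              Real.rpow_le_rpow_of_exponent_le hTr (by linarith)
          _ = T := Real.rpow_one _
      have hcT : 0 < c * (T : ℝ) ^ (2 * e) := by positivity
      set K := ⌈c * (T : ℝ) ^ (2 * e)⌉₊ with hK
      have hK1 : 1 ≤ K := Nat.one_le_iff_ne_zero.2 (Nat.ceil_pos.2 hcT).ne'
      have hKle : (K : ℝ) ≤ 2 * c * (T : ℝ) ^ (2 * e) := by
        have h1 := (Nat.ceil_lt_add_one hcT.le).le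
        have h2 : (1 : ℝ) ≤ c * (T : ℝ) ^ (2 * e) := one_le_mul_of_one_le_of_one_le hc1 hTe
        linarith
      have hKT : K ≤ T ^ 3 := by
        have : (K : ℝ) ≤ (T : ℝ) ^ 3 := by
          calc (K : ℝ) ≤ 2 * c * (T : ℝ) ^ (2 * e) := hKle
            _ ≤ (T : ℝ) ^ 2 * T := by gcongr
            _ = (T : ℝ) ^ 3 := by ring
        exact_mod_cast this
      have hcount := hmain T K hT1 hK1 hKT F (by
        intro p hp
        rw [hF, Finset.mem_filter] at hp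
        obtain ⟨g1, g2, g3, _, g5, _⟩ := hfacts p hp.1
        rw [hp.2] at g1 g2 g3
        refine ⟨g1, g2, ?_, g5⟩
        have : |(p.2 : ℝ) ^ 2 - (p.1 : ℝ) ^ 3| ≤ (K : ℝ) := g3.trans (Nat.le_ceil _)
        exact_mod_cast this)
      refine hcount.trans ?_
      have e1 : (K : ℝ) ^ (2 / 3 : ℝ) ≤ 2 * c * (T : ℝ) ^ (1 / 2 + e / 3) := by
        calc (K : ℝ) ^ (2 / 3 : ℝ) ≤ (2 * c * (T : ℝ) ^ (2 * e)) ^ (2 / 3 : ℝ) := by gcongr
          _ = (2 * c) ^ (2 / 3 : ℝ) * ((T : ℝ) ^ (2 * e)) ^ (2 / 3 : ℝ) :=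
            Real.mul_rpow (by positivity) (by positivity)
          _ ≤ (2 * c) ^ (1 : ℝ) * (T : ℝ) ^ (1 / 2 + e / 3) := by
            rw [← Real.rpow_mul (by positivity)]
            apply mul_le_mul _ _ (by positivity) (by positivity)
            · exact Real.rpow_le_rpow_of_exponent_le (by linarith) (by norm_num)
            · exact Real.rpow_le_rpow_of_exponent_le hTr (by linarith)
          _ = _ := by rw [Real.rpow_one]
      have e2 : (T : ℝ) ^ (1 / 2 : ℝ) * (K : ℝ) ^ (1 / 6 : ℝ) ≤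
          2 * c * (T : ℝ) ^ (1 / 2 + e / 3) := by
        calc (T : ℝ) ^ (1 / 2 : ℝ) * (K : ℝ) ^ (1 / 6 : ℝ)
            ≤ (T : ℝ) ^ (1 / 2 : ℝ) * (2 * c * (T : ℝ) ^ (2 * e)) ^ (1 / 6 : ℝ) := by gcongr
          _ = (2 * c) ^ (1 / 6 : ℝ) * ((T : ℝ) ^ (1 / 2 : ℝ) *
                ((T : ℝ) ^ (2 * e)) ^ (1 / 6 : ℝ)) := by
            rw [Real.mul_rpow (by positivity) (by positivity)]; ring
          _ = (2 * c) ^ (1 / 6 : ℝ) * (T : ℝ) ^ (1 / 2 + e / 3) := by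
            rw [← Real.rpow_mul (by positivity), ← Real.rpow_add (by positivity)]
            congr 2
            ring
          _ ≤ (2 * c) ^ (1 : ℝ) * (T : ℝ) ^ (1 / 2 + e / 3) := by
            apply mul_le_mul_of_nonneg_right _ (by positivity)
            exact Real.rpow_le_rpow_of_exponent_le (by linarith) (by norm_num)
          _ = _ := by rw [Real.rpow_one]
      have hcast : ((2 : ℝ) ^ j) = (T : ℝ) := by rw [hT]; push_cast; rfl
      rw [hcast]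
      calc A0 * (T : ℝ) ^ (2 * η) * ((K : ℝ) ^ (2 / 3 : ℝ) +
            (T : ℝ) ^ (1 / 2 : ℝ) * (K : ℝ) ^ (1 / 6 : ℝ))
          ≤ A0 * (T : ℝ) ^ (2 * η) * (2 * c * (T : ℝ) ^ (1 / 2 + e / 3) +
            2 * c * (T : ℝ) ^ (1 / 2 + e / 3)) := by gcongr
        _ = A0 * (4 * c) * ((T : ℝ) ^ (1 / 2 + e / 3) * (T : ℝ) ^ (2 * η)) := by ring
        _ = A0 * (4 * c) * (T : ℝ) ^ (1 / 2 + e / 3 + 2 * η) := by
          rw [← Real.rpow_add (by positivity)]
    refine (Finset.sum_le_sum hstep).trans ?_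
    rw [← Finset.mul_sum]
    have hAc : 0 ≤ A0 * (4 * c) := by positivity
    have hJM : ((2 : ℝ) ^ J) ^ (1 / 2 + e / 3 + 2 * η) ≤ N ^ (1 / 4 + e / 6 + η) := by
      obtain ⟨_, _, _, _, _, f6⟩ := hfacts p0 hp0
      rw [← hJdef] at f6
      push_cast at f6
      have e1 : ((2 : ℝ) ^ J) ^ (1 / 2 + e / 3 + 2 * η) =
          (((2 : ℝ) ^ J) ^ 2) ^ (1 / 4 + e / 6 + η) := by
        rw [← Real.rpow_natCast ((2 : ℝ) ^ J) 2, ← Real.rpow_mul (by positivity)]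
        congr 1
        push_cast; ring
      rw [e1]
      exact Real.rpow_le_rpow (by positivity) f6 (by positivity)
    calc A0 * (4 * c) * ∑ j ∈ Finset.range (J + 1), ((2 : ℝ) ^ j) ^ (1 / 2 + e / 3 + 2 * η)
        ≤ A0 * (4 * c) * (G * ((2 : ℝ) ^ J) ^ (1 / 2 + e / 3 + 2 * η)) := by
          apply mul_le_mul_of_nonneg_left (hgeo J) hAc
      _ ≤ A0 * (4 * c) * (G * N ^ (1 / 4 + e / 6 + η)) := by gcongr
      _ = _ := by ring
  have hcSr : (S.card : ℝ) = S1.card + S2.card := by rw [hcS]; push_cast; ring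
  rw [hcSr, add_mul]
  have hB2 : (2 * (B : ℝ) + 1) ^ 2 ≤ (2 * (B : ℝ) + 1) ^ 2 * N ^ (1 / 4 + e / 6 + η) := by
    have : 0 ≤ (2 * (B : ℝ) + 1) ^ 2 := by positivity
    nlinarith
  linarith

end Pool.Agent.Work.MP_f2148a_nt.CountE
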