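import Mathlib

set_option autoImplicit false
set_option maxHeartbeats 2000000

namespace Pool.Agent.Work.MP_f2148a_nt

/-- If `y² ` is close to `x³` then `y` is close to `x^(3/2)`. -/
theorem y_close (T y x k : ℝ) (hT : 0 < T) (hTx : T ^ 2 = x) (hy : 0 ≤ y)
    (hk : |y ^ 2 - x ^ 3| ≤ k) : |y - T ^ 3| * T ^ 3 ≤ k := by
  have h1 : (y - T ^ 3) * (y + T ^ 3) = y ^ 2 - x ^ 3 := by rw [← hTx]; ring
  have h2 : |y - T ^ 3| * (y + T ^ 3) ≤ k := by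
    have h3 : |y - T ^ 3| * |y + T ^ 3| ≤ k := by rw [← abs_mul, h1]; exact hk
    rwa [abs_of_nonneg (by positivity : (0 : ℝ) ≤ y + T ^ 3)] at h3
  have : 0 ≤ |y - T ^ 3| * y := by positivity
  linarith

/-- The two real relations behind the gap principle. -/
theorem gap_real (a t1 t2 e1 e2 : ℝ) (hv : 3 * a * (t1 - a) ^ 2 + 2 * (t1 - a) ^ 3 + e1 =
    3 * a * (t2 - a) ^ 2 + 2 * (t2 - a) ^ 3 + e2) (h12 : t1 < t2) :
    ((t1 - a) + (t2 - a)) * (3 / 2 * (t1 + t2)) = (e1 - e2) / (t2 - t1) - (t2 - t1) ^ 2 / 2 ∧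
    (2 * a * (t1 - a) + (t1 - a) ^ 2) + (2 * a * (t2 - a) + (t2 - a) ^ 2) =
      (t2 - t1) ^ 2 / 6 + 2 / 3 * ((e1 - e2) / (t2 - t1)) - ((t1 - a) + (t2 - a)) ^ 2 / 2 := by
  have hδ : 0 < t2 - t1 := by linarith
  have h1 : ((t1 - a) + (t2 - a)) * (3 / 2 * (t1 + t2)) =
      (e1 - e2) / (t2 - t1) - (t2 - t1) ^ 2 / 2 := by
    rw [eq_sub_iff_add_eq, eq_div_iff hδ.ne']
    linear_combination -hv
  refine ⟨h1, ?_⟩
  linear_combination (2 / 3 : ℝ) * h1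

theorem chord (d m : ℤ) (hd : 0 < d) : ∃ a b : ℤ, 1 ≤ b ∧ b ≤ 3 * d ∧ IsCoprime a b ∧
    2 * b * m = 3 * a * d := by
  set G : ℤ := ((Int.gcd (2 * m) (3 * d) : ℕ) : ℤ) with hG
  have hGpos : 0 < Int.gcd (2 * m) (3 * d) := Int.gcd_pos_of_ne_zero_right _ (by omega)
  have hGp : 0 < G := by rw [hG]; exact_mod_cast hGpos
  obtain ⟨a, ha⟩ : G ∣ 2 * m := Int.gcd_dvd_left _ _
  obtain ⟨b, hb⟩ : G ∣ 3 * d := Int.gcd_dvd_right _ _
  have hbpos : 0 < b := by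
    have : 0 < G * b := by rw [← hb]; omega
    exact (mul_pos_iff_of_pos_left hGp).1 this
  refine ⟨a, b, hbpos, ?_, ?_, ?_⟩
  · rw [hb]; nlinarith
  · rw [Int.isCoprime_iff_gcd_eq_one]
    have h1 : Int.gcd (2 * m) (3 * d) = Int.gcd (G * a) (G * b) := by rw [← ha, ← hb]
    rw [Int.gcd_mul_left] at h1
    have h2 : G.natAbs = Int.gcd (2 * m) (3 * d) := by rw [hG]; simp
    rw [h2] at h1
    have h4 : Int.gcd (2 * m) (3 * d) * 1 = Int.gcd (2 * m) (3 * d) * Int.gcd a b := by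
      rw [mul_one]; exact h1
    exact (Nat.eq_of_mul_eq_mul_left hGpos h4).symm
  · have : G * (2 * b * m) = G * (3 * a * d) := by
      calc G * (2 * b * m) = (G * b) * (2 * m) := by ring
        _ = (3 * d) * (G * a) := by rw [← hb, ← ha]
        _ = G * (3 * a * d) := by ring
    exact mul_left_cancel₀ hGp.ne' this

/-- Gap principle. -/
theorem gap_principle (x1 x2 y1 y2 : ℤ) (hx1 : (10 : ℝ) ^ 8 ≤ (x1 : ℝ)) (h12 : x1 < x2)
    (hy1 : 0 ≤ y1) (hy2 : 0 ≤ y2)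
    (hk1 : |(y1 : ℝ) ^ 2 - (x1 : ℝ) ^ 3| ≤ 1 / 1000 * (x1 : ℝ) ^ (3 / 4 : ℝ))
    (hk2 : |(y2 : ℝ) ^ 2 - (x2 : ℝ) ^ 3| ≤ 1 / 1000 * (x2 : ℝ) ^ (3 / 4 : ℝ)) :
    (x1 : ℝ) ^ (1 / 4 : ℝ) < (x2 : ℝ) - x1 := by
  by_contra hcon
  push Not at hcon
  have h12r : (x1 : ℝ) < x2 := by exact_mod_cast h12
  have hx1pos : (0 : ℝ) < x1 := lt_of_lt_of_le (by norm_num) hx1
  have hx2pos : (0 : ℝ) < x2 := by linarith
  set s := (x1 : ℝ) ^ (1 / 4 : ℝ) with hs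
  set q := (x2 : ℝ) ^ (1 / 4 : ℝ) with hq
  have hspos : 0 < s := by positivity
  have hqpos : 0 < q := by positivity
  have hs4 : s ^ 4 = x1 := by
    rw [hs, ← Real.rpow_natCast, ← Real.rpow_mul hx1pos.le]; norm_num
  have hq4 : q ^ 4 = x2 := by
    rw [hq, ← Real.rpow_natCast, ← Real.rpow_mul hx2pos.le]; norm_num
  have hs3 : (x1 : ℝ) ^ (3 / 4 : ℝ) = s ^ 3 := by
    rw [hs, ← Real.rpow_natCast, ← Real.rpow_mul hx1pos.le]; norm_num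
  have hq3 : (x2 : ℝ) ^ (3 / 4 : ℝ) = q ^ 3 := by
    rw [hq, ← Real.rpow_natCast, ← Real.rpow_mul hx2pos.le]; norm_num
  have hs100 : 100 ≤ s := by
    apply le_of_pow_le_pow_left₀ (n := 4) (by norm_num) hspos.le
    rw [hs4]; norm_num at hx1 ⊢; exact hx1
  have hsq : s < q := by
    apply lt_of_pow_lt_pow_left₀ 4 hqpos.le
    rw [hs4, hq4]; exact h12r
  have hs2q2 : s ^ 2 < q ^ 2 := by gcongr
  have hq2 : q ^ 2 ≤ s ^ 2 + 1 := by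
    apply le_of_pow_le_pow_left₀ (n := 2) (by norm_num) (by positivity)
    have e1 : (q ^ 2) ^ 2 = q ^ 4 := by ring
    have e2 : (s ^ 2 + 1) ^ 2 = s ^ 4 + 2 * s ^ 2 + 1 := by ring
    rw [e1, e2, hs4, hq4]
    nlinarith
  have hs2 : 10000 ≤ s ^ 2 := by nlinarith
  -- the errors
  have hy1r : (0 : ℝ) ≤ y1 := by exact_mod_cast hy1
  have hy2r : (0 : ℝ) ≤ y2 := by exact_mod_cast hy2
  have c1 : |(y1 : ℝ) - s ^ 6| * s ^ 3 ≤ 1 / 1000 := by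
    have h := y_close (s ^ 2) y1 x1 _ (by positivity) (by rw [← hs4]; ring) hy1r hk1
    rw [hs3] at h
    have e1 : (s ^ 2) ^ 3 = s ^ 6 := by ring
    rw [e1] at h
    have h2 : s ^ 3 * (|(y1 : ℝ) - s ^ 6| * s ^ 3) ≤ s ^ 3 * (1 / 1000) := by
      calc s ^ 3 * (|(y1 : ℝ) - s ^ 6| * s ^ 3) = |(y1 : ℝ) - s ^ 6| * s ^ 6 := by ring
        _ ≤ 1 / 1000 * s ^ 3 := h
        _ = s ^ 3 * (1 / 1000) := by ring
    exact le_of_mul_le_mul_left h2 (by positivity)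
  have c2 : |(y2 : ℝ) - q ^ 6| * s ^ 3 ≤ 1 / 1000 := by
    have h := y_close (q ^ 2) y2 x2 _ (by positivity) (by rw [← hq4]; ring) hy2r hk2
    rw [hq3] at h
    have e1 : (q ^ 2) ^ 3 = q ^ 6 := by ring
    rw [e1] at h
    have h2 : q ^ 3 * (|(y2 : ℝ) - q ^ 6| * q ^ 3) ≤ q ^ 3 * (1 / 1000) := by
      calc q ^ 3 * (|(y2 : ℝ) - q ^ 6| * q ^ 3) = |(y2 : ℝ) - q ^ 6| * q ^ 6 := by ring
        _ ≤ 1 / 1000 * q ^ 3 := h
        _ = q ^ 3 * (1 / 1000) := by ring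
    have h3 : |(y2 : ℝ) - q ^ 6| * q ^ 3 ≤ 1 / 1000 := le_of_mul_le_mul_left h2 (by positivity)
    have h4 : |(y2 : ℝ) - q ^ 6| * s ^ 3 ≤ |(y2 : ℝ) - q ^ 6| * q ^ 3 := by gcongr
    linarith
  -- the chord
  set d := x2 - x1 with hd
  have hdpos : 0 < d := by omega
  obtain ⟨a, b, hb1, hb3, hcop, hab⟩ := chord d (y2 - y1) hdpos
  have hdr : (d : ℝ) = x2 - x1 := by rw [hd]; push_cast; ring
  have hd1 : (1 : ℝ) ≤ d := by exact_mod_cast hdpos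
  have hds : (d : ℝ) ≤ s := by rw [hdr]; exact hcon
  have hbr : (1 : ℝ) ≤ b := by exact_mod_cast hb1
  have hb3r : (b : ℝ) ≤ 3 * d := by exact_mod_cast hb3
  set t1 := (b : ℝ) * s ^ 2 with ht1
  set t2 := (b : ℝ) * q ^ 2 with ht2
  set e1 := 2 * (b : ℝ) ^ 3 * ((y1 : ℝ) - s ^ 6) with he1
  set e2 := 2 * (b : ℝ) ^ 3 * ((y2 : ℝ) - q ^ 6) with he2
  have ht12 : t1 < t2 := by rw [ht1, ht2]; gcongr
  set δ := t2 - t1 with hδ
  have hδpos : 0 < δ := by linarith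
  have hδeq : δ * (q ^ 2 + s ^ 2) = b * d := by
    rw [hδ, ht1, ht2, hdr, ← hs4, ← hq4]; ring
  have hvv : 3 * (a : ℝ) * (t1 - a) ^ 2 + 2 * (t1 - a) ^ 3 + e1 =
      3 * a * (t2 - a) ^ 2 + 2 * (t2 - a) ^ 3 + e2 := by
    have habr : 2 * (b : ℝ) * (y2 - y1) = 3 * a * (x2 - x1) := by
      have : ((2 * b * (y2 - y1) : ℤ) : ℝ) = ((3 * a * d : ℤ) : ℝ) := by rw [hab]
      push_cast at this
      rw [hdr] at this
      exact this
    rw [← hs4, ← hq4] at habr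
    rw [he1, he2, ht1, ht2]
    linear_combination (-(b : ℝ) ^ 2) * habr
  obtain ⟨r1, r2⟩ := gap_real a t1 t2 e1 e2 hvv ht12
  rw [← hδ] at r1 r2
  set S := (t1 - a) + (t2 - a) with hS
  set ε := e1 - e2 with hε
  have he1b : |e1| * s ^ 3 ≤ 2 * (b : ℝ) ^ 3 / 1000 := by
    rw [he1, abs_mul, abs_of_pos (by positivity : (0 : ℝ) < 2 * (b : ℝ) ^ 3)]
    calc 2 * (b : ℝ) ^ 3 * |(y1 : ℝ) - s ^ 6| * s ^ 3
        = 2 * (b : ℝ) ^ 3 * (|(y1 : ℝ) - s ^ 6| * s ^ 3) := by ring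
      _ ≤ 2 * (b : ℝ) ^ 3 * (1 / 1000) := by gcongr
      _ = _ := by ring
  have he2b : |e2| * s ^ 3 ≤ 2 * (b : ℝ) ^ 3 / 1000 := by
    rw [he2, abs_mul, abs_of_pos (by positivity : (0 : ℝ) < 2 * (b : ℝ) ^ 3)]
    calc 2 * (b : ℝ) ^ 3 * |(y2 : ℝ) - q ^ 6| * s ^ 3
        = 2 * (b : ℝ) ^ 3 * (|(y2 : ℝ) - q ^ 6| * s ^ 3) := by ring
      _ ≤ 2 * (b : ℝ) ^ 3 * (1 / 1000) := by gcongr
      _ = _ := by ring
  have hεb : |ε| * s ^ 3 ≤ 4 * (b : ℝ) ^ 3 / 1000 := by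
    have h1 : |ε| ≤ |e1| + |e2| := abs_sub _ _
    calc |ε| * s ^ 3 ≤ (|e1| + |e2|) * s ^ 3 := by gcongr
      _ ≤ 4 * (b : ℝ) ^ 3 / 1000 := by linarith
  have hqs : q ^ 2 + s ^ 2 ≤ 2.1 * s ^ 2 := by linarith
  have hA : |ε / δ| ≤ 0.08 := by
    rw [abs_div, abs_of_pos hδpos, div_le_iff₀ hδpos]
    have hpos : 0 < (q ^ 2 + s ^ 2) * s ^ 3 := by positivity
    apply le_of_mul_le_mul_right _ hpos
    have e3 : 0.08 * δ * ((q ^ 2 + s ^ 2) * s ^ 3) = 0.08 * (b * d) * s ^ 3 := by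
      rw [← hδeq]; ring
    rw [e3]
    calc |ε| * ((q ^ 2 + s ^ 2) * s ^ 3) = (|ε| * s ^ 3) * (q ^ 2 + s ^ 2) := by ring
      _ ≤ (4 * (b : ℝ) ^ 3 / 1000) * (2.1 * s ^ 2) := by gcongr
      _ = (8.4 / 1000) * s ^ 2 * b * (b * b) := by ring
      _ ≤ (8.4 / 1000) * s ^ 2 * b * ((3 * d) * (3 * s)) := by
        gcongr
        linarith
      _ = 0.0756 * (b * d * s ^ 3) := by ring
      _ ≤ 0.08 * (b * d * s ^ 3) := by
        have : 0 ≤ (b : ℝ) * d * s ^ 3 := by positivity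
        linarith
      _ = 0.08 * (b * d) * s ^ 3 := by ring
  have hδle : δ ≤ 3 / 2 := by
    have h1 : δ * (q ^ 2 + s ^ 2) ≤ 3 / 2 * (q ^ 2 + s ^ 2) := by
      rw [hδeq]
      calc (b : ℝ) * d ≤ (3 * d) * d := by gcongr
        _ = 3 * (d * d) := by ring
        _ ≤ 3 * (s * s) := by gcongr
        _ = 3 * s ^ 2 := by ring
        _ ≤ 3 / 2 * (q ^ 2 + s ^ 2) := by linarith
    exact le_of_mul_le_mul_right h1 (by positivity)
  have hδ2 : δ ^ 2 ≤ 9 / 4 := by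
    calc δ ^ 2 ≤ (3 / 2) ^ 2 := by gcongr
      _ = 9 / 4 := by norm_num
  have ht1big : 10000 ≤ t1 := by
    rw [ht1]
    calc (10000 : ℝ) = 1 * 10000 := by norm_num
      _ ≤ b * s ^ 2 := by gcongr
  have hSb : |S| ≤ 1 / 10000 := by
    have h1 : |S| * (3 / 2 * (t1 + t2)) ≤ 0.08 + 9 / 8 := by
      have h2 : |S| * |3 / 2 * (t1 + t2)| = |S * (3 / 2 * (t1 + t2))| := (abs_mul _ _).symm
      rw [abs_of_pos (by linarith : 0 < 3 / 2 * (t1 + t2))] at h2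
      rw [h2, r1]
      calc |ε / δ - δ ^ 2 / 2| ≤ |ε / δ| + |δ ^ 2 / 2| := abs_sub _ _
        _ = |ε / δ| + δ ^ 2 / 2 := by rw [abs_of_nonneg (by positivity : 0 ≤ δ ^ 2 / 2)]
        _ ≤ 0.08 + 9 / 8 := by linarith
    have h3 : 0 ≤ |S| := abs_nonneg _
    have h5 : |S| * 30000 ≤ |S| * (3 / 2 * (t1 + t2)) := by
      apply mul_le_mul_of_nonneg_left (by linarith) h3
    linarith
  have hS2 : S ^ 2 ≤ 1 / 10000 := by
    rw [← sq_abs]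
    have h3 : 0 ≤ |S| := abs_nonneg _
    calc |S| ^ 2 ≤ (1 / 10000) ^ 2 := by gcongr
      _ ≤ 1 / 10000 := by norm_num
  -- U = 0
  set U : ℤ := b ^ 2 * (x1 + x2) - 2 * a ^ 2 with hU
  have hUr : (U : ℝ) = (2 * a * (t1 - a) + (t1 - a) ^ 2) + (2 * a * (t2 - a) + (t2 - a) ^ 2) := by
    rw [hU]; push_cast; rw [← hs4, ← hq4, ht1, ht2]; ring
  have hU0 : U = 0 := by
    have h1 : |(U : ℝ)| < 1 := by
      rw [hUr, r2, abs_lt]
      rw [abs_le] at hA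
      have : 0 ≤ S ^ 2 := sq_nonneg _
      have : 0 ≤ δ ^ 2 := sq_nonneg _
      constructor <;> linarith [hA.1, hA.2]
    have h2 : |U| < 1 := by exact_mod_cast h1
    exact Int.abs_lt_one_iff.1 h2
  have hb : b = 1 := by
    have h1 : b ^ 2 ∣ 2 * a ^ 2 := ⟨x1 + x2, by rw [hU] at hU0; linarith⟩
    have h2 : IsCoprime (b ^ 2) (a ^ 2) := hcop.symm.pow
    have h3 : b ^ 2 ∣ 2 := h2.dvd_of_dvd_mul_right h1
    have h4 : b ^ 2 ≤ 2 := Int.le_of_dvd (by norm_num) h3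
    nlinarith
  rw [hU0] at hUr
  rw [r2] at hUr
  have hb' : (b : ℝ) = 1 := by rw [hb]; norm_num
  rw [hb', one_mul] at ht1 ht2 hδeq
  rw [hb'] at he1b hεb
  norm_num at he1b hεb
  -- relations for b = 1
  have g1 : ε / δ = 3 / 4 * S ^ 2 - δ ^ 2 / 4 := by
    push_cast at hUr
    linarith
  have g2 : S * (t1 + t2) = (S ^ 2 - δ ^ 2) / 2 := by
    rw [g1] at r1; linarith
  have hSδ : |S| ≤ δ / 10 := by
    have h1 : |S| * (t1 + t2) ≤ (|S| * (1 / 10000) + δ ^ 2) / 2 := by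
      have h2 : |S| * (t1 + t2) = |S * (t1 + t2)| := by
        rw [abs_mul, abs_of_pos (by linarith : 0 < t1 + t2)]
      rw [h2, g2, abs_div, abs_of_pos (by norm_num : (0 : ℝ) < 2)]
      have h3 : |S ^ 2 - δ ^ 2| ≤ |S| * (1 / 10000) + δ ^ 2 := by
        calc |S ^ 2 - δ ^ 2| ≤ |S ^ 2| + |δ ^ 2| := abs_sub _ _
          _ = |S| * |S| + δ ^ 2 := by
            rw [abs_of_nonneg (sq_nonneg δ), abs_of_nonneg (sq_nonneg S), ← sq_abs S, sq]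
          _ ≤ |S| * (1 / 10000) + δ ^ 2 := by gcongr
      linarith
    have h4 : 0 ≤ |S| := abs_nonneg _
    by_contra h5
    push Not at h5
    have h6 : δ ^ 2 ≤ 3 / 2 * (10 * |S|) := by
      rw [sq]
      apply mul_le_mul hδle (by linarith) hδpos.le (by norm_num)
    have h7 : |S| * 20000 ≤ |S| * (t1 + t2) := by
      apply mul_le_mul_of_nonneg_left (by linarith) h4
    linarith
  have hδ3 : (δ * s) ^ 3 ≤ 0.02 := by
    have h1 : δ ^ 3 * (1 / 4 - 3 / 400) ≤ |ε| := by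
      have h2 : ε = δ * (3 / 4 * S ^ 2 - δ ^ 2 / 4) := by
        rw [← g1]; field_simp
      have h3 : S ^ 2 ≤ (δ / 10) ^ 2 := by
        rw [← sq_abs]
        gcongr
      have h4 : -|ε| ≤ ε := neg_abs_le _
      have h5 := mul_le_mul_of_nonneg_left h3 hδpos.le
      have h6 : δ ^ 3 * (1 / 4 - 3 / 400) = δ * (δ ^ 2 / 4) - 3 / 4 * (δ * (δ / 10) ^ 2) := by ring
      have h7 : -ε = δ * (δ ^ 2 / 4) - 3 / 4 * (δ * S ^ 2) := by rw [h2]; ring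
      rw [h6]
      linarith
    have hδ3pos : 0 < δ ^ 3 := by positivity
    have h8 : δ ^ 3 ≤ 4.2 * |ε| := by linarith [abs_nonneg ε]
    calc (δ * s) ^ 3 = δ ^ 3 * s ^ 3 := by ring
      _ ≤ (4.2 * |ε|) * s ^ 3 := by gcongr
      _ = 4.2 * (|ε| * s ^ 3) := by ring
      _ ≤ 0.02 := by linarith
  have hδs : δ * s ≤ 0.28 := by
    apply le_of_pow_le_pow_left₀ (n := 3) (by norm_num) (by norm_num)
    refine hδ3.trans (by norm_num)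
  have hσ : |t1 - a| ≤ 0.55 * δ := by
    have h1 : t1 - a = (S - δ) / 2 := by rw [hS, hδ]; ring
    rw [h1, abs_div, abs_of_pos (by norm_num : (0 : ℝ) < 2)]
    have h2 : |S - δ| ≤ |S| + |δ| := abs_sub _ _
    rw [abs_of_pos hδpos] at h2
    linarith
  have hδ1 : δ ≤ 0.0028 := by
    have h1 : δ * 100 ≤ δ * s := mul_le_mul_of_nonneg_left hs100 hδpos.le
    linarith
  set σ := t1 - a with hσdef
  have hσ1 : |σ| ≤ 0.002 := by linarith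
  have hσ0 : 0 ≤ |σ| := abs_nonneg _
  have hσs : |σ| * s ≤ 0.16 := by
    have h1 : |σ| * s ≤ 0.55 * δ * s := mul_le_mul_of_nonneg_right hσ hspos.le
    linarith
  have ha : |(a : ℝ)| ≤ 1.01 * s ^ 2 := by
    have h1 : (a : ℝ) = s ^ 2 - σ := by rw [hσdef, ht1]; ring
    rw [h1]
    calc |s ^ 2 - σ| ≤ |s ^ 2| + |σ| := abs_sub _ _
      _ = s ^ 2 + |σ| := by rw [abs_of_pos (by positivity)]
      _ ≤ 1.01 * s ^ 2 := by linarith
  have he1s : |e1| * s ≤ 0.002 := by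
    have h1 : |e1| * s ≤ |e1| * s ^ 3 := by
      have : s ≤ s ^ 3 := le_self_pow₀ (by linarith) (by norm_num)
      gcongr
    linarith
  have he1s2 : |e1| * s ^ 2 ≤ 0.002 := by
    have h1 : |e1| * s ^ 2 ≤ |e1| * s ^ 3 := by
      have : s ^ 2 ≤ s ^ 3 := pow_le_pow_right₀ (by linarith) (by norm_num)
      gcongr
    linarith
  have he10 : |e1| ≤ 0.002 := by
    have h1 : |e1| * 100 ≤ |e1| * s := mul_le_mul_of_nonneg_left hs100 (abs_nonneg _)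
    have h2 : 0 ≤ |e1| := abs_nonneg _
    linarith
  -- v = 0
  set v : ℤ := 2 * y1 - 3 * a * x1 + a ^ 3 with hv
  have hvr : (v : ℝ) = 3 * a * σ ^ 2 + 2 * σ ^ 3 + e1 := by
    rw [hv]; push_cast
    rw [he1, hb', hσdef, ht1, ← hs4]; ring
  have hv0 : v = 0 := by
    have h1 : |(v : ℝ)| < 1 := by
      rw [hvr]
      calc |3 * (a : ℝ) * σ ^ 2 + 2 * σ ^ 3 + e1| ≤ |3 * (a : ℝ) * σ ^ 2 + 2 * σ ^ 3| + |e1| :=
            abs_add_le _ _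
        _ ≤ (|3 * (a : ℝ) * σ ^ 2| + |2 * σ ^ 3|) + |e1| := by gcongr; exact abs_add_le _ _
        _ = 3 * |(a : ℝ)| * |σ| ^ 2 + 2 * |σ| ^ 3 + |e1| := by
          rw [abs_mul, abs_mul, abs_mul, abs_pow, abs_pow]; norm_num
        _ ≤ 3 * (1.01 * s ^ 2) * |σ| ^ 2 + 2 * 0.002 ^ 3 + 0.002 := by gcongr
        _ = 3.03 * (|σ| * s) ^ 2 + 2 * 0.002 ^ 3 + 0.002 := by ring
        _ ≤ 3.03 * 0.16 ^ 2 + 2 * 0.002 ^ 3 + 0.002 := by gcongr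
        _ < 1 := by norm_num
    have h2 : |v| < 1 := by exact_mod_cast h1
    exact Int.abs_lt_one_iff.1 h2
  set u : ℤ := x1 - a ^ 2 with hu
  set w : ℤ := 3 * u ^ 2 - 4 * a * v with hw
  have hwr : (w : ℝ) = 4 * a * σ ^ 3 + 3 * σ ^ 4 - 4 * a * e1 := by
    rw [hw, hu]; push_cast
    rw [hvr, hσdef, ht1, ← hs4]; ring
  have hw0 : w = 0 := by
    have h1 : |(w : ℝ)| < 1 := by
      rw [hwr]
      calc |4 * (a : ℝ) * σ ^ 3 + 3 * σ ^ 4 - 4 * a * e1|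
          ≤ |4 * (a : ℝ) * σ ^ 3 + 3 * σ ^ 4| + |4 * a * e1| := abs_sub _ _
        _ ≤ (|4 * (a : ℝ) * σ ^ 3| + |3 * σ ^ 4|) + |4 * a * e1| := by
            gcongr; exact abs_add_le _ _
        _ = 4 * |(a : ℝ)| * |σ| ^ 3 + 3 * |σ| ^ 4 + 4 * |(a : ℝ)| * |e1| := by
          rw [abs_mul, abs_mul, abs_mul, abs_mul, abs_mul, abs_pow, abs_pow]; norm_num
        _ ≤ 4 * (1.01 * s ^ 2) * |σ| ^ 3 + 3 * 0.002 ^ 4 + 4 * (1.01 * s ^ 2) * |e1| := by gcongr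
        _ = 4.04 * (|σ| * s) ^ 2 * |σ| + 3 * 0.002 ^ 4 + 4.04 * (|e1| * s ^ 2) := by ring
        _ ≤ 4.04 * 0.16 ^ 2 * 0.002 + 3 * 0.002 ^ 4 + 4.04 * 0.002 := by gcongr
        _ < 1 := by norm_num
    have h2 : |w| < 1 := by exact_mod_cast h1
    exact Int.abs_lt_one_iff.1 h2
  have hu0 : u = 0 := by
    rw [hv0, hw0] at hw
    have : u ^ 2 = 0 := by linarith
    exact pow_eq_zero_iff (two_ne_zero) |>.1 this
  -- contradiction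
  rw [hU, hb] at hU0
  rw [hu] at hu0
  omega

end Pool.Agent.Work.MP_f2148a_nt
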