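import Mathlib
import Pool.Agent.Work.MP_f2148a_nt.DivisorBound

set_option autoImplicit false
set_option maxHeartbeats 1000000

namespace Pool.Agent.Work.MP_f2148a_nt.LowerK

open Finset

/-- Pairs of points of the grid with the same value of `y² - x³` and fixed `x ≠ x'`. -/
theorem pairs_fixed (X Y : ℕ) (x x' : ℕ) (hx : x ∈ Icc 1 X) (hx' : x' ∈ Icc 1 X) (hne : x ≠ x')
    (B : ℝ) (hB : ∀ n : ℕ, 1 ≤ n → n ≤ X ^ 3 → ((Nat.divisors n).card : ℝ) ≤ B) :
    (((Icc 1 Y ×ˢ Icc 1 Y).filter (fun p : ℕ × ℕ =>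
      ((p.1 : ℤ)) ^ 2 - (x : ℤ) ^ 3 = ((p.2 : ℤ)) ^ 2 - (x' : ℤ) ^ 3)).card : ℝ) ≤ B := by
  rw [mem_Icc] at hx hx'
  set n : ℕ := ((x : ℤ) ^ 3 - (x' : ℤ) ^ 3).natAbs with hn
  have hcube : (x : ℤ) ^ 3 ≠ (x' : ℤ) ^ 3 := by
    intro h
    apply hne
    have : x ^ 3 = x' ^ 3 := by exact_mod_cast h
    exact Nat.pow_left_injective (by norm_num : (3 : ℕ) ≠ 0) this
  have hn1 : 1 ≤ n := by
    rw [hn]
    exact Nat.one_le_iff_ne_zero.2 (Int.natAbs_ne_zero.2 (sub_ne_zero.2 hcube))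
  have hn2 : n ≤ X ^ 3 := by
    have h1 : (x : ℤ) ^ 3 ≤ (X : ℤ) ^ 3 := by
      have : (x : ℤ) ≤ X := by exact_mod_cast hx.2
      gcongr
    have h2 : (x' : ℤ) ^ 3 ≤ (X : ℤ) ^ 3 := by
      have : (x' : ℤ) ≤ X := by exact_mod_cast hx'.2
      gcongr
    have h3 : (0 : ℤ) ≤ (x : ℤ) ^ 3 := by positivity
    have h4 : (0 : ℤ) ≤ (x' : ℤ) ^ 3 := by positivity
    have : (n : ℤ) ≤ (X : ℤ) ^ 3 := by
      rw [hn, Int.natCast_natAbs, abs_le]
      constructor <;> linarith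
    exact_mod_cast this
  refine le_trans ?_ (hB n hn1 hn2)
  have hle : ((Icc 1 Y ×ˢ Icc 1 Y).filter (fun p : ℕ × ℕ =>
      ((p.1 : ℤ)) ^ 2 - (x : ℤ) ^ 3 = ((p.2 : ℤ)) ^ 2 - (x' : ℤ) ^ 3)).card ≤
      (Nat.divisors n).card := by
    apply Finset.card_le_card_of_injOn (fun p : ℕ × ℕ => p.1 + p.2)
    · intro p hp
      simp only [coe_filter, mem_product, mem_Icc, Set.mem_ofPred_eq] at hp
      simp only [mem_coe, Nat.mem_divisors]
      refine ⟨?_, by omega⟩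
      have h1 : ((p.1 : ℤ) + p.2) ∣ (x : ℤ) ^ 3 - (x' : ℤ) ^ 3 :=
        ⟨(p.1 : ℤ) - p.2, by linarith [hp.2, show ((p.1 : ℤ) + p.2) * ((p.1 : ℤ) - p.2) =
          (p.1 : ℤ) ^ 2 - (p.2 : ℤ) ^ 2 by ring]⟩
      have h2 := Int.natAbs_dvd_natAbs.2 h1
      have h3 : ((p.1 : ℤ) + p.2).natAbs = p.1 + p.2 := by omega
      rw [h3] at h2
      exact h2
    · intro p hp q hq hpq
      simp only [coe_filter, mem_product, mem_Icc, Set.mem_ofPred_eq] at hp hq
      simp only at hpq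
      have h1 : ((p.1 : ℤ) + p.2) * ((p.1 : ℤ) - p.2) = (x : ℤ) ^ 3 - (x' : ℤ) ^ 3 := by
        have := hp.2
        have e : ((p.1 : ℤ) + p.2) * ((p.1 : ℤ) - p.2) = (p.1 : ℤ) ^ 2 - (p.2 : ℤ) ^ 2 := by ring
        linarith
      have h2 : ((q.1 : ℤ) + q.2) * ((q.1 : ℤ) - q.2) = (x : ℤ) ^ 3 - (x' : ℤ) ^ 3 := by
        have := hq.2
        have e : ((q.1 : ℤ) + q.2) * ((q.1 : ℤ) - q.2) = (q.1 : ℤ) ^ 2 - (q.2 : ℤ) ^ 2 := by ring
        linarith
      have h3 : ((p.1 : ℤ) + p.2) = (q.1 : ℤ) + q.2 := by exact_mod_cast hpq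
      have h4 : (0 : ℤ) < (p.1 : ℤ) + p.2 := by
        have := hp.1.1.1
        omega
      rw [h3] at h1 h4
      have h5 : ((p.1 : ℤ) - p.2) = (q.1 : ℤ) - q.2 := by
        apply mul_left_cancel₀ h4.ne'
        rw [h1, h2]
      apply Prod.ext <;> omega
  exact_mod_cast hle

/-- Number of distinct values of `y² - x³` on a box. -/
theorem image_card (X Y : ℕ) (Y0 : ℕ) (hX : 1 ≤ X) (hY : Y0 < Y)
    (B : ℝ) (hB0 : 0 ≤ B)
    (hB : ∀ n : ℕ, 1 ≤ n → n ≤ X ^ 3 → ((Nat.divisors n).card : ℝ) ≤ B) :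
    ((X : ℝ) * ((Y : ℝ) - Y0)) ^ 2 ≤
      (((Icc 1 X ×ˢ Ioc Y0 Y).image
        (fun p : ℕ × ℕ => ((p.2 : ℤ)) ^ 2 - (p.1 : ℤ) ^ 3)).card : ℝ) *
      ((X : ℝ) * ((Y : ℝ) - Y0) + (X : ℝ) ^ 2 * B) := by
  set P := Icc 1 X ×ˢ Ioc Y0 Y with hP
  set f : ℕ × ℕ → ℤ := fun p => ((p.2 : ℤ)) ^ 2 - (p.1 : ℤ) ^ 3 with hf
  have hPc : (P.card : ℝ) = (X : ℝ) * ((Y : ℝ) - Y0) := by
    rw [hP, card_product, Nat.card_Icc, Nat.card_Ioc]
    push_cast [Nat.cast_sub hY.le]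
    simp
  -- second moment
  set r : ℤ → ℕ := fun k => ((P.filter (fun p => f p = k)).card) with hr
  have h1 : P.card = ∑ k ∈ P.image f, r k := by
    rw [hr]
    exact Finset.card_eq_sum_card_image f P
  have h2 : ((P.card : ℝ)) ^ 2 ≤ ((P.image f).card : ℝ) * ∑ k ∈ P.image f, (r k : ℝ) ^ 2 := by
    have : (P.card : ℝ) = ∑ k ∈ P.image f, (r k : ℝ) := by
      rw [h1]; push_cast; rfl
    rw [this]
    exact sq_sum_le_card_mul_sum_sq
  -- number of pairs with the same value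
  set Q := (P ×ˢ P).filter (fun q => f q.1 = f q.2) with hQ
  have h3 : (∑ k ∈ P.image f, (r k : ℝ) ^ 2) = (Q.card : ℝ) := by
    have hmaps : Set.MapsTo (fun q : (ℕ × ℕ) × (ℕ × ℕ) => f q.1)
        (↑Q : Set ((ℕ × ℕ) × (ℕ × ℕ))) (↑(P.image f) : Set ℤ) := by
      intro q hq
      simp only [hQ, coe_filter, mem_product, Set.mem_ofPred_eq] at hq
      rw [mem_coe]
      exact mem_image_of_mem f hq.1.1
    rw [Finset.card_eq_sum_card_fiberwise hmaps]
    push_cast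
    apply Finset.sum_congr rfl
    intro k _
    have : (Q.filter (fun q => f q.1 = k)) =
        (P.filter (fun p => f p = k)) ×ˢ (P.filter (fun p => f p = k)) := by
      ext q
      simp only [hQ, mem_filter, mem_product]
      constructor
      · rintro ⟨⟨⟨a1, a2⟩, a3⟩, a4⟩
        exact ⟨⟨a1, a4⟩, ⟨a2, by rw [← a3]; exact a4⟩⟩
      · rintro ⟨⟨a1, a4⟩, ⟨a2, a5⟩⟩
        exact ⟨⟨⟨a1, a2⟩, by rw [a4, a5]⟩, a4⟩
    rw [this, card_product, hr]
    push_cast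
    ring
  have h4 : (Q.card : ℝ) ≤ (X : ℝ) * ((Y : ℝ) - Y0) + (X : ℝ) ^ 2 * B := by
    -- split according to `x = x'`
    have hsplit : Q.card = (Q.filter (fun q => q.1.1 = q.2.1)).card +
        (Q.filter (fun q => ¬ q.1.1 = q.2.1)).card :=
      (Finset.card_filter_add_card_filter_not _).symm
    have ha : ((Q.filter (fun q => q.1.1 = q.2.1)).card : ℝ) ≤ (X : ℝ) * ((Y : ℝ) - Y0) := by
      rw [← hPc]
      have : (Q.filter (fun q => q.1.1 = q.2.1)).card ≤ P.card := by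
        apply Finset.card_le_card_of_injOn (fun q => q.1)
        · intro q hq
          simp only [hQ, coe_filter, mem_filter, mem_product, Set.mem_ofPred_eq] at hq
          exact hq.1.1.1
        · intro q hq q' hq' hqq
          simp only [hQ, coe_filter, mem_filter, mem_product, Set.mem_ofPred_eq, hP, mem_Icc,
            mem_Ioc, hf] at hq hq' hqq
          obtain ⟨⟨⟨_, _⟩, e1⟩, e2⟩ := hq
          obtain ⟨⟨⟨_, _⟩, e1'⟩, e2'⟩ := hq'
          have key : ∀ q : (ℕ × ℕ) × (ℕ × ℕ),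
              ((q.1.2 : ℤ)) ^ 2 - (q.1.1 : ℤ) ^ 3 = ((q.2.2 : ℤ)) ^ 2 - (q.2.1 : ℤ) ^ 3 →
              q.1.1 = q.2.1 → q.2 = q.1 := by
            intro q g1 g2
            rw [g2] at g1
            have g3 : ((q.1.2 : ℤ)) ^ 2 = ((q.2.2 : ℤ)) ^ 2 := by linarith
            have g4 : q.1.2 ^ 2 = q.2.2 ^ 2 := by exact_mod_cast g3
            have g5 : q.1.2 = q.2.2 := Nat.pow_left_injective (by norm_num : (2 : ℕ) ≠ 0) g4
            exact Prod.ext g2.symm g5.symm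
          have k1 := key q e1 e2
          have k2 := key q' e1' e2'
          exact Prod.ext hqq (by rw [k1, k2, hqq])
      exact_mod_cast this
    have hb : ((Q.filter (fun q => ¬ q.1.1 = q.2.1)).card : ℝ) ≤ (X : ℝ) ^ 2 * B := by
      set T := Q.filter (fun q => ¬ q.1.1 = q.2.1) with hT
      have hmaps : Set.MapsTo (fun q : (ℕ × ℕ) × (ℕ × ℕ) => (q.1.1, q.2.1))
          (↑T : Set ((ℕ × ℕ) × (ℕ × ℕ))) (↑(Icc 1 X ×ˢ Icc 1 X) : Set (ℕ × ℕ)) := by
        intro q hq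
        simp only [hT, hQ, coe_filter, mem_filter, mem_product, Set.mem_ofPred_eq, hP] at hq
        simp only [coe_product, Set.mem_prod, mem_coe]
        exact ⟨hq.1.1.1.1, hq.1.1.2.1⟩
      rw [Finset.card_eq_sum_card_fiberwise hmaps]
      push_cast
      calc ∑ b ∈ Icc 1 X ×ˢ Icc 1 X, ((T.filter (fun q => (q.1.1, q.2.1) = b)).card : ℝ)
          ≤ ∑ _b ∈ Icc 1 X ×ˢ Icc 1 X, B := by
            apply Finset.sum_le_sum
            intro b hb
            rw [mem_product] at hb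
            by_cases hbb : b.1 = b.2
            · have : T.filter (fun q => (q.1.1, q.2.1) = b) = ∅ := by
                apply Finset.filter_eq_empty_iff.2
                intro q hq h
                rw [hT, mem_filter] at hq
                apply hq.2
                have e1 := congrArg Prod.fst h
                have e2 := congrArg Prod.snd h
                simp only at e1 e2
                rw [e1, e2, hbb]
              rw [this]
              simpa using hB0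
            · refine le_trans ?_ (pairs_fixed X Y b.1 b.2 hb.1 hb.2 hbb B hB)
              have : (T.filter (fun q => (q.1.1, q.2.1) = b)).card ≤
                  ((Icc 1 Y ×ˢ Icc 1 Y).filter (fun p : ℕ × ℕ =>
                    ((p.1 : ℤ)) ^ 2 - (b.1 : ℤ) ^ 3 = ((p.2 : ℤ)) ^ 2 - (b.2 : ℤ) ^ 3)).card := by
                apply Finset.card_le_card_of_injOn (fun q => (q.1.2, q.2.2))
                · intro q hq
                  simp only [hT, hQ, coe_filter, mem_filter, mem_product, Set.mem_ofPred_eq, hP,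
                    mem_Icc, mem_Ioc, hf] at hq
                  obtain ⟨⟨⟨⟨⟨_, c1⟩, ⟨_, c2⟩⟩, c3⟩, _⟩, c4⟩ := hq
                  have e1 := congrArg Prod.fst c4
                  have e2 := congrArg Prod.snd c4
                  simp only at e1 e2
                  simp only [coe_filter, mem_product, mem_Icc, Set.mem_ofPred_eq]
                  rw [← e1, ← e2]
                  exact ⟨⟨⟨by omega, by omega⟩, ⟨by omega, by omega⟩⟩, c3⟩
                · intro q hq q' hq' hqq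
                  simp only [coe_filter, Set.mem_ofPred_eq] at hq hq'
                  have e1 := congrArg Prod.fst hq.2
                  have e2 := congrArg Prod.snd hq.2
                  have e1' := congrArg Prod.fst hq'.2
                  have e2' := congrArg Prod.snd hq'.2
                  have e3 := congrArg Prod.fst hqq
                  have e4 := congrArg Prod.snd hqq
                  simp only at e1 e2 e1' e2' e3 e4
                  exact Prod.ext (Prod.ext (by rw [e1, e1']) e3) (Prod.ext (by rw [e2, e2']) e4)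
              exact_mod_cast this
        _ = (X : ℝ) ^ 2 * B := by
            rw [Finset.sum_const, card_product, Nat.card_Icc, nsmul_eq_mul, Nat.add_sub_cancel]
            push_cast
            ring
    rw [hsplit]
    push_cast
    linarith
  rw [← hPc]
  calc ((P.card : ℝ)) ^ 2 ≤ ((P.image f).card : ℝ) * ∑ k ∈ P.image f, (r k : ℝ) ^ 2 := h2
    _ = ((P.image f).card : ℝ) * (Q.card : ℝ) := by rw [h3]
    _ ≤ _ := by rw [hPc]; gcongr

theorem lower_k : ∃ c : ℝ, 0 < c ∧ ∀ K : ℝ, 1 ≤ K →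
    c * K ^ (5 / 6 : ℝ) ≤ (({k : ℤ | k ≠ 0 ∧ |(k : ℝ)| ≤ K ∧
      ∃ x y : ℤ, y ^ 2 = x ^ 3 + k ∧ max |(x : ℝ)| |(y : ℝ)| ^ 2 ≤ 8 * |(k : ℝ)|}).ncard : ℝ) := by
  obtain ⟨A, hA, hdiv⟩ := Pool.Agent.Work.MP_f2148a_nt.exists_card_divisors_le (1 / 6) (by norm_num)
  refine ⟨min (1 / 32) (1 / (256 * (1 + A))), by positivity, fun K hK => ?_⟩
  have hK0 : 0 < K := by linarith
  set V : Set ℤ := {k : ℤ | k ≠ 0 ∧ |(k : ℝ)| ≤ K ∧
      ∃ x y : ℤ, y ^ 2 = x ^ 3 + k ∧ max |(x : ℝ)| |(y : ℝ)| ^ 2 ≤ 8 * |(k : ℝ)|} with hV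
  have hfin : V.Finite := by
    apply Set.Finite.subset (Set.toFinite (↑(Finset.Icc (-⌈K⌉) ⌈K⌉) : Set ℤ))
    intro k hk
    obtain ⟨_, h2, _⟩ := hk
    rw [Finset.coe_Icc, Set.mem_Icc, ← abs_le]
    have : ((|k| : ℤ) : ℝ) ≤ (⌈K⌉ : ℝ) := by
      push_cast
      exact h2.trans (Int.le_ceil K)
    exact_mod_cast this
  have hpos : 0 < K ^ (5 / 6 : ℝ) := by positivity
  rcases lt_or_ge K 64 with hlt | hge
  · -- small `K`
    have h1 : (1 : ℤ) ∈ V := by
      refine ⟨one_ne_zero, by simpa using hK, 0, 1, by norm_num, by norm_num⟩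
    have h2 : 1 ≤ V.ncard := by
      rw [Nat.one_le_iff_ne_zero]
      intro h
      rw [Set.ncard_eq_zero hfin] at h
      rw [h] at h1
      exact h1
    have h3 : K ^ (5 / 6 : ℝ) ≤ 32 := by
      calc K ^ (5 / 6 : ℝ) ≤ (64 : ℝ) ^ (5 / 6 : ℝ) := by gcongr
        _ = 32 := by
          rw [show (64 : ℝ) = 2 ^ (6 : ℝ) by norm_num, ← Real.rpow_mul (by norm_num)]
          norm_num
    have h4 : (1 : ℝ) ≤ (V.ncard : ℝ) := by exact_mod_cast h2
    calc min (1 / 32) (1 / (256 * (1 + A))) * K ^ (5 / 6 : ℝ) ≤ 1 / 32 * 32 := by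
          gcongr
          exact min_le_left _ _
      _ = 1 := by norm_num
      _ ≤ _ := h4
  · -- large `K`
    set s := K ^ (1 / 6 : ℝ) with hs
    have hs0 : 0 < s := by positivity
    have hs6 : s ^ 6 = K := by
      rw [hs, ← Real.rpow_natCast, ← Real.rpow_mul hK0.le]; norm_num
    have hs5 : K ^ (5 / 6 : ℝ) = s ^ 5 := by
      rw [hs, ← Real.rpow_natCast, ← Real.rpow_mul hK0.le]; norm_num
    have hs2 : 2 ≤ s := by
      apply le_of_pow_le_pow_left₀ (n := 6) (by norm_num) hs0.le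
      rw [hs6]; linarith
    set X := ⌊s ^ 2 / 2⌋₊ with hX
    set Y := ⌊s ^ 3⌋₊ with hY
    set Y0 := ⌊s ^ 3 / 2⌋₊ with hY0
    have hXle : (X : ℝ) ≤ s ^ 2 / 2 := Nat.floor_le (by positivity)
    have hXge : s ^ 2 / 4 ≤ (X : ℝ) := by
      have h1 : s ^ 2 / 2 - 1 < (X : ℝ) := Nat.sub_one_lt_floor _
      nlinarith
    have hYle : (Y : ℝ) ≤ s ^ 3 := Nat.floor_le (by positivity)
    have hYge : s ^ 3 - 1 < (Y : ℝ) := Nat.sub_one_lt_floor _
    have hY0le : (Y0 : ℝ) ≤ s ^ 3 / 2 := Nat.floor_le (by positivity)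
    have hY0ge : s ^ 3 / 2 < (Y0 : ℝ) + 1 := Nat.lt_floor_add_one _
    have hs3 : 8 ≤ s ^ 3 := by
      calc (8 : ℝ) = 2 ^ 3 := by norm_num
        _ ≤ s ^ 3 := by gcongr
    have hX1 : 1 ≤ X := by
      have : (1 : ℝ) ≤ X := by nlinarith
      exact_mod_cast this
    have hYY : Y0 < Y := by
      have : (Y0 : ℝ) < Y := by linarith
      exact_mod_cast this
    have hB : ∀ n : ℕ, 1 ≤ n → n ≤ X ^ 3 → ((Nat.divisors n).card : ℝ) ≤ A * s := by
      intro n hn hn2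
      refine (hdiv n hn).trans ?_
      have h1 : (n : ℝ) ≤ K := by
        have : (n : ℝ) ≤ (X : ℝ) ^ 3 := by exact_mod_cast hn2
        calc (n : ℝ) ≤ (X : ℝ) ^ 3 := this
          _ ≤ (s ^ 2 / 2) ^ 3 := by gcongr
          _ = s ^ 6 / 8 := by ring
          _ ≤ s ^ 6 := by
            have : 0 ≤ s ^ 6 := by positivity
            linarith
          _ = K := hs6
      have h2 : (n : ℝ) ^ (1 / 6 : ℝ) ≤ s := by
        rw [hs]; gcongr
      gcongr
    have himg := image_card X Y Y0 hX1 hYY (A * s) (by positivity) hB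
    set J := (Icc 1 X ×ˢ Ioc Y0 Y).image
        (fun p : ℕ × ℕ => ((p.2 : ℤ)) ^ 2 - (p.1 : ℤ) ^ 3) with hJ
    have hJV : J.card ≤ V.ncard := by
      rw [Set.ncard_eq_toFinset_card V hfin]
      apply Finset.card_le_card
      intro k hk
      rw [hJ, mem_image] at hk
      obtain ⟨p, hp, rfl⟩ := hk
      rw [mem_product, mem_Icc, mem_Ioc] at hp
      obtain ⟨⟨p1, p2⟩, p3, p4⟩ := hp
      rw [Set.Finite.mem_toFinset]
      have q1 : (1 : ℝ) ≤ p.1 := by exact_mod_cast p1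
      have q2 : (p.1 : ℝ) ≤ s ^ 2 / 2 := le_trans (by exact_mod_cast p2) hXle
      have q3 : s ^ 3 / 2 < (p.2 : ℝ) := by
        have : (Y0 : ℝ) + 1 ≤ p.2 := by exact_mod_cast p3
        linarith
      have q4 : (p.2 : ℝ) ≤ s ^ 3 := le_trans (by exact_mod_cast p4) hYle
      have r1 : (p.1 : ℝ) ^ 3 ≤ s ^ 6 / 8 := by
        calc (p.1 : ℝ) ^ 3 ≤ (s ^ 2 / 2) ^ 3 := by gcongr
          _ = s ^ 6 / 8 := by ring
      have r2 : s ^ 6 / 4 < (p.2 : ℝ) ^ 2 := by
        calc s ^ 6 / 4 = (s ^ 3 / 2) ^ 2 := by ring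
          _ < (p.2 : ℝ) ^ 2 := by gcongr
      have r3 : (p.2 : ℝ) ^ 2 ≤ s ^ 6 := by
        calc (p.2 : ℝ) ^ 2 ≤ (s ^ 3) ^ 2 := by gcongr
          _ = s ^ 6 := by ring
      have r4 : 0 ≤ (p.1 : ℝ) ^ 3 := by positivity
      have r5 : s ^ 6 / 8 < (p.2 : ℝ) ^ 2 - (p.1 : ℝ) ^ 3 := by linarith
      have r6 : 0 < s ^ 6 / 8 := by positivity
      have ecast : ((((p.2 : ℤ)) ^ 2 - (p.1 : ℤ) ^ 3 : ℤ) : ℝ) =
          (p.2 : ℝ) ^ 2 - (p.1 : ℝ) ^ 3 := by push_cast; ring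
      refine ⟨?_, ?_, (p.1 : ℤ), (p.2 : ℤ), by ring, ?_⟩
      · intro h
        rw [h] at ecast
        push_cast at ecast
        linarith
      · rw [ecast, abs_of_pos (by linarith), ← hs6]
        linarith
      · have habs : |((((p.2 : ℤ)) ^ 2 - (p.1 : ℤ) ^ 3 : ℤ) : ℝ)| =
            (p.2 : ℝ) ^ 2 - (p.1 : ℝ) ^ 3 := by
          rw [ecast]; exact abs_of_pos (by linarith)
        rw [habs]
        have m1 : max |(((p.1 : ℤ)) : ℝ)| |(((p.2 : ℤ)) : ℝ)| ≤ s ^ 3 := by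
          have e1 : |(((p.1 : ℤ)) : ℝ)| = (p.1 : ℝ) := by
            push_cast; exact abs_of_nonneg (by positivity)
          have e2 : |(((p.2 : ℤ)) : ℝ)| = (p.2 : ℝ) := by
            push_cast; exact abs_of_nonneg (by positivity)
          rw [e1, e2]
          refine max_le ?_ q4
          nlinarith
        have m2 : 0 ≤ max |(((p.1 : ℤ)) : ℝ)| |(((p.2 : ℤ)) : ℝ)| := le_max_of_le_left (abs_nonneg _)
        calc max |(((p.1 : ℤ)) : ℝ)| |(((p.2 : ℤ)) : ℝ)| ^ 2 ≤ (s ^ 3) ^ 2 := by gcongr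
          _ = 8 * (s ^ 6 / 8) := by ring
          _ ≤ _ := by linarith
    have hJr : (J.card : ℝ) ≤ (V.ncard : ℝ) := by exact_mod_cast hJV
    have hl1 : s ^ 5 / 16 ≤ (X : ℝ) * ((Y : ℝ) - Y0) := by
      have h1 : s ^ 3 / 4 ≤ (Y : ℝ) - Y0 := by linarith
      calc s ^ 5 / 16 = s ^ 2 / 4 * (s ^ 3 / 4) := by ring
        _ ≤ (X : ℝ) * ((Y : ℝ) - Y0) := by gcongr
    have hu1 : (X : ℝ) * ((Y : ℝ) - Y0) ≤ s ^ 5 := by
      have h1 : (Y : ℝ) - Y0 ≤ s ^ 3 := by linarith [show (0 : ℝ) ≤ Y0 from by positivity]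
      have h0 : 0 ≤ (Y : ℝ) - Y0 := by linarith
      calc (X : ℝ) * ((Y : ℝ) - Y0) ≤ s ^ 2 / 2 * s ^ 3 := by gcongr
        _ ≤ s ^ 5 := by
          have : 0 ≤ s ^ 5 := by positivity
          nlinarith
    have hu2 : (X : ℝ) ^ 2 * (A * s) ≤ A * s ^ 5 := by
      calc (X : ℝ) ^ 2 * (A * s) ≤ (s ^ 2 / 2) ^ 2 * (A * s) := by gcongr
        _ = A * s ^ 5 / 4 := by ring
        _ ≤ A * s ^ 5 := by
          have : 0 ≤ A * s ^ 5 := by positivity
          linarith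
    have hfinal : (s ^ 5 / 16) ^ 2 ≤ (V.ncard : ℝ) * ((1 + A) * s ^ 5) := by
      calc (s ^ 5 / 16) ^ 2 ≤ ((X : ℝ) * ((Y : ℝ) - Y0)) ^ 2 := by gcongr
        _ ≤ (J.card : ℝ) * ((X : ℝ) * ((Y : ℝ) - Y0) + (X : ℝ) ^ 2 * (A * s)) := himg
        _ ≤ (J.card : ℝ) * ((1 + A) * s ^ 5) := by
          apply mul_le_mul_of_nonneg_left _ (by positivity)
          linarith
        _ ≤ _ := by gcongr
    have hs5pos : 0 < s ^ 5 := by positivity
    rw [hs5]
    calc min (1 / 32) (1 / (256 * (1 + A))) * s ^ 5 ≤ 1 / (256 * (1 + A)) * s ^ 5 := by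
          gcongr
          exact min_le_right _ _
      _ ≤ (V.ncard : ℝ) := by
          rw [one_div, inv_mul_eq_div, div_le_iff₀ (by positivity)]
          have : s ^ 5 * s ^ 5 ≤ (V.ncard : ℝ) * (256 * (1 + A)) * s ^ 5 := by
            nlinarith
          exact le_of_mul_le_mul_right this hs5pos

end Pool.Agent.Work.MP_f2148a_nt.LowerK
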