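import Mathlib
import Pool.Agent.Work.MP_f2148a_nt.Sparse

set_option autoImplicit false
set_option maxHeartbeats 2000000

namespace Pool.Agent.Work.MP_f2148a_nt

/-- Basic consequences of a violation with large `x`. -/
theorem viol_setup (C : ℝ) (hC : 0 < C) : ∃ c1 X1 : ℝ, 1 ≤ c1 ∧ 1 ≤ X1 ∧ ∀ x y : ℤ, X1 ≤ (x : ℝ) →
    y ^ 2 ≠ x ^ 3 → C * |(y : ℝ) ^ 2 - (x : ℝ) ^ 3| ^ 3 < max |(x : ℝ)| |(y : ℝ)| →
    |(y : ℝ) ^ 2 - (x : ℝ) ^ 3| ≤ c1 * √(x : ℝ) ∧ ¬ IsSquare x := by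
  set c := 256 / C ^ 2 + 1 with hc
  have hc1 : 1 ≤ c := by
    have : 0 < 256 / C ^ 2 := by positivity
    linarith
  have hX1 : 1 ≤ 3 / C + 8 * c + 1 := by
    have : 0 < 3 / C := by positivity
    linarith
  refine ⟨c, 3 / C + 8 * c + 1, hc1, hX1, ?_⟩
  intro x y hx hne hv
  have hx1 : 1 ≤ x := by
    have : (1 : ℝ) ≤ x := by linarith
    exact_mod_cast this
  obtain ⟨d1, d2⟩ := dy_spec x hx1
  obtain ⟨h1, _, h3, _⟩ := large_x_block C c _ |(y : ℝ)| hC hc rfl (2 ^ dy x) Nat.one_le_two_pow x y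
    hx d1 d2 hne le_rfl hv
  refine ⟨h1.trans ?_, h3⟩
  have : ((2 ^ dy x : ℕ) : ℝ) ≤ √(x : ℝ) := by
    apply Real.le_sqrt_of_sq_le
    exact_mod_cast d1
  gcongr

theorem g_identity (t σ e : ℝ) :
    8 * ((3 * t * σ ^ 2 - σ ^ 3) + e) ^ 2 - 9 * (t ^ 2 - (t - σ) ^ 2) *
      (3 * (t ^ 2 - (t - σ) ^ 2) ^ 2 - 4 * (t - σ) * ((3 * t * σ ^ 2 - σ ^ 3) + e)) =
    (6 * t * σ ^ 5 - σ ^ 6) + (16 * (3 * t * σ ^ 2 - σ ^ 3) * e + 8 * e ^ 2 +
      36 * (2 * t * σ - σ ^ 2) * (t - σ) * e) := by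
  ring

theorem r_identity (t σ e : ℝ) :
    2 * (t ^ 2 - (t - σ) ^ 2) * ((3 * t * σ ^ 2 - σ ^ 3) + e) - 3 * (t - σ) *
      (3 * (t ^ 2 - (t - σ) ^ 2) ^ 2 - 4 * (t - σ) * ((3 * t * σ ^ 2 - σ ^ 3) + e)) =
    (5 * t * σ ^ 4 - σ ^ 5) + (2 * (2 * t * σ - σ ^ 2) + 12 * (t - σ) ^ 2) * e := by
  ring

/-- Arithmetic of the case `g = 0`. -/
theorem a_bound (a u v R : ℤ) (hu : u ≠ 0)
    (hg : 8 * v ^ 2 - 9 * u * (3 * u ^ 2 - 4 * a * v) = 0)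
    (hr : |2 * u * v - 3 * a * (3 * u ^ 2 - 4 * a * v)| ≤ R) :
    |a| ≤ 3 * (4 * R ^ 4) ^ 5 + 4 * R ^ 4 := by
  set w := 3 * u ^ 2 - 4 * a * v with hw
  set r := 2 * u * v - 3 * a * w with hrdef
  have i1 : 3 * u * r = 2 * v * w + a * (8 * v ^ 2 - 9 * u * w) := by rw [hrdef, hw]; ring
  have i2 : 4 * v * r = 3 * w ^ 2 + u * (8 * v ^ 2 - 9 * u * w) := by rw [hrdef, hw]; ring
  rw [hg, mul_zero, add_zero] at i1 i2
  have hR0 : 0 ≤ R := (abs_nonneg _).trans hr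
  have hw0 : w ≠ 0 := by
    intro h
    have hv : v = 0 := by
      rw [h] at hg
      have : v ^ 2 = 0 := by linarith
      exact pow_eq_zero_iff (two_ne_zero) |>.1 this
    rw [hv] at hw
    have : u ^ 2 = 0 := by
      rw [h] at hw; linarith
    exact hu (pow_eq_zero_iff (two_ne_zero) |>.1 this)
  have hr0 : r ≠ 0 := by
    intro h
    rw [h, mul_zero] at i2
    have : w ^ 2 = 0 := by linarith
    exact hw0 (pow_eq_zero_iff (two_ne_zero) |>.1 this)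
  -- 12 a w r ^ 3 = 3 w ^ 5 - 4 r ^ 4
  have i3 : 2 * u * r ^ 2 = w ^ 3 := by
    have h1 : 12 * u * r ^ 2 = 6 * w ^ 3 := by
      calc 12 * u * r ^ 2 = 4 * r * (3 * u * r) := by ring
        _ = 2 * w * (4 * v * r) := by rw [i1]; ring
        _ = 6 * w ^ 3 := by rw [i2]; ring
    linarith
  have i4 : w * (12 * a * r ^ 3 * w) = w * (3 * w ^ 5 - 4 * r ^ 4) := by
    have h1 : 4 * r ^ 4 * w = 3 * (2 * u * r ^ 2) ^ 2 - 4 * a * r ^ 3 * (4 * v * r) := by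
      rw [hw]; ring
    rw [i2, i3] at h1
    linear_combination h1
  have i5 : 12 * a * r ^ 3 * w = 3 * w ^ 5 - 4 * r ^ 4 := mul_left_cancel₀ hw0 i4
  have hdvd : w ∣ 4 * r ^ 4 := ⟨3 * w ^ 4 - 12 * a * r ^ 3, by linear_combination i5⟩
  have hr4 : r ^ 4 ≤ R ^ 4 := by
    have h1 : |r| ^ 4 ≤ R ^ 4 := by gcongr
    have h2 : |r| ^ 4 = r ^ 4 := by
      rw [show (4 : ℕ) = 2 * 2 by norm_num, pow_mul, pow_mul, sq_abs]
    linarith
  have hr4pos : 0 < 4 * r ^ 4 := by positivity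
  have hw4 : |w| ≤ 4 * R ^ 4 := by
    have h1 : |w| ≤ 4 * r ^ 4 := Int.le_of_dvd hr4pos ((abs_dvd _ _).2 hdvd)
    linarith
  have h12 : |a| ≤ |12 * a * r ^ 3 * w| := by
    have h1 : 12 * a * r ^ 3 * w = a * (12 * r ^ 3 * w) := by ring
    rw [h1, abs_mul]
    have h2 : 1 ≤ |12 * r ^ 3 * w| := by
      apply Int.one_le_abs
      have : r ^ 3 ≠ 0 := pow_ne_zero _ hr0
      simp [hw0, this]
    nlinarith [abs_nonneg a]
  have h3 : |3 * w ^ 5 - 4 * r ^ 4| ≤ 3 * |w| ^ 5 + 4 * r ^ 4 := by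
    calc |3 * w ^ 5 - 4 * r ^ 4| ≤ |3 * w ^ 5| + |4 * r ^ 4| := abs_sub _ _
      _ = 3 * |w| ^ 5 + 4 * r ^ 4 := by
        rw [abs_mul, abs_pow, abs_of_pos hr4pos]; norm_num
  have h4 : |w| ^ 5 ≤ (4 * R ^ 4) ^ 5 := by gcongr
  rw [i5] at h12
  linarith

/-- Size of `g`. -/
theorem g_small (t s σ e : ℝ) (ht : 1 ≤ t) (hs : |σ| = s) (hs1 : s ≤ 1 / 4000)
    (h1 : s ^ 5 * t ≤ 1 / 4000) (h2 : t ^ 2 * s * |e| ≤ 1 / 2000) (he : |e| ≤ 1 / 8) :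

    |(6 * t * σ ^ 5 - σ ^ 6) + (16 * (3 * t * σ ^ 2 - σ ^ 3) * e + 8 * e ^ 2 +
      36 * (2 * t * σ - σ ^ 2) * (t - σ) * e)| < 1 := by
  have hs0 : 0 ≤ s := by rw [← hs]; exact abs_nonneg _
  have he0 : 0 ≤ |e| := abs_nonneg _
  have hst : s ≤ t := by linarith
  have b1 : |6 * t * σ ^ 5| ≤ 6 / 4000 := by
    rw [abs_mul, abs_mul, abs_pow, hs, abs_of_pos (by norm_num : (0 : ℝ) < 6),
      abs_of_pos (by linarith : (0 : ℝ) < t)]
    nlinarith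
  have b2 : |σ ^ 6| ≤ 1 / 4000 := by
    rw [abs_pow, hs]
    calc s ^ 6 = s ^ 5 * s := by ring
      _ ≤ s ^ 5 * t := by gcongr
      _ ≤ 1 / 4000 := h1
  have b3 : |16 * (3 * t * σ ^ 2 - σ ^ 3) * e| ≤ 64 / 2000 := by
    have e1 : |3 * t * σ ^ 2 - σ ^ 3| ≤ 4 * (t ^ 2 * s) := by
      calc |3 * t * σ ^ 2 - σ ^ 3| ≤ |3 * t * σ ^ 2| + |σ ^ 3| := abs_sub _ _
        _ = 3 * t * s ^ 2 + s ^ 3 := by
          rw [abs_mul, abs_mul, abs_pow, abs_pow, hs, abs_of_pos (by norm_num : (0 : ℝ) < 3),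
            abs_of_pos (by linarith : (0 : ℝ) < t)]
        _ ≤ 3 * t * (s * t) + s * (t * t) := by
          have : s ^ 3 = s * (s * s) := by ring
          rw [this, sq]
          gcongr
        _ = 4 * (t ^ 2 * s) := by ring
    calc |16 * (3 * t * σ ^ 2 - σ ^ 3) * e| = 16 * |3 * t * σ ^ 2 - σ ^ 3| * |e| := by
          rw [abs_mul, abs_mul]; norm_num
      _ ≤ 16 * (4 * (t ^ 2 * s)) * |e| := by gcongr
      _ = 64 * (t ^ 2 * s * |e|) := by ring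
      _ ≤ 64 / 2000 := by linarith
  have b4 : |8 * e ^ 2| ≤ 1 / 8 := by
    rw [abs_mul, abs_pow, abs_of_pos (by norm_num : (0 : ℝ) < 8)]
    have h8 : |e| ^ 2 ≤ (1 / 8 : ℝ) ^ 2 := by gcongr
    have h9 : (1 / 8 : ℝ) ^ 2 = 1 / 64 := by norm_num
    rw [h9] at h8
    linarith
  have b5 : |36 * (2 * t * σ - σ ^ 2) * (t - σ) * e| ≤ 216 / 2000 := by
    have e1 : |2 * t * σ - σ ^ 2| ≤ 3 * (t * s) := by
      calc |2 * t * σ - σ ^ 2| ≤ |2 * t * σ| + |σ ^ 2| := abs_sub _ _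
        _ = 2 * t * s + s ^ 2 := by
          rw [abs_mul, abs_mul, abs_pow, hs, abs_of_pos (by norm_num : (0 : ℝ) < 2),
            abs_of_pos (by linarith : (0 : ℝ) < t)]
        _ ≤ 2 * t * s + t * s := by rw [sq]; gcongr
        _ = 3 * (t * s) := by ring
    have e2 : |t - σ| ≤ 2 * t := by
      calc |t - σ| ≤ |t| + |σ| := abs_sub _ _
        _ = t + s := by rw [hs, abs_of_pos (by linarith : (0 : ℝ) < t)]
        _ ≤ 2 * t := by linarith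
    calc |36 * (2 * t * σ - σ ^ 2) * (t - σ) * e|
        = 36 * |2 * t * σ - σ ^ 2| * |t - σ| * |e| := by
          rw [abs_mul, abs_mul, abs_mul]; norm_num
      _ ≤ 36 * (3 * (t * s)) * (2 * t) * |e| := by gcongr
      _ = 216 * (t ^ 2 * s * |e|) := by ring
      _ ≤ 216 / 2000 := by linarith
  rw [abs_le] at b1 b2 b3 b4 b5
  rw [abs_lt]
  constructor <;> linarith [b1.1, b1.2, b2.1, b2.2, b3.1, b3.2, b4.1, b4.2, b5.1, b5.2]

/-- Size of `r` when `g = 0` and the denominator is one. -/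
theorem r_small (t s σ e c1 : ℝ) (ht : 1 ≤ t) (hs : |σ| = s) (hs1 : s ≤ 1 / 4000)
    (hst : 1 ≤ 3 * t * s) (he : t ^ 2 * |e| ≤ 2 * c1) (hc : 1 ≤ c1)
    (hg : (6 * t * σ ^ 5 - σ ^ 6) + (16 * (3 * t * σ ^ 2 - σ ^ 3) * e + 8 * e ^ 2 +
      36 * (2 * t * σ - σ ^ 2) * (t - σ) * e) = 0) :
    |(5 * t * σ ^ 4 - σ ^ 5) + (2 * (2 * t * σ - σ ^ 2) + 12 * (t - σ) ^ 2) * e| ≤
      810 * c1 ^ 2 := by
  have hs0 : 0 ≤ s := by rw [← hs]; exact abs_nonneg _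
  have he0 : 0 ≤ |e| := abs_nonneg _
  have hts : s ≤ t := by linarith
  have ht0 : (0 : ℝ) < t := by linarith
  have hspos : 0 < s := by
    rcases hs0.eq_or_lt with h | h
    · rw [← h] at hst; linarith
    · exact h
  have a1 : |6 * t * σ ^ 5| = 6 * t * s ^ 5 := by
    rw [abs_mul, abs_mul, abs_pow, hs, abs_of_pos (by norm_num : (0 : ℝ) < 6), abs_of_pos ht0]
  have a2 : |σ ^ 6| = s ^ 6 := by rw [abs_pow, hs]
  have a3 : |16 * (3 * t * σ ^ 2 - σ ^ 3) * e| ≤ s * (64 * (t ^ 2 * |e|)) := by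
    have e1 : |3 * t * σ ^ 2 - σ ^ 3| ≤ 4 * (t ^ 2 * s) := by
      calc |3 * t * σ ^ 2 - σ ^ 3| ≤ |3 * t * σ ^ 2| + |σ ^ 3| := abs_sub _ _
        _ = 3 * t * s ^ 2 + s ^ 3 := by
          rw [abs_mul, abs_mul, abs_pow, abs_pow, hs, abs_of_pos (by norm_num : (0 : ℝ) < 3),
            abs_of_pos ht0]
        _ ≤ 3 * t * (s * t) + s * (t * t) := by
          have : s ^ 3 = s * (s * s) := by ring
          rw [this, sq]
          gcongr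
        _ = 4 * (t ^ 2 * s) := by ring
    calc |16 * (3 * t * σ ^ 2 - σ ^ 3) * e| = 16 * |3 * t * σ ^ 2 - σ ^ 3| * |e| := by
          rw [abs_mul, abs_mul]; norm_num
      _ ≤ 16 * (4 * (t ^ 2 * s)) * |e| := by gcongr
      _ = s * (64 * (t ^ 2 * |e|)) := by ring
  have a4 : |8 * e ^ 2| ≤ s * (24 * (t * |e| ^ 2)) := by
    rw [abs_mul, abs_pow, abs_of_pos (by norm_num : (0 : ℝ) < 8)]
    have : 0 ≤ |e| ^ 2 := by positivity
    nlinarith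
  have e1 : |2 * t * σ - σ ^ 2| ≤ 3 * (t * s) := by
    calc |2 * t * σ - σ ^ 2| ≤ |2 * t * σ| + |σ ^ 2| := abs_sub _ _
      _ = 2 * t * s + s ^ 2 := by
        rw [abs_mul, abs_mul, abs_pow, hs, abs_of_pos (by norm_num : (0 : ℝ) < 2), abs_of_pos ht0]
      _ ≤ 2 * t * s + t * s := by rw [sq]; gcongr
      _ = 3 * (t * s) := by ring
  have e2 : |t - σ| ≤ 2 * t := by
    calc |t - σ| ≤ |t| + |σ| := abs_sub _ _
      _ = t + s := by rw [hs, abs_of_pos ht0]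
      _ ≤ 2 * t := by linarith
  have a5 : |36 * (2 * t * σ - σ ^ 2) * (t - σ) * e| ≤ s * (216 * (t ^ 2 * |e|)) := by
    calc |36 * (2 * t * σ - σ ^ 2) * (t - σ) * e|
        = 36 * |2 * t * σ - σ ^ 2| * |t - σ| * |e| := by
          rw [abs_mul, abs_mul, abs_mul]; norm_num
      _ ≤ 36 * (3 * (t * s)) * (2 * t) * |e| := by gcongr
      _ = s * (216 * (t ^ 2 * |e|)) := by ring
  -- 6 t s^5 ≤ s^6 + ...
  have h6 : 6 * t * s ^ 5 ≤ s ^ 6 + s * (64 * (t ^ 2 * |e|)) + s * (24 * (t * |e| ^ 2)) +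
      s * (216 * (t ^ 2 * |e|)) := by
    have h7 : 6 * t * σ ^ 5 = σ ^ 6 - 16 * (3 * t * σ ^ 2 - σ ^ 3) * e - 8 * e ^ 2 -
        36 * (2 * t * σ - σ ^ 2) * (t - σ) * e := by linarith
    rw [← a1, h7]
    refine (abs_sub _ _).trans ?_
    refine add_le_add ((abs_sub _ _).trans ?_) a5
    refine add_le_add ((abs_sub _ _).trans ?_) a4
    exact add_le_add a2.le a3
  have het : t * |e| ^ 2 ≤ 4 * c1 ^ 2 := by
    have h8 : (t ^ 2 * |e|) ^ 2 ≤ (2 * c1) ^ 2 := by gcongr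
    have h9 : t * |e| ^ 2 ≤ (t ^ 2 * |e|) ^ 2 := by
      have : (t ^ 2 * |e|) ^ 2 = t ^ 4 * |e| ^ 2 := by ring
      rw [this]
      have h10 : t ≤ t ^ 4 := le_self_pow₀ ht (by norm_num)
      gcongr
    calc t * |e| ^ 2 ≤ (2 * c1) ^ 2 := h9.trans h8
      _ = 4 * c1 ^ 2 := by ring
  have hcc : c1 ≤ c1 ^ 2 := by nlinarith
  have h5 : 5 * t * s ^ 4 ≤ 656 * c1 ^ 2 := by
    have h11 : s * (5 * t * s ^ 4) ≤ s * (656 * c1 ^ 2) := by
      have h12 : s ^ 6 ≤ s * (t * s ^ 4) := by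
        have : s ^ 6 = s * (s * s ^ 4) := by ring
        rw [this]; gcongr
      have h13 : s * (64 * (t ^ 2 * |e|)) ≤ s * (64 * (2 * c1)) := by gcongr
      have h14 : s * (24 * (t * |e| ^ 2)) ≤ s * (24 * (4 * c1 ^ 2)) := by gcongr
      have h15 : s * (216 * (t ^ 2 * |e|)) ≤ s * (216 * (2 * c1)) := by gcongr
      have h16 : s * c1 ≤ s * c1 ^ 2 := by gcongr
      nlinarith
    exact le_of_mul_le_mul_left h11 hspos
  have b1 : |5 * t * σ ^ 4| ≤ 656 * c1 ^ 2 := by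
    rw [abs_mul, abs_mul, abs_pow, hs, abs_of_pos (by norm_num : (0 : ℝ) < 5), abs_of_pos ht0]
    exact h5
  have b2 : |σ ^ 5| ≤ 1 := by
    rw [abs_pow, hs]
    exact pow_le_one₀ hs0 (by linarith)
  have b3 : |(2 * (2 * t * σ - σ ^ 2) + 12 * (t - σ) ^ 2) * e| ≤ 108 * c1 := by
    have e3 : |2 * (2 * t * σ - σ ^ 2) + 12 * (t - σ) ^ 2| ≤ 54 * t ^ 2 := by
      calc |2 * (2 * t * σ - σ ^ 2) + 12 * (t - σ) ^ 2|
          ≤ |2 * (2 * t * σ - σ ^ 2)| + |12 * (t - σ) ^ 2| := abs_add_le _ _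
        _ = 2 * |2 * t * σ - σ ^ 2| + 12 * |t - σ| ^ 2 := by
          rw [abs_mul, abs_mul, abs_pow]; norm_num
        _ ≤ 2 * (3 * (t * s)) + 12 * (2 * t) ^ 2 := by gcongr
        _ ≤ 54 * t ^ 2 := by nlinarith
    rw [abs_mul]
    calc |2 * (2 * t * σ - σ ^ 2) + 12 * (t - σ) ^ 2| * |e| ≤ 54 * t ^ 2 * |e| := by gcongr
      _ = 54 * (t ^ 2 * |e|) := by ring
      _ ≤ 54 * (2 * c1) := by gcongr
      _ = 108 * c1 := by ring
  calc |(5 * t * σ ^ 4 - σ ^ 5) + (2 * (2 * t * σ - σ ^ 2) + 12 * (t - σ) ^ 2) * e|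
      ≤ |5 * t * σ ^ 4 - σ ^ 5| + |(2 * (2 * t * σ - σ ^ 2) + 12 * (t - σ) ^ 2) * e| :=
        abs_add_le _ _
    _ ≤ (|5 * t * σ ^ 4| + |σ ^ 5|) + |(2 * (2 * t * σ - σ ^ 2) + 12 * (t - σ) ^ 2) * e| := by
        gcongr; exact abs_sub _ _
    _ ≤ (656 * c1 ^ 2 + 1) + 108 * c1 := by gcongr
    _ ≤ 810 * c1 ^ 2 := by nlinarith

/-- The near-rational statement for coprime pairs and `y ≥ 0`. -/
theorem core_near (c1 : ℝ) (hc1 : 1 ≤ c1) : ∃ c X0 : ℝ, 0 < c ∧ c ≤ 1 / 2 ∧ 1 ≤ X0 ∧ ∀ x y : ℤ,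
    X0 ≤ (x : ℝ) → 0 ≤ y → |(y : ℝ) ^ 2 - (x : ℝ) ^ 3| ≤ c1 * √(x : ℝ) → ¬ IsSquare x →
    ∀ a b : ℤ, 1 ≤ b → IsCoprime a b →
    c < |(b : ℝ) * √(x : ℝ) - a| * max (((b : ℝ) * √(x : ℝ)) ^ (1 / 5 : ℝ)) ((b : ℝ) ^ 5) := by
  set R : ℤ := ⌈810 * c1 ^ 2⌉ with hR
  set B : ℤ := 3 * (4 * R ^ 4) ^ 5 + 4 * R ^ 4 with hB
  have hB0 : (0 : ℝ) ≤ B := by
    have : 0 ≤ B := by rw [hB]; positivity
    exact_mod_cast this
  set c : ℝ := 1 / (4000 * c1) with hc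
  have hc0 : 0 < c := by positivity
  have hcle : c ≤ 1 / 4000 := by
    rw [hc]; apply one_div_le_one_div_of_le (by norm_num); linarith
  refine ⟨c, (B + 16 * c1 + 2) ^ 2, hc0, by linarith, ?_, ?_⟩
  · apply one_le_pow₀; linarith
  intro x y hx hy hk hsq a b hb hcop
  by_contra hcon
  push Not at hcon
  set T := √(x : ℝ) with hT
  have hx0 : (0 : ℝ) ≤ x := (sq_nonneg _).trans hx
  have hTx : T ^ 2 = x := Real.sq_sqrt hx0
  have hTbig : B + 16 * c1 + 2 ≤ T := by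
    apply Real.le_sqrt_of_sq_le hx
  have hT1 : 1 ≤ T := by linarith
  have hbr : (1 : ℝ) ≤ b := by exact_mod_cast hb
  set t := (b : ℝ) * T with ht
  have ht1 : 1 ≤ t := by nlinarith
  set σ := t - a with hσ
  set s := |σ| with hs
  have hs0 : 0 ≤ s := abs_nonneg _
  have ht5 : (t ^ (1 / 5 : ℝ)) ^ 5 = t := by
    rw [← Real.rpow_natCast, ← Real.rpow_mul (by linarith)]; norm_num
  have hts0 : 0 ≤ t ^ (1 / 5 : ℝ) := by positivity
  have f1 : s * t ^ (1 / 5 : ℝ) ≤ c := (mul_le_mul_of_nonneg_left (le_max_left _ _) hs0).trans hcon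
  have f2 : s * (b : ℝ) ^ 5 ≤ c := (mul_le_mul_of_nonneg_left (le_max_right _ _) hs0).trans hcon
  have hsc : s ≤ c := by
    have : (1 : ℝ) ≤ (b : ℝ) ^ 5 := one_le_pow₀ hbr
    nlinarith
  have hs4 : s ≤ 1 / 4000 := hsc.trans hcle
  have f3 : s ^ 5 * t ≤ 1 / 4000 := by
    have h1 : (s * t ^ (1 / 5 : ℝ)) ^ 5 ≤ c ^ 5 := by gcongr
    have h2 : (s * t ^ (1 / 5 : ℝ)) ^ 5 = s ^ 5 * t := by rw [mul_pow, ht5]
    have h3 : c ^ 5 ≤ c := by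
      have : c ^ 5 ≤ c ^ 1 := pow_le_pow_of_le_one hc0.le (by linarith) (by norm_num)
      simpa using this
    rw [h2] at h1
    linarith
  -- u is a nonzero integer
  set u : ℤ := b ^ 2 * x - a ^ 2 with hu
  have hur : (u : ℝ) = t ^ 2 - (t - σ) ^ 2 := by
    have : t - σ = a := by rw [hσ]; ring
    rw [this, hu, ht, mul_pow, hTx]; push_cast; ring
  have hune : u ≠ 0 := by
    intro h
    apply hsq
    have h1 : b ^ 2 * x = a ^ 2 := by rw [hu] at h; linarith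
    have h2 : b ^ 2 ∣ a ^ 2 := ⟨x, h1.symm⟩
    have h3 : IsUnit b := by
      have h4 : b ∣ a := (Int.pow_dvd_pow_iff (two_ne_zero)).1 h2
      exact hcop.symm.isUnit_of_dvd' dvd_rfl h4
    have h5 : b = 1 := by
      rcases Int.isUnit_iff.1 h3 with h | h
      · exact h
      · omega
    rw [h5] at h1
    exact ⟨a, by rw [← sq]; linarith⟩
  have haσ : (a : ℝ) = t - σ := by rw [hσ]; ring
  have hst : 1 ≤ 3 * t * s := by
    have h1 : (1 : ℝ) ≤ |(u : ℝ)| := by exact_mod_cast Int.one_le_abs hune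
    have h2 : (u : ℝ) = σ * (2 * t - σ) := by rw [hur]; ring
    rw [h2, abs_mul] at h1
    have h3 : |2 * t - σ| ≤ 3 * t := by
      calc |2 * t - σ| ≤ |2 * t| + |σ| := abs_sub _ _
        _ = 2 * t + s := by rw [abs_of_pos (by linarith : 0 < 2 * t)]
        _ ≤ 3 * t := by linarith
    calc 1 ≤ |σ| * |2 * t - σ| := h1
      _ ≤ s * (3 * t) := by gcongr
      _ = 3 * t * s := by ring
  have hb4 : (b : ℝ) ^ 4 ≤ T := by
    have h1 : (b : ℝ) ^ 5 ≤ 3 * t * c := by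
      calc (b : ℝ) ^ 5 = 1 * (b : ℝ) ^ 5 := by ring
        _ ≤ 3 * t * s * (b : ℝ) ^ 5 := by gcongr
        _ = 3 * t * (s * (b : ℝ) ^ 5) := by ring
        _ ≤ 3 * t * c := by gcongr
    have h2 : (b : ℝ) * (b : ℝ) ^ 4 ≤ (b : ℝ) * (3 * c * T) := by
      calc (b : ℝ) * (b : ℝ) ^ 4 = (b : ℝ) ^ 5 := by ring
        _ ≤ 3 * t * c := h1
        _ = (b : ℝ) * (3 * c * T) := by rw [ht]; ring
    have h3 : (b : ℝ) ^ 4 ≤ 3 * c * T := le_of_mul_le_mul_left h2 (by linarith)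
    nlinarith
  have hb3 : (b : ℝ) ^ 3 ≤ T := by
    refine le_trans ?_ hb4
    exact pow_le_pow_right₀ hbr (by norm_num)
  -- the error
  set δ := (y : ℝ) - T ^ 3 with hδ
  have hyr : (0 : ℝ) ≤ y := by exact_mod_cast hy
  have hδb : T ^ 2 * |δ| ≤ c1 := by
    have h1 : ((y : ℝ) - T ^ 3) * ((y : ℝ) + T ^ 3) = (y : ℝ) ^ 2 - (x : ℝ) ^ 3 := by
      rw [← hTx]; ring
    have h2 : |δ| * ((y : ℝ) + T ^ 3) ≤ c1 * T := by
      have h3 : |δ| * |(y : ℝ) + T ^ 3| ≤ c1 * T := by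
        rw [← abs_mul, hδ, h1]; exact hk
      rwa [abs_of_nonneg (by positivity : (0 : ℝ) ≤ (y : ℝ) + T ^ 3)] at h3
    have h3 : |δ| * T ^ 3 ≤ c1 * T := by
      have : 0 ≤ |δ| * (y : ℝ) := by positivity
      nlinarith
    have h4 : T * (T ^ 2 * |δ|) ≤ T * c1 := by nlinarith
    exact le_of_mul_le_mul_left h4 (by linarith)
  set e := 2 * (b : ℝ) ^ 3 * δ with he
  have heabs : |e| = 2 * (b : ℝ) ^ 3 * |δ| := by
    rw [he, abs_mul, abs_mul, abs_pow, abs_of_pos (by norm_num : (0 : ℝ) < 2),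
      abs_of_pos (by linarith : (0 : ℝ) < b)]
  have he8 : |e| ≤ 1 / 8 := by
    rw [heabs]
    have h1 : T * (T * (2 * (b : ℝ) ^ 3 * |δ|)) ≤ T * (2 * c1) := by
      calc T * (T * (2 * (b : ℝ) ^ 3 * |δ|)) = 2 * (b : ℝ) ^ 3 * (T ^ 2 * |δ|) := by ring
        _ ≤ 2 * T * c1 := by gcongr
        _ = T * (2 * c1) := by ring
    have h2 : T * (2 * (b : ℝ) ^ 3 * |δ|) ≤ 2 * c1 := le_of_mul_le_mul_left h1 (by linarith)
    have h3 : 0 ≤ 2 * (b : ℝ) ^ 3 * |δ| := by positivity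
    have h4 : 16 * c1 ≤ T := by linarith
    nlinarith
  have hte : t ^ 2 * s * |e| ≤ 1 / 2000 := by
    rw [heabs, ht]
    calc ((b : ℝ) * T) ^ 2 * s * (2 * (b : ℝ) ^ 3 * |δ|)
        = 2 * (s * (b : ℝ) ^ 5) * (T ^ 2 * |δ|) := by ring
      _ ≤ 2 * c * c1 := by gcongr
      _ = 1 / 2000 := by rw [hc]; field_simp; norm_num
  -- v, w, g
  set v : ℤ := 2 * b ^ 3 * y - 3 * a * b ^ 2 * x + a ^ 3 with hv
  have hvr : (v : ℝ) = (3 * t * σ ^ 2 - σ ^ 3) + e := by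
    rw [hv, he, hδ]
    push_cast
    rw [haσ, ← hTx, ht]; ring
  set g : ℤ := 8 * v ^ 2 - 9 * u * (3 * u ^ 2 - 4 * a * v) with hg
  have hgr : (g : ℝ) = (6 * t * σ ^ 5 - σ ^ 6) + (16 * (3 * t * σ ^ 2 - σ ^ 3) * e + 8 * e ^ 2 +
      36 * (2 * t * σ - σ ^ 2) * (t - σ) * e) := by
    rw [← g_identity, hg]
    push_cast
    rw [hvr, hur, haσ]
  have hg0 : g = 0 := by
    have h1 := g_small t s σ e ht1 rfl hs4 f3 hte he8
    rw [← hgr] at h1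
    have h2 : |g| < 1 := by exact_mod_cast h1
    exact Int.abs_lt_one_iff.1 h2
  -- b = 1
  have hb1 : b = 1 := by
    have hu1 : u ≡ -a ^ 2 [ZMOD b] := by
      apply Int.ModEq.symm
      rw [Int.modEq_iff_dvd]
      exact ⟨b * x, by rw [hu]; ring⟩
    have hv1 : v ≡ a ^ 3 [ZMOD b] := by
      apply Int.ModEq.symm
      rw [Int.modEq_iff_dvd]
      exact ⟨2 * b ^ 2 * y - 3 * a * b * x, by rw [hv]; ring⟩
    have hg1 : g ≡ -a ^ 6 [ZMOD b] := by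
      have h1 : g ≡ 8 * (a ^ 3) ^ 2 - 9 * (-a ^ 2) * (3 * (-a ^ 2) ^ 2 - 4 * a * a ^ 3) [ZMOD b] := by
        rw [hg]
        apply Int.ModEq.sub
        · exact (hv1.pow 2).mul_left 8
        · apply Int.ModEq.mul (hu1.mul_left 9)
          apply Int.ModEq.sub
          · exact (hu1.pow 2).mul_left 3
          · exact hv1.mul_left (4 * a)
      have h2 : 8 * (a ^ 3) ^ 2 - 9 * (-a ^ 2) * (3 * (-a ^ 2) ^ 2 - 4 * a * a ^ 3) = -a ^ 6 := by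
        ring
      rwa [h2] at h1
    rw [hg0] at hg1
    have h3 : b ∣ a ^ 6 := by
      have := hg1.dvd
      rw [sub_zero] at this
      exact (Int.dvd_neg).1 this
    have h4 : IsUnit b := by
      have h5 : IsCoprime (a ^ 6) b := hcop.pow_left
      exact h5.symm.isUnit_of_dvd' dvd_rfl h3
    rcases Int.isUnit_iff.1 h4 with h | h
    · exact h
    · omega
  -- conclusion
  have hte2 : t ^ 2 * |e| ≤ 2 * c1 := by
    rw [heabs, ht, hb1]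
    push_cast
    calc (1 * T) ^ 2 * (2 * 1 ^ 3 * |δ|) = 2 * (T ^ 2 * |δ|) := by ring
      _ ≤ 2 * c1 := by gcongr
  have hgr0 := hgr
  rw [hg0] at hgr0
  push_cast at hgr0
  have hr := r_small t s σ e c1 ht1 rfl hs4 hst hte2 hc1 hgr0.symm
  rw [← r_identity] at hr
  have hri : |2 * u * v - 3 * a * (3 * u ^ 2 - 4 * a * v)| ≤ R := by
    have h1 : ((|2 * u * v - 3 * a * (3 * u ^ 2 - 4 * a * v)| : ℤ) : ℝ) ≤ 810 * c1 ^ 2 := by
      push_cast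
      rw [hvr, hur, haσ]
      exact hr
    have h2 : ((|2 * u * v - 3 * a * (3 * u ^ 2 - 4 * a * v)| : ℤ) : ℝ) ≤ (R : ℝ) :=
      h1.trans (Int.le_ceil _)
    exact_mod_cast h2
  have hab := a_bound a u v R hune hg0 hri
  have habr : |(a : ℝ)| ≤ B := by exact_mod_cast hab
  have hta : t ≤ |(a : ℝ)| + s := by
    have h1 : t = a + σ := by rw [hσ]; ring
    calc t = a + σ := h1
      _ ≤ |(a : ℝ)| + s := add_le_add (le_abs_self _) (le_abs_self _)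
  have hTt : T ≤ t := by rw [ht]; nlinarith
  linarith

/-- `√x` of a violation stays away from rationals. -/
theorem near_rational (C : ℝ) (hC : 0 < C) : ∃ c X0 : ℝ, 0 < c ∧ ∀ x y : ℤ, X0 ≤ (x : ℝ) →
    y ^ 2 ≠ x ^ 3 → C * |(y : ℝ) ^ 2 - (x : ℝ) ^ 3| ^ 3 < max |(x : ℝ)| |(y : ℝ)| →
    ∀ a b : ℤ, 1 ≤ b →
    c / max (((b : ℝ) * √(x : ℝ)) ^ (1 / 5 : ℝ)) ((b : ℝ) ^ 5) < |(b : ℝ) * √(x : ℝ) - a| := by
  obtain ⟨c1, X1, hc1, hX1, hset⟩ := viol_setup C hC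
  obtain ⟨c, X0, hc0, hc2, hX0, hcore⟩ := core_near c1 hc1
  refine ⟨c, max X0 X1, hc0, ?_⟩
  intro x y hx hne hv a b hb
  have hx0 : X0 ≤ x := (le_max_left _ _).trans hx
  have hx1 : X1 ≤ x := (le_max_right _ _).trans hx
  obtain ⟨hk, hsq⟩ := hset x y hx1 hne hv
  set T := √(x : ℝ) with hT
  have hT1 : 1 ≤ T := Real.le_sqrt_of_sq_le (by linarith)
  -- replace y by |y|
  have hk' : |((|y| : ℤ) : ℝ) ^ 2 - (x : ℝ) ^ 3| ≤ c1 * T := by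
    push_cast; rw [sq_abs]; exact hk
  -- reduce the fraction
  set d : ℤ := ((Int.gcd a b : ℕ) : ℤ) with hd
  have hbpos : 0 < b := by omega
  have hdpos : 0 < d := by
    rw [hd]
    have : 0 < Int.gcd a b := Int.gcd_pos_of_ne_zero_right a hbpos.ne'
    exact_mod_cast this
  obtain ⟨a', ha'⟩ : d ∣ a := Int.gcd_dvd_left a b
  obtain ⟨b', hb'⟩ : d ∣ b := Int.gcd_dvd_right a b
  have hcop : IsCoprime a' b' := by
    rw [Int.isCoprime_iff_gcd_eq_one]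
    have h1 : Int.gcd a b = Int.gcd (d * a') (d * b') := by rw [← ha', ← hb']
    rw [Int.gcd_mul_left] at h1
    have h2 : d.natAbs = Int.gcd a b := by rw [hd]; simp
    rw [h2] at h1
    have h3 : 0 < Int.gcd a b := Int.gcd_pos_of_ne_zero_right a hbpos.ne'
    have h4 : Int.gcd a b * 1 = Int.gcd a b * Int.gcd a' b' := by rw [mul_one]; exact h1
    exact (Nat.eq_of_mul_eq_mul_left h3 h4).symm
  have hb'pos : 0 < b' := by
    rw [hb'] at hbpos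
    exact (mul_pos_iff_of_pos_left hdpos).1 hbpos
  have hmain := hcore x |y| hx0 (abs_nonneg _) hk' hsq a' b' hb'pos hcop
  have hdr : (1 : ℝ) ≤ d := by
    have : 1 ≤ d := hdpos
    exact_mod_cast this
  have hbr : (1 : ℝ) ≤ b := by exact_mod_cast hb
  have hb'r : (1 : ℝ) ≤ b' := by
    have : 1 ≤ b' := hb'pos
    exact_mod_cast this
  have hbb : (b' : ℝ) ≤ b := by
    rw [hb']; push_cast; nlinarith
  have e1 : |(b : ℝ) * T - a| = d * |(b' : ℝ) * T - a'| := by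
    have : (b : ℝ) * T - a = d * ((b' : ℝ) * T - a') := by
      conv_lhs => rw [ha', hb']
      push_cast; ring
    rw [this, abs_mul, abs_of_pos (by linarith : (0 : ℝ) < d)]
  have hmaxle : max (((b' : ℝ) * T) ^ (1 / 5 : ℝ)) ((b' : ℝ) ^ 5) ≤
      max (((b : ℝ) * T) ^ (1 / 5 : ℝ)) ((b : ℝ) ^ 5) := by
    apply max_le_max
    · gcongr
    · gcongr
  have hmaxpos : 0 < max (((b : ℝ) * T) ^ (1 / 5 : ℝ)) ((b : ℝ) ^ 5) :=
    lt_max_of_lt_right (by positivity)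
  rw [div_lt_iff₀ hmaxpos, e1]
  have h0 : 0 ≤ |(b' : ℝ) * T - a'| := abs_nonneg _
  calc c < |(b' : ℝ) * T - a'| * max (((b' : ℝ) * T) ^ (1 / 5 : ℝ)) ((b' : ℝ) ^ 5) := hmain
    _ ≤ |(b' : ℝ) * T - a'| * max (((b : ℝ) * T) ^ (1 / 5 : ℝ)) ((b : ℝ) ^ 5) := by gcongr
    _ = 1 * |(b' : ℝ) * T - a'| * max (((b : ℝ) * T) ^ (1 / 5 : ℝ)) ((b : ℝ) ^ 5) := by ring
    _ ≤ d * |(b' : ℝ) * T - a'| * max (((b : ℝ) * T) ^ (1 / 5 : ℝ)) ((b : ℝ) ^ 5) := by gcongr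

end Pool.Agent.Work.MP_f2148a_nt
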